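import Mathlib
import Pool.Agent.Lib.MP_0a1b52_lc_RT.Defs

/-!
# How often a circuit reads its variables: accepting trees
-/

set_option autoImplicit false

namespace Pool.Agent.RT

open Pool.Agent.FP

/-- `ATree D g L`: the gate `g` of `D` has a formal accepting tree whose leaves are, from left to
right, literals of the variables in the list `L`.  A formal accepting tree goes from an AND gate to
both wires (the left one first), from an OR gate to one of them, and it ends at literals; nothing
is required of the values of the literals. -/
inductive ATree {V : Type} {s : ℕ} (D : Circuit V s) : Fin s → List V → Prop
  | lit (g : Fin s) (v : V) (b : Bool) : D.gate g = .lit v b → ATree D g [v]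
  | left (g i j : Fin s) (L : List V) : D.gate g = .or i j → ATree D i L → ATree D g L
  | right (g i j : Fin s) (L : List V) : D.gate g = .or i j → ATree D j L → ATree D g L
  | both (g i j : Fin s) (L L' : List V) : D.gate g = .and i j → ATree D i L → ATree D j L' →
      ATree D g (L ++ L')

end Pool.Agent.RT
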