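import Mathlib
import Pool.Agent.Lib.MP_0a1b52_lc_RT.DefsA

/-!
# How often a circuit reads its variables, module Dual: the dual circuit
-/

set_option autoImplicit false

namespace Pool.Agent.RT

open Pool.Agent.FP

variable {V : Type} {s : ℕ}

/-- the values of the gates -/
private def ev (D : Circuit V s) (x : V → Bool) (g : Fin s) : Bool :=
  match h : D.gate g with
  | .lit v b => x v == b
  | .and i j => ev D x i && ev D x j
  | .or i j => ev D x i || ev D x j
termination_by g
decreasing_by
  · exact (D.and_lt g i j h).1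
  · exact (D.and_lt g i j h).2
  · exact (D.or_lt g i j h).1
  · exact (D.or_lt g i j h).2

private theorem ev_isEval (D : Circuit V s) (x : V → Bool) : D.IsEval x (ev D x) := by
  intro g
  rw [ev]
  split
  · rename_i v b h
    rw [h]
  · rename_i i j h
    rw [h]
  · rename_i i j h
    rw [h]

private theorem ev_unique {D : Circuit V s} {x : V → Bool} {val val' : Fin s → Bool}
    (h : D.IsEval x val) (h' : D.IsEval x val') : val = val' := by
  funext g
  induction g using WellFoundedLT.induction with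
  | ind g ih =>
    rw [h g, h' g]
    rcases hg : D.gate g with ⟨v, b⟩ | ⟨i, j⟩ | ⟨i, j⟩
    · rfl
    · have h1 := D.and_lt g i j hg
      simp only [ih i h1.1, ih j h1.2]
    · have h1 := D.or_lt g i j hg
      simp only [ih i h1.1, ih j h1.2]

private def dualGate : Gate V s → Gate V s
  | .lit v b => .lit v (!b)
  | .and i j => .or i j
  | .or i j => .and i j

/-- the dual circuit: it computes the negation -/
def dual (D : Circuit V s) : Circuit V s where
  gate g := dualGate (D.gate g)
  and_lt := by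
    intro g i j h
    rcases hg : D.gate g with ⟨v, b⟩ | ⟨i', j'⟩ | ⟨i', j'⟩ <;> rw [hg] at h <;>
      simp only [dualGate, reduceCtorEq, Gate.and.injEq] at h
    obtain ⟨rfl, rfl⟩ := h
    exact D.or_lt g _ _ hg
  or_lt := by
    intro g i j h
    rcases hg : D.gate g with ⟨v, b⟩ | ⟨i', j'⟩ | ⟨i', j'⟩ <;> rw [hg] at h <;>
      simp only [dualGate, reduceCtorEq, Gate.or.injEq] at h
    obtain ⟨rfl, rfl⟩ := h
    exact D.and_lt g _ _ hg
  out := D.out

private theorem dual_gate (D : Circuit V s) (g : Fin s) :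
    (dual D).gate g = dualGate (D.gate g) := rfl

private theorem dual_eval {D : Circuit V s} {x : V → Bool} {val : Fin s → Bool}
    (h : D.IsEval x val) : (dual D).IsEval x fun g => !val g := by
  intro g
  have h1 := h g
  rw [dual_gate]
  rcases hg : D.gate g with ⟨v, b⟩ | ⟨i, j⟩ | ⟨i, j⟩ <;> rw [hg] at h1 <;>
    simp only [dualGate] at h1 ⊢ <;> rw [h1]
  · cases x v <;> cases b <;> rfl
  · cases val i <;> cases val j <;> rfl
  · cases val i <;> cases val j <;> rfl

theorem dual_accepts (D : Circuit V s) (x : V → Bool) :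
    (dual D).Accepts x ↔ ¬ D.Accepts x := by
  constructor
  · rintro ⟨val, h1, h2⟩ ⟨val', h3, h4⟩
    have h5 := ev_unique h1 (dual_eval h3)
    rw [h5] at h2
    have h6 : (dual D).out = D.out := rfl
    rw [h6] at h2
    simp only [h4] at h2
    exact Bool.noConfusion h2
  · intro h
    refine ⟨_, dual_eval (ev_isEval D x), ?_⟩
    by_contra hc
    refine h ⟨_, ev_isEval D x, ?_⟩
    have h6 : (dual D).out = D.out := rfl
    rw [h6] at hc
    simpa using hc

theorem tree_dual {D : Circuit V s} {g : Fin s} {L : List V} (h : Tree (dual D) g L) :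
    ATree D g L := by
  induction h with
  | lit g v b h1 =>
    rw [dual_gate] at h1
    rcases hg : D.gate g with ⟨v', b'⟩ | ⟨i', j'⟩ | ⟨i', j'⟩ <;> rw [hg] at h1 <;>
      simp only [dualGate, reduceCtorEq, Gate.lit.injEq] at h1
    obtain ⟨rfl, -⟩ := h1
    exact .lit g v' b' hg
  | left g i j L h1 _ ih =>
    rw [dual_gate] at h1
    rcases hg : D.gate g with ⟨v', b'⟩ | ⟨i', j'⟩ | ⟨i', j'⟩ <;> rw [hg] at h1 <;>
      simp only [dualGate, reduceCtorEq, Gate.and.injEq] at h1
    obtain ⟨rfl, rfl⟩ := h1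
    exact .left g _ _ L hg ih
  | right g i j L h1 _ ih =>
    rw [dual_gate] at h1
    rcases hg : D.gate g with ⟨v', b'⟩ | ⟨i', j'⟩ | ⟨i', j'⟩ <;> rw [hg] at h1 <;>
      simp only [dualGate, reduceCtorEq, Gate.and.injEq] at h1
    obtain ⟨rfl, rfl⟩ := h1
    exact .right g _ _ L hg ih
  | both g i j L L' h1 _ _ ih ih' =>
    rw [dual_gate] at h1
    rcases hg : D.gate g with ⟨v', b'⟩ | ⟨i', j'⟩ | ⟨i', j'⟩ <;> rw [hg] at h1 <;>
      simp only [dualGate, reduceCtorEq, Gate.or.injEq] at h1
    obtain ⟨rfl, rfl⟩ := h1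
    exact .both g _ _ L L' hg ih ih'

end Pool.Agent.RT
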