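import Mathlib
import Pool.Agent.Lib.MP_0a1b52_lc_RT.Defs

/-!
# Reading `m` variables once in each refutation tree at the cost of a factor `2 ^ m`

The value at `x` is the conjunction over the assignments `a` of the variables in `E` of
(`x_v ≠ a_v` for some `v` in `E`, or the value at the assignment which is `a` on `E` and `x`
elsewhere is `1`).
-/

set_option autoImplicit false

namespace Pool.Agent.RT

open Finset Pool.Agent.FP

variable {V : Type} {s t : ℕ}

/-! ## Values -/

private def ev (D : Circuit V s) (x : V → Bool) (g : Fin s) : Bool :=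
  match _h : D.gate g with
  | .lit v b => x v == b
  | .and i j => ev D x i && ev D x j
  | .or i j => ev D x i || ev D x j
termination_by g
decreasing_by
  · exact (D.and_lt g i j _h).1
  · exact (D.and_lt g i j _h).2
  · exact (D.or_lt g i j _h).1
  · exact (D.or_lt g i j _h).2

private theorem ev_isEval (D : Circuit V s) (x : V → Bool) : D.IsEval x (ev D x) := by
  intro g
  rw [ev]
  split
  · rename_i v b h
    rw [h]
  · rename_i i j h
    rw [h]
  · rename_i i j h
    rw [h]

private theorem ev_unique {D : Circuit V s} {x : V → Bool} {val val' : Fin s → Bool}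
    (h : D.IsEval x val) (h' : D.IsEval x val') : val = val' := by
  funext g
  induction g using WellFoundedLT.induction with
  | ind g ih =>
    rw [h g, h' g]
    rcases hg : D.gate g with ⟨v, b⟩ | ⟨i, j⟩ | ⟨i, j⟩
    · rfl
    · have h1 := D.and_lt g i j hg
      simp only [ih i h1.1, ih j h1.2]
    · have h1 := D.or_lt g i j hg
      simp only [ih i h1.1, ih j h1.2]

private theorem accepts_iff {D : Circuit V s} {x : V → Bool} {val : Fin s → Bool}
    (h : D.IsEval x val) : D.Accepts x ↔ val D.out = true := by
  constructor
  · rintro ⟨val', h1, h2⟩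
    rw [ev_unique h h1]
    exact h2
  · intro h1
    exact ⟨val, h, h1⟩

/-! ## Subcircuits -/

private def mapGate (f : Fin s → Fin t) : Gate V s → Gate V t
  | .lit v b => .lit v b
  | .and i j => .and (f i) (f j)
  | .or i j => .or (f i) (f j)

private theorem sub_tree {C : Circuit V t} {D : Circuit V s} {f : Fin s → Fin t}
    (hf : ∀ g, C.gate (f g) = mapGate f (D.gate g)) {g' : Fin t} {L : List V}
    (h : Tree C g' L) : ∀ g, g' = f g → Tree D g L := by
  induction h with
  | lit g' v b hg' =>
    rintro g rfl
    rw [hf] at hg'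
    rcases hg : D.gate g with ⟨w, c⟩ | ⟨i, j⟩ | ⟨i, j⟩ <;> rw [hg] at hg' <;>
      simp only [mapGate, reduceCtorEq, Gate.lit.injEq] at hg'
    obtain ⟨rfl, rfl⟩ := hg'
    exact .lit g _ _ hg
  | left g' i' j' L hg' _ ih =>
    rintro g rfl
    rw [hf] at hg'
    rcases hg : D.gate g with ⟨w, c⟩ | ⟨i, j⟩ | ⟨i, j⟩ <;> rw [hg] at hg' <;>
      simp only [mapGate, reduceCtorEq, Gate.and.injEq] at hg'
    exact .left g i j L hg (ih i hg'.1.symm)
  | right g' i' j' L hg' _ ih =>
    rintro g rfl
    rw [hf] at hg'
    rcases hg : D.gate g with ⟨w, c⟩ | ⟨i, j⟩ | ⟨i, j⟩ <;> rw [hg] at hg' <;>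
      simp only [mapGate, reduceCtorEq, Gate.and.injEq] at hg'
    exact .right g i j L hg (ih j hg'.2.symm)
  | both g' i' j' L L' hg' _ _ ih ih' =>
    rintro g rfl
    rw [hf] at hg'
    rcases hg : D.gate g with ⟨w, c⟩ | ⟨i, j⟩ | ⟨i, j⟩ <;> rw [hg] at hg' <;>
      simp only [mapGate, reduceCtorEq, Gate.or.injEq] at hg'
    exact .both g i j L L' hg (ih i hg'.1.symm) (ih' j hg'.2.symm)

private theorem sub_eval {C : Circuit V t} {D : Circuit V s} {f : Fin s → Fin t}
    (hf : ∀ g, C.gate (f g) = mapGate f (D.gate g)) {x : V → Bool} {val : Fin t → Bool}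
    (h : C.IsEval x val) : D.IsEval x fun g => val (f g) := by
  intro g
  have h1 := h (f g)
  rw [hf] at h1
  dsimp only
  rw [h1]
  rcases D.gate g with ⟨w, c⟩ | ⟨i, j⟩ | ⟨i, j⟩ <;> rfl

/-! ## Two circuits and a further gate -/

private def lft (s t : ℕ) (i : Fin s) : Fin (s + t + 1) := Fin.castSucc (Fin.castAdd t i)

private def rgt (s t : ℕ) (i : Fin t) : Fin (s + t + 1) := Fin.castSucc (Fin.natAdd s i)

private def join (D : Circuit V s) (E : Circuit V t) (isAnd : Bool) : Circuit V (s + t + 1) where
  gate := Fin.lastCases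
    (if isAnd then .and (lft s t D.out) (rgt s t E.out) else .or (lft s t D.out) (rgt s t E.out))
    (fun g => Fin.addCases (fun g => mapGate (lft s t) (D.gate g))
      (fun g => mapGate (rgt s t) (E.gate g)) g)
  and_lt := by
    intro g i j
    refine Fin.lastCases ?_ (fun g => ?_) g
    · rw [Fin.lastCases_last]
      split_ifs
      · intro h
        obtain ⟨rfl, rfl⟩ := Gate.and.inj h
        exact ⟨Fin.castSucc_lt_last _, Fin.castSucc_lt_last _⟩
      · intro h
        exact absurd h (by simp)
    · rw [Fin.lastCases_castSucc]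
      refine Fin.addCases (fun g => ?_) (fun g => ?_) g
      · rw [Fin.addCases_left]
        rcases hg : D.gate g with ⟨v, b⟩ | ⟨a, b⟩ | ⟨a, b⟩ <;> intro h <;>
          simp only [mapGate, reduceCtorEq, Gate.and.injEq] at h
        obtain ⟨rfl, rfl⟩ := h
        have h1 := D.and_lt g a b hg
        simp only [lft, Fin.lt_def, Fin.val_castSucc, Fin.val_castAdd] at h1 ⊢
        exact h1
      · rw [Fin.addCases_right]
        rcases hg : E.gate g with ⟨v, b⟩ | ⟨a, b⟩ | ⟨a, b⟩ <;> intro h <;>
          simp only [mapGate, reduceCtorEq, Gate.and.injEq] at h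
        obtain ⟨rfl, rfl⟩ := h
        have h1 := E.and_lt g a b hg
        simp only [rgt, Fin.lt_def, Fin.val_castSucc, Fin.val_natAdd] at h1 ⊢
        omega
  or_lt := by
    intro g i j
    refine Fin.lastCases ?_ (fun g => ?_) g
    · rw [Fin.lastCases_last]
      split_ifs
      · intro h
        exact absurd h (by simp)
      · intro h
        obtain ⟨rfl, rfl⟩ := Gate.or.inj h
        exact ⟨Fin.castSucc_lt_last _, Fin.castSucc_lt_last _⟩
    · rw [Fin.lastCases_castSucc]
      refine Fin.addCases (fun g => ?_) (fun g => ?_) g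
      · rw [Fin.addCases_left]
        rcases hg : D.gate g with ⟨v, b⟩ | ⟨a, b⟩ | ⟨a, b⟩ <;> intro h <;>
          simp only [mapGate, reduceCtorEq, Gate.or.injEq] at h
        obtain ⟨rfl, rfl⟩ := h
        have h1 := D.or_lt g a b hg
        simp only [lft, Fin.lt_def, Fin.val_castSucc, Fin.val_castAdd] at h1 ⊢
        exact h1
      · rw [Fin.addCases_right]
        rcases hg : E.gate g with ⟨v, b⟩ | ⟨a, b⟩ | ⟨a, b⟩ <;> intro h <;>
          simp only [mapGate, reduceCtorEq, Gate.or.injEq] at h
        obtain ⟨rfl, rfl⟩ := h
        have h1 := E.or_lt g a b hg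
        simp only [rgt, Fin.lt_def, Fin.val_castSucc, Fin.val_natAdd] at h1 ⊢
        omega
  out := Fin.last _

private theorem join_lft (D : Circuit V s) (E : Circuit V t) (isAnd : Bool) (g : Fin s) :
    (join D E isAnd).gate (lft s t g) = mapGate (lft s t) (D.gate g) := by
  unfold join
  dsimp only
  rw [show lft s t g = Fin.castSucc (Fin.castAdd t g) from rfl, Fin.lastCases_castSucc,
    Fin.addCases_left]

private theorem join_rgt (D : Circuit V s) (E : Circuit V t) (isAnd : Bool) (g : Fin t) :
    (join D E isAnd).gate (rgt s t g) = mapGate (rgt s t) (E.gate g) := by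
  unfold join
  dsimp only
  rw [show rgt s t g = Fin.castSucc (Fin.natAdd s g) from rfl, Fin.lastCases_castSucc,
    Fin.addCases_right]

private theorem join_last (D : Circuit V s) (E : Circuit V t) (isAnd : Bool) :
    (join D E isAnd).gate (join D E isAnd).out = if isAnd then .and (lft s t D.out) (rgt s t E.out)
      else .or (lft s t D.out) (rgt s t E.out) := by
  unfold join
  dsimp only
  rw [Fin.lastCases_last]

/-! ## Replacing literals by constants -/

private theorem tree_count [BEq V] [LawfulBEq V] {C : Circuit V s} {E : Finset V}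
    (h : ∀ g v b, C.gate g = .lit v b → v ∉ E) {g : Fin s} {L : List V} (hL : Tree C g L) :
    ∀ e ∈ E, L.count e = 0 := by
  intro e he
  induction hL with
  | lit g v b hg =>
    rw [List.count_eq_zero]
    intro h1
    rw [List.mem_singleton] at h1
    exact h g v b hg (h1 ▸ he)
  | left g i j L _ _ ih => exact ih
  | right g i j L _ _ ih => exact ih
  | both g i j L L' _ _ _ ih ih' => rw [List.count_append, ih, ih']

private def resGate [DecidableEq V] (E : Finset V) (ρ : V → Bool) : Gate V s → Gate V (4 + s)
  | .lit e b => if e ∈ E then (if ρ e == b then .or (Fin.castAdd s 2) (Fin.castAdd s 2)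
      else .or (Fin.castAdd s 3) (Fin.castAdd s 3)) else .lit e b
  | .and i j => .and (Fin.natAdd 4 i) (Fin.natAdd 4 j)
  | .or i j => .or (Fin.natAdd 4 i) (Fin.natAdd 4 j)

private def cstGate (s : ℕ) (v : V) : Fin 4 → Gate V (4 + s) :=
  ![.lit v true, .lit v false, .or (Fin.castAdd s 0) (Fin.castAdd s 1),
    .and (Fin.castAdd s 0) (Fin.castAdd s 1)]

/-- the variables of `E` are replaced by constants, which are computed with the variable `v` -/
private def res [DecidableEq V] (D : Circuit V s) (E : Finset V) (ρ : V → Bool) (v : V) :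
    Circuit V (4 + s) where
  gate := Fin.addCases (cstGate s v) fun g => resGate E ρ (D.gate g)
  and_lt := by
    intro g i j
    refine Fin.addCases (fun g => ?_) (fun g => ?_) g
    · rw [Fin.addCases_left]
      fin_cases g <;> intro h <;> simp [cstGate] at h
      obtain ⟨rfl, rfl⟩ := h
      simp [Fin.lt_def]
    · rw [Fin.addCases_right]
      rcases hg : D.gate g with ⟨e, b⟩ | ⟨a, b⟩ | ⟨a, b⟩ <;> intro h <;> unfold resGate at h <;>
        dsimp only at h
      · split_ifs at h
      · obtain ⟨rfl, rfl⟩ := Gate.and.inj h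
        have h1 := D.and_lt g a b hg
        simp only [Fin.lt_def, Fin.val_natAdd] at h1 ⊢
        omega
      · exact absurd h (by simp)
  or_lt := by
    intro g i j
    refine Fin.addCases (fun g => ?_) (fun g => ?_) g
    · rw [Fin.addCases_left]
      fin_cases g <;> intro h <;> simp [cstGate] at h
      obtain ⟨rfl, rfl⟩ := h
      simp [Fin.lt_def]
    · rw [Fin.addCases_right]
      rcases hg : D.gate g with ⟨e, b⟩ | ⟨a, b⟩ | ⟨a, b⟩ <;> intro h <;> unfold resGate at h <;>
        dsimp only at h
      · split_ifs at h
        · obtain ⟨rfl, rfl⟩ := Gate.or.inj h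
          simp only [Fin.lt_def, Fin.val_natAdd, Fin.val_castAdd]
          constructor <;> exact Nat.lt_of_lt_of_le (by decide) (Nat.le_add_right 4 _)
        · obtain ⟨rfl, rfl⟩ := Gate.or.inj h
          simp only [Fin.lt_def, Fin.val_natAdd, Fin.val_castAdd]
          constructor <;> exact Nat.lt_of_lt_of_le (by decide) (Nat.le_add_right 4 _)
      · exact absurd h (by simp)
      · obtain ⟨rfl, rfl⟩ := Gate.or.inj h
        have h1 := D.or_lt g a b hg
        simp only [Fin.lt_def, Fin.val_natAdd] at h1 ⊢
        omega
  out := Fin.natAdd 4 D.out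

private theorem res_cst [DecidableEq V] (D : Circuit V s) (E : Finset V) (ρ : V → Bool) (v : V)
    (i : Fin 4) : (res D E ρ v).gate (Fin.castAdd s i) = cstGate s v i := by
  unfold res
  dsimp only
  rw [Fin.addCases_left]

private theorem res_gate [DecidableEq V] (D : Circuit V s) (E : Finset V) (ρ : V → Bool) (v : V)
    (g : Fin s) : (res D E ρ v).gate (Fin.natAdd 4 g) = resGate E ρ (D.gate g) := by
  unfold res
  dsimp only
  rw [Fin.addCases_right]

private theorem res_tree [DecidableEq V] [BEq V] [LawfulBEq V] (D : Circuit V s) (E : Finset V)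
    (ρ : V → Bool) (v : V)
    (hv : v ∉ E) {g : Fin (4 + s)} {L : List V} (hL : Tree (res D E ρ v) g L) :
    ∀ e ∈ E, L.count e = 0 := by
  refine tree_count (fun g w b => ?_) hL
  refine Fin.addCases (fun g => ?_) (fun g => ?_) g
  · rw [res_cst]
    fin_cases g <;> intro h <;> simp [cstGate] at h
    · rw [← h.1]
      exact hv
    · rw [← h.1]
      exact hv
  · rw [res_gate]
    rcases hg : D.gate g with ⟨e, b⟩ | ⟨a, b⟩ | ⟨a, b⟩ <;> intro h <;> unfold resGate at h <;>
      dsimp only at h
    · split_ifs at h with h1 h2
      obtain ⟨rfl, rfl⟩ := Gate.lit.inj h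
      exact h1
    · exact absurd h (by simp)
    · exact absurd h (by simp)

private theorem res_accepts [DecidableEq V] (D : Circuit V s) (E : Finset V) (ρ : V → Bool) (v : V)
    (x : V → Bool) : (res D E ρ v).Accepts x ↔ D.Accepts fun e => if e ∈ E then ρ e else x e := by
  have h := ev_isEval (res D E ρ v) x
  set val := ev (res D E ρ v) x with hval
  have h0 : val (Fin.castAdd s 0) = x v := by
    have h1 := h (Fin.castAdd s 0)
    rw [res_cst] at h1
    rw [h1]
    simp [cstGate]
  have h1 : val (Fin.castAdd s 1) = !x v := by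
    have h1 := h (Fin.castAdd s 1)
    rw [res_cst] at h1
    rw [h1]
    simp [cstGate]
  have h2 : val (Fin.castAdd s 2) = true := by
    have h2 := h (Fin.castAdd s 2)
    rw [res_cst] at h2
    rw [h2]
    simp only [cstGate, Matrix.cons_val]
    rw [h0, h1]
    cases x v <;> rfl
  have h3 : val (Fin.castAdd s 3) = false := by
    have h3 := h (Fin.castAdd s 3)
    rw [res_cst] at h3
    rw [h3]
    simp only [cstGate, Matrix.cons_val]
    rw [h0, h1]
    cases x v <;> rfl
  have h4 : D.IsEval (fun e => if e ∈ E then ρ e else x e) fun g => val (Fin.natAdd 4 g) := by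
    intro g
    have h4 := h (Fin.natAdd 4 g)
    rw [res_gate] at h4
    dsimp only
    rw [h4]
    rcases hg : D.gate g with ⟨e, b⟩ | ⟨a, b⟩ | ⟨a, b⟩
    · unfold resGate
      dsimp only
      by_cases he : e ∈ E
      · rw [if_pos he, if_pos he]
        by_cases hb : (ρ e == b) = true
        · rw [if_pos hb]
          dsimp only
          rw [h2, hb]
          rfl
        · rw [if_neg hb]
          dsimp only
          rw [h3, Bool.not_eq_true] at *
          rw [hb]
          rfl
      · rw [if_neg he, if_neg he]
    · rfl
    · rfl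
  rw [accepts_iff h, accepts_iff h4]
  rfl

/-! ## Circuits which read the variables of a set few times -/

section

variable [BEq V]

/-- Some circuit with at most `b` gates computes `F` and reads each variable `e` of `E` at most
`r e` times in each formal refutation tree. -/
private def CR (E : Finset V) (r : V → ℕ) (b : ℕ) (F : (V → Bool) → Prop) : Prop :=
  ∃ s ≤ b, ∃ D : Circuit V s, (∀ x, D.Accepts x ↔ F x) ∧
    ∀ e ∈ E, ∀ L, Tree D D.out L → L.count e ≤ r e

private theorem CR.mono {E : Finset V} {r r' : V → ℕ} {b b' : ℕ} {F F' : (V → Bool) → Prop}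
    (h : CR E r b F) (hr : ∀ e, r e ≤ r' e) (hb : b ≤ b') (hF : ∀ x, F x ↔ F' x) :
    CR E r' b' F' := by
  obtain ⟨s, hs, D, hD, hT⟩ := h
  exact ⟨s, hs.trans hb, D, fun x => (hD x).trans (hF x),
    fun e he L hL => (hT e he L hL).trans (hr e)⟩

private theorem CR.or {E : Finset V} {r r' : V → ℕ} {b b' : ℕ} {F F' : (V → Bool) → Prop}
    (h : CR E r b F) (h' : CR E r' b' F') :
    CR E (fun e => r e + r' e) (b + b' + 1) fun x => F x ∨ F' x := by
  obtain ⟨s, hs, D, hD, hT⟩ := h
  obtain ⟨t, ht, D', hD', hT'⟩ := h'
  refine ⟨s + t + 1, by omega, join D D' false, fun x => ?_, fun e he L hL => ?_⟩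
  · have h1 := ev_isEval (join D D' false) x
    have h2 := h1 (join D D' false).out
    rw [join_last] at h2
    show _ ↔ F x ∨ F' x
    rw [accepts_iff h1, h2, ← hD x, ← hD' x, accepts_iff (sub_eval (join_lft D D' false) h1),
      accepts_iff (sub_eval (join_rgt D D' false) h1)]
    simp
  · have h1 := join_last D D' false
    cases hL with
    | lit _ v b h =>
      rw [h1] at h
      exact absurd h (by simp)
    | left _ i j _ h _ =>
      rw [h1] at h
      exact absurd h (by simp)
    | right _ i j _ h _ =>
      rw [h1] at h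
      exact absurd h (by simp)
    | both _ i j L L' h hL hL' =>
      rw [h1] at h
      simp only [Bool.false_eq_true, if_false, Gate.or.injEq] at h
      obtain ⟨rfl, rfl⟩ := h
      rw [List.count_append]
      exact Nat.add_le_add (hT e he _ (sub_tree (join_lft D D' false) hL _ rfl))
        (hT' e he _ (sub_tree (join_rgt D D' false) hL' _ rfl))

private theorem CR.and {E : Finset V} {r : V → ℕ} {b b' : ℕ} {F F' : (V → Bool) → Prop}
    (h : CR E r b F) (h' : CR E r b' F') : CR E r (b + b' + 1) fun x => F x ∧ F' x := by
  obtain ⟨s, hs, D, hD, hT⟩ := h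
  obtain ⟨t, ht, D', hD', hT'⟩ := h'
  refine ⟨s + t + 1, by omega, join D D' true, fun x => ?_, fun e he L hL => ?_⟩
  · have h1 := ev_isEval (join D D' true) x
    have h2 := h1 (join D D' true).out
    rw [join_last] at h2
    show _ ↔ F x ∧ F' x
    rw [accepts_iff h1, h2, ← hD x, ← hD' x, accepts_iff (sub_eval (join_lft D D' true) h1),
      accepts_iff (sub_eval (join_rgt D D' true) h1)]
    simp
  · have h1 := join_last D D' true
    cases hL with
    | lit _ v b h =>
      rw [h1] at h
      exact absurd h (by simp)
    | left _ i j _ h hL =>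
      rw [h1] at h
      simp only [if_true, Gate.and.injEq] at h
      obtain ⟨rfl, rfl⟩ := h
      exact hT e he _ (sub_tree (join_lft D D' true) hL _ rfl)
    | right _ i j _ h hL =>
      rw [h1] at h
      simp only [if_true, Gate.and.injEq] at h
      obtain ⟨rfl, rfl⟩ := h
      exact hT' e he _ (sub_tree (join_rgt D D' true) hL _ rfl)
    | both _ i j L L' h hL hL' =>
      rw [h1] at h
      exact absurd h (by simp)

private theorem CR.lit (E : Finset V) (v : V) (b : Bool) :
    CR E (fun e => [v].count e) 1 fun x => x v = b := by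
  refine ⟨1, le_rfl, ⟨fun _ => .lit v b, fun g i j h => absurd h (by simp),
    fun g i j h => absurd h (by simp), 0⟩, fun x => ?_, fun e _ L hL => ?_⟩
  · have h1 := ev_isEval (⟨fun _ => .lit v b, fun g i j h => absurd h (by simp),
      fun g i j h => absurd h (by simp), 0⟩ : Circuit V 1) x
    rw [accepts_iff h1, h1]
    simp
  · cases hL with
    | lit _ w c h =>
      obtain ⟨rfl, -⟩ := Gate.lit.inj h
      exact le_rfl
    | left _ i j _ h hL => exact absurd h (by simp)
    | right _ i j _ h hL => exact absurd h (by simp)
    | both _ i j L L' h hL hL' => exact absurd h (by simp)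

end

/-- **Reading the variables of `E` once at the cost of a factor `2 ^ |E|`.** -/
theorem once [DecidableEq V] [BEq V] [LawfulBEq V] (D : Circuit V s) (E : Finset V) (w : V)
    (hw : w ∉ E) :
    ∃ (s' : ℕ) (D' : Circuit V s'), s' ≤ 2 ^ E.card * (s + 2 * E.card + 5) ∧
      (∀ x, D'.Accepts x ↔ D.Accepts x) ∧ ∀ e ∈ E, ∀ L, Tree D' D'.out L → L.count e ≤ 1 := by
  have key : ∀ A : Finset V, A ⊆ E → ∀ ρ : V → Bool,
      CR E (fun e => if e ∈ A then 1 else 0) (2 ^ A.card * (s + 9) - 5) fun x =>
        D.Accepts fun e => if e ∈ A then x e else if e ∈ E then ρ e else x e := by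
    intro A
    induction A using Finset.induction_on with
    | empty =>
      intro _ ρ
      refine ⟨4 + s, ?_, res D E ρ w, fun x => ?_, fun e he L hL => ?_⟩
      · rw [card_empty, pow_zero, one_mul]
        omega
      · rw [res_accepts]
        simp
      · rw [res_tree D E ρ w hw hL e he]
        exact Nat.zero_le _
    | insert v A hv ih =>
      intro hA ρ
      have hvE : v ∈ E := hA (mem_insert_self v A)
      have hAE : A ⊆ E := fun e he => hA (mem_insert_of_mem he)
      have h1 : ∀ b : Bool, CR E (fun e => if e ∈ insert v A then 1 else 0)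
          (1 + (2 ^ A.card * (s + 9) - 5) + 1) fun x => x v = !b ∨
            D.Accepts fun e => if e ∈ A then x e else if e ∈ E then Function.update ρ v b e
              else x e := by
        intro b
        refine ((CR.lit E v (!b)).or (ih hAE (Function.update ρ v b))).mono (fun e => ?_) le_rfl
          fun x => Iff.rfl
        by_cases h : v = e
        · subst h
          simp [hv]
        · have h2 : [v].count e = 0 := by
            rw [List.count_eq_zero]
            intro h3
            exact h (List.mem_singleton.1 h3).symm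
          rw [h2, zero_add]
          by_cases h3 : e ∈ A
          · simp [h3]
          · simp [h3]
      refine ((h1 true).and (h1 false)).mono (fun e => le_rfl) ?_ fun x => ?_
      · rw [card_insert_of_notMem hv, pow_succ]
        have h2 : 1 ≤ 2 ^ A.card := Nat.one_le_two_pow
        have h3 : 9 ≤ 2 ^ A.card * (s + 9) := by nlinarith
        rw [mul_right_comm]
        omega
      · have h2 : ∀ b : Bool, x v = b →
            (fun e => if e ∈ A then x e else if e ∈ E then Function.update ρ v b e else x e) =
            fun e => if e ∈ insert v A then x e else if e ∈ E then ρ e else x e := by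
          intro b hb
          funext e
          by_cases h : e = v
          · subst h
            simp [hv, hvE, hb]
          · simp [h, mem_insert]
        cases hx : x v
        · rw [← h2 false hx]
          simp
        · rw [← h2 true hx]
          simp
  obtain ⟨s', hs', D', hD', hT'⟩ := key E (Subset.refl E) fun _ => true
  refine ⟨s', D', hs'.trans ?_, fun x => ?_, fun e he L hL => ?_⟩
  · rw [Nat.sub_le_iff_le_add]
    rcases Nat.lt_or_ge E.card 2 with h | h
    · interval_cases E.card
      · omega
      · omega
    · have h1 : s + 9 ≤ s + 2 * E.card + 5 := by omega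
      exact (Nat.mul_le_mul_left _ h1).trans (Nat.le_add_right _ _)
  · rw [hD' x]
    have h1 : (fun e => if e ∈ E then x e else if e ∈ E then true else x e) = x := by
      funext e
      split_ifs <;> rfl
    dsimp only
    rw [h1]
  · have h1 := hT' e he L hL
    dsimp only at h1
    rwa [if_pos he] at h1

end Pool.Agent.RT
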