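import Mathlib
import Pool.Agent.Lib.MP_0a1b52_lc_RT.Defs

/-!
# How often a circuit reads its variables, module Dec: cutting a tree into few pieces
-/

set_option autoImplicit false

namespace Pool.Agent.RT

open Pool.Agent.FP Finset

section

variable {V : Type} {s : ℕ}

/-- `Ctx D g h L R`: a tree for `g` with a hole at the gate `h`, with the leaves `L` to the left and
`R` to the right of the hole -/
inductive Ctx (D : Circuit V s) : Fin s → Fin s → List V → List V → Prop
  | refl (g : Fin s) : Ctx D g g [] []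
  | left (g i j h : Fin s) (L R : List V) : D.gate g = .and i j → Ctx D i h L R → Ctx D g h L R
  | right (g i j h : Fin s) (L R : List V) : D.gate g = .and i j → Ctx D j h L R → Ctx D g h L R
  | orl (g i j h : Fin s) (L R M : List V) : D.gate g = .or i j → Ctx D i h L R → Tree D j M →
      Ctx D g h L (R ++ M)
  | orr (g i j h : Fin s) (L R M : List V) : D.gate g = .or i j → Ctx D j h L R → Tree D i M →
      Ctx D g h (M ++ L) R

theorem Ctx.tree {D : Circuit V s} {g h : Fin s} {L R M : List V} (hc : Ctx D g h L R)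
    (hM : Tree D h M) : Tree D g (L ++ M ++ R) := by
  induction hc with
  | refl g => simpa using hM
  | left g i j h L R hg _ ih => exact .left g i j _ hg (ih hM)
  | right g i j h L R hg _ ih => exact .right g i j _ hg (ih hM)
  | orl g i j h L R M' hg _ hT ih =>
    have := Tree.both g i j _ _ hg (ih hM) hT
    simpa [List.append_assoc] using this
  | orr g i j h L R M' hg _ hT ih =>
    have := Tree.both g i j _ _ hg hT (ih hM)
    simpa [List.append_assoc] using this

theorem Ctx.le {D : Circuit V s} {g h : Fin s} {L R : List V} (hc : Ctx D g h L R) : h ≤ g := by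
  induction hc with
  | refl g => exact le_rfl
  | left g i j h L R hg _ ih => exact ih.trans (D.and_lt g i j hg).1.le
  | right g i j h L R hg _ ih => exact ih.trans (D.and_lt g i j hg).2.le
  | orl g i j h L R M' hg _ _ ih => exact ih.trans (D.or_lt g i j hg).1.le
  | orr g i j h L R M' hg _ _ ih => exact ih.trans (D.or_lt g i j hg).2.le

theorem Ctx.self {D : Circuit V s} {g : Fin s} {L R : List V} (hc : Ctx D g g L R) :
    L = [] ∧ R = [] := by
  cases hc with
  | refl => exact ⟨rfl, rfl⟩
  | left _ i j _ _ _ hg h => exact absurd h.le (not_le.2 (D.and_lt g i j hg).1)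
  | right _ i j _ _ _ hg h => exact absurd h.le (not_le.2 (D.and_lt g i j hg).2)
  | orl _ i j _ _ _ _ hg h _ => exact absurd h.le (not_le.2 (D.or_lt g i j hg).1)
  | orr _ i j _ _ _ _ hg h _ => exact absurd h.le (not_le.2 (D.or_lt g i j hg).2)

open Classical in
/-- the variables which occur in the pieces of the type `p`: trees for the gate `p.1`, or, if `p.2`
is a gate, trees with a hole at this gate -/
noncomputable def vars [Fintype V] (D : Circuit V s) (p : Fin s × Option (Fin s)) : Finset V :=
  univ.filter fun e => match p.2 with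
    | none => ∃ L, Tree D p.1 L ∧ e ∈ L
    | some h => ∃ L R, Ctx D p.1 h L R ∧ (e ∈ L ∨ e ∈ R)

variable [Fintype V]

theorem mem_vars_none {D : Circuit V s} {g : Fin s} {e : V} :
    e ∈ vars D (g, none) ↔ ∃ L, Tree D g L ∧ e ∈ L := by
  simp [vars]

theorem mem_vars_some {D : Circuit V s} {g h : Fin s} {e : V} :
    e ∈ vars D (g, some h) ↔ ∃ L R, Ctx D g h L R ∧ (e ∈ L ∨ e ∈ R) := by
  simp [vars]

theorem vars_self (D : Circuit V s) (g : Fin s) : vars D (g, some g) = ∅ := by
  rw [eq_empty_iff_forall_notMem]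
  intro e he
  obtain ⟨L, R, h1, h2⟩ := mem_vars_some.1 he
  obtain ⟨rfl, rfl⟩ := h1.self
  simp at h2

/-- `Str D g P`: there is a tree for `g` which is composed of pieces of the types in the list `P`
and further parts -/
inductive Str (D : Circuit V s) : Fin s → List (Fin s × Option (Fin s)) → Prop
  | tree (g : Fin s) : (∃ L, Tree D g L) → Str D g [(g, none)]
  | ctx (g h : Fin s) (P : List (Fin s × Option (Fin s))) : (∃ L R, Ctx D g h L R) → Str D h P →
      Str D g ((g, some h) :: P)
  | skip (g h : Fin s) (P : List (Fin s × Option (Fin s))) : (∃ L R, Ctx D g h L R) → Str D h P →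
      Str D g P
  | both (g i j : Fin s) (P P' : List (Fin s × Option (Fin s))) : D.gate g = .or i j →
      Str D i P → Str D j P' → Str D g (P ++ P')

variable [DecidableEq V]

/-- the pieces can be exchanged independently -/
theorem Str.count {D : Circuit V s} {g : Fin s} {P : List (Fin s × Option (Fin s))}
    (h : Str D g P) (e : V) :
    ∃ L, Tree D g L ∧ P.countP (fun p => decide (e ∈ vars D p)) ≤ L.count e := by
  induction h with
  | tree g hL =>
    by_cases he : e ∈ vars D (g, none)
    · obtain ⟨L, h1, h2⟩ := mem_vars_none.1 he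
      refine ⟨L, h1, ?_⟩
      have h3 := List.count_pos_iff.2 h2
      refine le_trans ?_ h3
      exact List.countP_le_length
    · obtain ⟨L, hL⟩ := hL
      refine ⟨L, hL, ?_⟩
      simp [he]
  | ctx g h P hc _ ih =>
    obtain ⟨M, hM, hle⟩ := ih
    by_cases he : e ∈ vars D (g, some h)
    · obtain ⟨L, R, h1, h2⟩ := mem_vars_some.1 he
      refine ⟨_, h1.tree hM, ?_⟩
      have h3 : 1 ≤ L.count e + R.count e := by
        rcases h2 with h2 | h2
        · have := List.count_pos_iff.2 h2
          omega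
        · have := List.count_pos_iff.2 h2
          omega
      rw [List.countP_cons_of_pos (by simpa using he), List.count_append, List.count_append]
      omega
    · obtain ⟨L, R, h1⟩ := hc
      refine ⟨_, h1.tree hM, ?_⟩
      rw [List.countP_cons_of_neg (by simpa using he), List.count_append, List.count_append]
      omega
  | skip g h P hc _ ih =>
    obtain ⟨M, hM, hle⟩ := ih
    obtain ⟨L, R, h1⟩ := hc
    refine ⟨_, h1.tree hM, ?_⟩
    rw [List.count_append, List.count_append]
    omega
  | both g i j P P' hg _ _ ih ih' =>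
    obtain ⟨L, hL, h1⟩ := ih
    obtain ⟨L', hL', h2⟩ := ih'
    refine ⟨_, .both g i j L L' hg hL hL', ?_⟩
    rw [List.countP_append, List.count_append]
    omega

/-- the total size of the pieces -/
theorem Str.sum {D : Circuit V s} {g : Fin s} {P : List (Fin s × Option (Fin s))}
    (h : Str D g P) (E : Finset V) (m : ℕ) (hm : ∀ e ∈ E, ∀ L, Tree D g L → L.count e ≤ m) :
    (P.map fun p => (vars D p ∩ E).card).sum ≤ m * E.card := by
  have h1 : ∀ P : List (Fin s × Option (Fin s)), (P.map fun p => (vars D p ∩ E).card).sum =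
      ∑ e ∈ E, P.countP (fun p => decide (e ∈ vars D p)) := by
    intro P
    induction P with
    | nil => simp
    | cons p P ih =>
      rw [List.map_cons, List.sum_cons, ih, inter_comm, ← filter_mem_eq_inter, card_filter,
        ← sum_add_distrib]
      refine sum_congr rfl fun e _ => ?_
      rw [List.countP_cons]
      by_cases he : e ∈ vars D p <;> simp [he, add_comm]
  rw [h1, mul_comm, ← smul_eq_mul]
  refine sum_le_card_nsmul E _ m fun e he => ?_
  obtain ⟨L, hL, hle⟩ := h.count e
  exact hle.trans (hm e he L hL)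

/-- a closed part: the list `M` of the leaves of a tree for `h`, cut into lists each of which lies
in a small piece, and the big pieces -/
def Cl (D : Circuit V s) (E : Finset V) (τ : ℕ) (h : Fin s) (M : List V) : Prop :=
  ∃ (Ls : List (List V)) (P P' : List (Fin s × Option (Fin s))), Ls.flatten = M ∧ Str D h P ∧
    Str D h P' ∧ (∀ p ∈ P, (vars D p ∩ E).card ≤ τ) ∧ (∀ p ∈ P', τ < (vars D p ∩ E).card) ∧
    (∀ l ∈ Ls, ∃ p ∈ P, ∀ v ∈ l, v ∈ vars D p) ∧ Ls.length + 4 ≤ 8 * P'.length ∧
    P.length ≤ Ls.length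

/-- the state of a tree with the leaves `L` for the gate `g` -/
def Conc (D : Circuit V s) (E : Finset V) (τ : ℕ) (g : Fin s) (L : List V) : Prop :=
  (vars D (g, none) ∩ E).card ≤ τ ∨
    ∃ (h : Fin s) (L₁ M L₂ : List V), Ctx D g h L₁ L₂ ∧ (vars D (g, some h) ∩ E).card ≤ τ ∧
      L = L₁ ++ M ++ L₂ ∧ Cl D E τ h M

theorem Conc.of_cl {D : Circuit V s} {E : Finset V} {τ : ℕ} {g : Fin s} {L : List V}
    (h : Cl D E τ g L) : Conc D E τ g L := by
  refine Or.inr ⟨g, [], L, [], .refl g, ?_, by simp, h⟩
  rw [vars_self]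
  simp

theorem conc_and {D : Circuit V s} {E : Finset V} {τ : ℕ} {g i : Fin s} {L : List V}
    (hc : ∀ h L R, Ctx D i h L R → Ctx D g h L R) (hg : Tree D g L) (hi : Tree D i L)
    (ih : Conc D E τ i L) : Conc D E τ g L := by
  have hgi : ∃ L R, Ctx D g i L R := ⟨_, _, hc i _ _ (.refl i)⟩
  rcases ih with ih | ⟨h, L₁, M, L₂, c, hcard, rfl, Ls, P, P', h1, h2, h3, h4, h5, h6, h7, h8⟩
  · by_cases hb : (vars D (g, none) ∩ E).card ≤ τ
    · exact Or.inl hb
    · refine Conc.of_cl ⟨[L], [(i, none)], [(g, none)], by simp, .skip g i _ hgi (.tree i ⟨L, hi⟩),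
        .tree g ⟨L, hg⟩, ?_, ?_, ?_, by simp, by simp⟩
      · intro p hp
        rw [List.mem_singleton] at hp
        rw [hp]
        exact ih
      · intro p hp
        rw [List.mem_singleton] at hp
        rw [hp]
        exact not_le.1 hb
      · intro l hl
        rw [List.mem_singleton] at hl
        refine ⟨(i, none), by simp, fun v hv => mem_vars_none.2 ⟨L, hi, hl ▸ hv⟩⟩
  · by_cases hb : (vars D (g, some h) ∩ E).card ≤ τ
    · exact Or.inr ⟨h, L₁, M, L₂, hc _ _ _ c, hb, rfl, Ls, P, P', h1, h2, h3, h4, h5, h6, h7, h8⟩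
    · refine Conc.of_cl ⟨L₁ :: Ls ++ [L₂], (i, some h) :: P, (g, some h) :: P', ?_,
        .skip g i _ hgi (.ctx i h P ⟨_, _, c⟩ h2), .ctx g h P' ⟨_, _, hc _ _ _ c⟩ h3, ?_, ?_, ?_,
        ?_, ?_⟩
      · simp [h1, List.append_assoc]
      · intro p hp
        rcases List.mem_cons.1 hp with rfl | hp
        · exact hcard
        · exact h4 p hp
      · intro p hp
        rcases List.mem_cons.1 hp with rfl | hp
        · exact not_le.1 hb
        · exact h5 p hp
      · intro l hl
        rw [List.cons_append, List.mem_cons, List.mem_append, List.mem_singleton] at hl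
        rcases hl with rfl | hl | rfl
        · exact ⟨(i, some h), by simp, fun v hv => mem_vars_some.2 ⟨_, _, c, Or.inl hv⟩⟩
        · obtain ⟨p, hp, hl⟩ := h6 l hl
          exact ⟨p, List.mem_cons_of_mem _ hp, hl⟩
        · exact ⟨(i, some h), by simp, fun v hv => mem_vars_some.2 ⟨_, _, c, Or.inr hv⟩⟩
      · simp only [List.length_cons, List.length_append, List.length_nil]
        omega
      · simp only [List.length_cons, List.length_append, List.length_nil]
        omega

/-- a closed part at an OR gate whose children are small trees -/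
private theorem conc_or1 {D : Circuit V s} {E : Finset V} {τ : ℕ} {g i j : Fin s} {L L' : List V}
    (hg : D.gate g = .or i j) (hi : Tree D i L) (hj : Tree D j L')
    (ih : (vars D (i, none) ∩ E).card ≤ τ) (ih' : (vars D (j, none) ∩ E).card ≤ τ) :
    Conc D E τ g (L ++ L') := by
  by_cases hb : (vars D (g, none) ∩ E).card ≤ τ
  · exact Or.inl hb
  refine Conc.of_cl ⟨[L, L'], [(i, none)] ++ [(j, none)], [(g, none)], by simp,
    .both g i j _ _ hg (.tree i ⟨L, hi⟩) (.tree j ⟨L', hj⟩), .tree g ⟨_, .both g i j L L' hg hi hj⟩,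
    ?_, ?_, ?_, by simp, by simp⟩
  · intro p hp
    simp only [List.cons_append, List.nil_append, List.mem_cons, List.not_mem_nil, or_false] at hp
    rcases hp with rfl | rfl
    · exact ih
    · exact ih'
  · intro p hp
    rw [List.mem_singleton] at hp
    rw [hp]
    exact not_le.1 hb
  · intro l hl
    simp only [List.mem_cons, List.not_mem_nil, or_false] at hl
    rcases hl with rfl | rfl
    · exact ⟨(i, none), by simp, fun v hv => mem_vars_none.2 ⟨_, hi, hv⟩⟩
    · exact ⟨(j, none), by simp, fun v hv => mem_vars_none.2 ⟨_, hj, hv⟩⟩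

private theorem conc_or2 {D : Circuit V s} {E : Finset V} {τ : ℕ} {g i j : Fin s}
    {L₁ M L₂ L' : List V} {h : Fin s} (hg : D.gate g = .or i j) (hj : Tree D j L')
    (c : Ctx D i h L₁ L₂) (hcard : (vars D (i, some h) ∩ E).card ≤ τ) (hcl : Cl D E τ h M)
    (ih' : (vars D (j, none) ∩ E).card ≤ τ) : Conc D E τ g (L₁ ++ M ++ L₂ ++ L') := by
  obtain ⟨Ls, P, P', h1, h2, h3, h4, h5, h6, h7, h8⟩ := hcl
  have cg : Ctx D g h L₁ (L₂ ++ L') := .orl g i j h L₁ L₂ L' hg c hj
  by_cases hb : (vars D (g, some h) ∩ E).card ≤ τ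
  · exact Or.inr ⟨h, L₁, M, L₂ ++ L', cg, hb, by simp [List.append_assoc], Ls, P, P', h1, h2, h3,
      h4, h5, h6, h7, h8⟩
  refine Conc.of_cl ⟨(L₁ :: Ls ++ [L₂]) ++ [L'], ((i, some h) :: P) ++ [(j, none)],
    (g, some h) :: P', ?_, .both g i j _ _ hg (.ctx i h P ⟨_, _, c⟩ h2) (.tree j ⟨L', hj⟩),
    .ctx g h P' ⟨_, _, cg⟩ h3, ?_, ?_, ?_, ?_, ?_⟩
  · simp [h1, List.append_assoc]
  · intro p hp
    rw [List.mem_append, List.mem_cons, List.mem_singleton] at hp
    rcases hp with (rfl | hp) | rfl
    · exact hcard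
    · exact h4 p hp
    · exact ih'
  · intro p hp
    rcases List.mem_cons.1 hp with rfl | hp
    · exact not_le.1 hb
    · exact h5 p hp
  · intro l hl
    rw [List.mem_append, List.cons_append, List.mem_cons, List.mem_append, List.mem_singleton,
      List.mem_singleton] at hl
    rcases hl with (rfl | hl | rfl) | rfl
    · exact ⟨(i, some h), by simp, fun v hv => mem_vars_some.2 ⟨_, _, c, Or.inl hv⟩⟩
    · obtain ⟨p, hp, hl⟩ := h6 l hl
      exact ⟨p, List.mem_append_left _ (List.mem_cons_of_mem _ hp), hl⟩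
    · exact ⟨(i, some h), by simp, fun v hv => mem_vars_some.2 ⟨_, _, c, Or.inr hv⟩⟩
    · exact ⟨(j, none), by simp, fun v hv => mem_vars_none.2 ⟨_, hj, hv⟩⟩
  · simp only [List.length_cons, List.length_append, List.length_nil]
    omega
  · simp only [List.length_cons, List.length_append, List.length_nil]
    omega

private theorem conc_or3 {D : Circuit V s} {E : Finset V} {τ : ℕ} {g i j : Fin s}
    {R₁ M R₂ L : List V} {h : Fin s} (hg : D.gate g = .or i j) (hi : Tree D i L)
    (ih : (vars D (i, none) ∩ E).card ≤ τ) (c : Ctx D j h R₁ R₂)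
    (hcard : (vars D (j, some h) ∩ E).card ≤ τ) (hcl : Cl D E τ h M) :
    Conc D E τ g (L ++ (R₁ ++ M ++ R₂)) := by
  obtain ⟨Ls, P, P', h1, h2, h3, h4, h5, h6, h7, h8⟩ := hcl
  have cg : Ctx D g h (L ++ R₁) R₂ := .orr g i j h R₁ R₂ L hg c hi
  by_cases hb : (vars D (g, some h) ∩ E).card ≤ τ
  · exact Or.inr ⟨h, L ++ R₁, M, R₂, cg, hb, by simp [List.append_assoc], Ls, P, P', h1, h2, h3,
      h4, h5, h6, h7, h8⟩
  refine Conc.of_cl ⟨[L] ++ (R₁ :: Ls ++ [R₂]), [(i, none)] ++ ((j, some h) :: P),
    (g, some h) :: P', ?_, .both g i j _ _ hg (.tree i ⟨L, hi⟩) (.ctx j h P ⟨_, _, c⟩ h2),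
    .ctx g h P' ⟨_, _, cg⟩ h3, ?_, ?_, ?_, ?_, ?_⟩
  · simp [h1, List.append_assoc]
  · intro p hp
    rw [List.mem_append, List.mem_singleton, List.mem_cons] at hp
    rcases hp with rfl | rfl | hp
    · exact ih
    · exact hcard
    · exact h4 p hp
  · intro p hp
    rcases List.mem_cons.1 hp with rfl | hp
    · exact not_le.1 hb
    · exact h5 p hp
  · intro l hl
    rw [List.mem_append, List.mem_singleton, List.cons_append, List.mem_cons, List.mem_append,
      List.mem_singleton] at hl
    rcases hl with rfl | rfl | hl | rfl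
    · exact ⟨(i, none), by simp, fun v hv => mem_vars_none.2 ⟨_, hi, hv⟩⟩
    · exact ⟨(j, some h), by simp, fun v hv => mem_vars_some.2 ⟨_, _, c, Or.inl hv⟩⟩
    · obtain ⟨p, hp, hl⟩ := h6 l hl
      exact ⟨p, List.mem_append_right _ (List.mem_cons_of_mem _ hp), hl⟩
    · exact ⟨(j, some h), by simp, fun v hv => mem_vars_some.2 ⟨_, _, c, Or.inr hv⟩⟩
  · simp only [List.length_cons, List.length_append, List.length_nil]
    omega
  · simp only [List.length_cons, List.length_append, List.length_nil]
    omega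

private theorem conc_or4 {D : Circuit V s} {E : Finset V} {τ : ℕ} {g i j : Fin s}
    {L₁ M L₂ R₁ M' R₂ : List V} {h h' : Fin s} (hg : D.gate g = .or i j)
    (c : Ctx D i h L₁ L₂) (hcard : (vars D (i, some h) ∩ E).card ≤ τ) (hcl : Cl D E τ h M)
    (c' : Ctx D j h' R₁ R₂) (hcard' : (vars D (j, some h') ∩ E).card ≤ τ)
    (hcl' : Cl D E τ h' M') :
    Conc D E τ g (L₁ ++ M ++ L₂ ++ (R₁ ++ M' ++ R₂)) := by
  obtain ⟨Ls, P, P', h1, h2, h3, h4, h5, h6, h7, h8⟩ := hcl
  obtain ⟨Ls', Q, Q', k1, k2, k3, k4, k5, k6, k7, k8⟩ := hcl'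
  refine Conc.of_cl ⟨(L₁ :: Ls ++ [L₂]) ++ (R₁ :: Ls' ++ [R₂]),
    ((i, some h) :: P) ++ ((j, some h') :: Q), P' ++ Q', ?_,
    .both g i j _ _ hg (.ctx i h P ⟨_, _, c⟩ h2) (.ctx j h' Q ⟨_, _, c'⟩ k2),
    .both g i j _ _ hg (.skip i h P' ⟨_, _, c⟩ h3) (.skip j h' Q' ⟨_, _, c'⟩ k3),
    ?_, ?_, ?_, ?_, ?_⟩
  · simp [h1, k1, List.append_assoc]
  · intro p hp
    rw [List.mem_append, List.mem_cons, List.mem_cons] at hp
    rcases hp with (rfl | hp) | rfl | hp
    · exact hcard
    · exact h4 p hp
    · exact hcard'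
    · exact k4 p hp
  · intro p hp
    rcases List.mem_append.1 hp with hp | hp
    · exact h5 p hp
    · exact k5 p hp
  · intro l hl
    rw [List.mem_append, List.cons_append, List.cons_append, List.mem_cons, List.mem_cons,
      List.mem_append, List.mem_append, List.mem_singleton, List.mem_singleton] at hl
    rcases hl with (rfl | hl | rfl) | rfl | hl | rfl
    · exact ⟨(i, some h), by simp, fun v hv => mem_vars_some.2 ⟨_, _, c, Or.inl hv⟩⟩
    · obtain ⟨p, hp, hl⟩ := h6 l hl
      exact ⟨p, List.mem_append_left _ (List.mem_cons_of_mem _ hp), hl⟩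
    · exact ⟨(i, some h), by simp, fun v hv => mem_vars_some.2 ⟨_, _, c, Or.inr hv⟩⟩
    · exact ⟨(j, some h'), by simp, fun v hv => mem_vars_some.2 ⟨_, _, c', Or.inl hv⟩⟩
    · obtain ⟨p, hp, hl⟩ := k6 l hl
      exact ⟨p, List.mem_append_right _ (List.mem_cons_of_mem _ hp), hl⟩
    · exact ⟨(j, some h'), by simp, fun v hv => mem_vars_some.2 ⟨_, _, c', Or.inr hv⟩⟩
  · simp only [List.length_cons, List.length_append, List.length_nil]
    omega
  · simp only [List.length_cons, List.length_append, List.length_nil]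
    omega

/-- every tree is a small piece, or a small piece with a hole for a closed part -/
theorem dec {D : Circuit V s} (E : Finset V) {τ : ℕ} (hτ : 1 ≤ τ) {g : Fin s} {L : List V}
    (hL : Tree D g L) : Conc D E τ g L := by
  induction hL with
  | lit g v b hg =>
    left
    have h1 : vars D (g, none) ⊆ {v} := by
      intro e he
      obtain ⟨L, h1, h2⟩ := mem_vars_none.1 he
      cases h1 with
      | lit _ v' b' hg' =>
        rw [hg] at hg'
        cases hg'
        simpa using h2
      | left _ i j _ hg' _ => rw [hg] at hg'; cases hg'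
      | right _ i j _ hg' _ => rw [hg] at hg'; cases hg'
      | both _ i j L L' hg' _ _ => rw [hg] at hg'; cases hg'
    calc (vars D (g, none) ∩ E).card ≤ ({v} : Finset V).card :=
          card_le_card (inter_subset_left.trans h1)
      _ = 1 := card_singleton v
      _ ≤ τ := hτ
  | left g i j L hg hT ih =>
    exact conc_and (fun h L R c => .left g i j h L R hg c) (.left g i j L hg hT) hT ih
  | right g i j L hg hT ih =>
    exact conc_and (fun h L R c => .right g i j h L R hg c) (.right g i j L hg hT) hT ih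
  | both g i j L L' hg hT hT' ih ih' =>
    rcases ih with ih | ⟨h, L₁, M, L₂, c, hcard, rfl, hcl⟩
    · rcases ih' with ih' | ⟨h', R₁, M', R₂, c', hcard', rfl, hcl'⟩
      · exact conc_or1 hg hT hT' ih ih'
      · exact conc_or3 hg hT ih c' hcard' hcl'
    · rcases ih' with ih' | ⟨h', R₁, M', R₂, c', hcard', rfl, hcl'⟩
      · exact conc_or2 hg hT' c hcard hcl ih'
      · exact conc_or4 hg c hcard hcl c' hcard' hcl'

/-- the decomposition: a tree whose gates read no variable of `E` more than `m` times is cut into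
at most `R` lists each of which lies in one of at most `R` pieces, and these pieces contain
at most `τ` elements of `E` each and at most `m * E.card` altogether -/
theorem decomp {D : Circuit V s} (E : Finset V) {m τ R : ℕ} (hτ : 1 ≤ τ) {g : Fin s}
    (hm : ∀ e ∈ E, ∀ L, Tree D g L → L.count e ≤ m) (hR : 8 * (m * E.card) ≤ R * (τ + 1))
    (hR1 : 1 ≤ R) {L : List V} (hL : Tree D g L) :
    ∃ (Ls : List (List V)) (P : List (Fin s × Option (Fin s))), Ls.flatten = L ∧
      Ls.length ≤ R ∧ P.length ≤ R ∧ (∀ l ∈ Ls, ∃ p ∈ P, ∀ v ∈ l, v ∈ vars D p) ∧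
      (∀ p ∈ P, (vars D p ∩ E).card ≤ τ) ∧
      (P.map fun p => (vars D p ∩ E).card).sum ≤ m * E.card := by
  rcases dec E hτ hL with h | ⟨h, L₁, M, L₂, c, hcard, rfl, Ls, P, P', h1, h2, h3, h4, h5, h6, h7,
    h8⟩
  · refine ⟨[L], [(g, none)], by simp, by simpa using hR1, by simpa using hR1, ?_, ?_,
      (Str.tree g ⟨L, hL⟩).sum E m hm⟩
    · intro l hl
      rw [List.mem_singleton] at hl
      exact ⟨(g, none), by simp, fun v hv => mem_vars_none.2 ⟨L, hL, hl ▸ hv⟩⟩
    · intro p hp
      rw [List.mem_singleton] at hp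
      rw [hp]
      exact h
  · have hs : ∀ P : List (Fin s × Option (Fin s)), (∀ p ∈ P, τ < (vars D p ∩ E).card) →
        P.length * (τ + 1) ≤ (P.map fun p => (vars D p ∩ E).card).sum := by
      intro P hP
      induction P with
      | nil => simp
      | cons p P ih =>
        rw [List.map_cons, List.sum_cons, List.length_cons, add_mul, one_mul, add_comm]
        exact add_le_add (hP p (by simp)) (ih fun q hq => hP q (by simp [hq]))
    have h9 : P'.length * (τ + 1) ≤ m * E.card :=
      (hs P' h5).trans ((Str.skip g h P' ⟨_, _, c⟩ h3).sum E m hm)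
    have h10 : 8 * P'.length ≤ R := by
      have : 8 * P'.length * (τ + 1) ≤ R * (τ + 1) := by
        calc 8 * P'.length * (τ + 1) = 8 * (P'.length * (τ + 1)) := by ring
          _ ≤ 8 * (m * E.card) := Nat.mul_le_mul_left _ h9
          _ ≤ R * (τ + 1) := hR
      exact Nat.le_of_mul_le_mul_right this (Nat.succ_pos τ)
    refine ⟨L₁ :: Ls ++ [L₂], (g, some h) :: P, ?_, ?_, ?_, ?_, ?_,
      (Str.ctx g h P ⟨_, _, c⟩ h2).sum E m hm⟩
    · simp [h1, List.append_assoc]
    · simp only [List.length_cons, List.length_append, List.length_nil]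
      omega
    · simp only [List.length_cons]
      omega
    · intro l hl
      rw [List.cons_append, List.mem_cons, List.mem_append, List.mem_singleton] at hl
      rcases hl with rfl | hl | rfl
      · exact ⟨(g, some h), by simp, fun v hv => mem_vars_some.2 ⟨_, _, c, Or.inl hv⟩⟩
      · obtain ⟨p, hp, hl⟩ := h6 l hl
        exact ⟨p, List.mem_cons_of_mem _ hp, hl⟩
      · exact ⟨(g, some h), by simp, fun v hv => mem_vars_some.2 ⟨_, _, c, Or.inr hv⟩⟩
    · intro p hp
      rcases List.mem_cons.1 hp with rfl | hp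
      · exact hcard
      · exact h4 p hp

end

end Pool.Agent.RT
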