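import Mathlib
import Pool.Agent.Lib.MP_0a1b52_lc_RT.Defs

/-!
# How often a circuit reads its variables, module Rej: rejected inputs have refutation trees
-/

set_option autoImplicit false

namespace Pool.Agent.RT

open Pool.Agent.FP

theorem rejects {V : Type} {s : ℕ} (D : Circuit V s) (x : V → Bool) (h : ¬ D.Accepts x) :
    ∃ L, D.Refutes x D.out L := by
  classical
  by_contra hne
  refine h ⟨fun g => decide (¬ ∃ L, D.Refutes x g L), ?_, by simpa using hne⟩
  intro g
  cases hg : D.gate g with
  | lit v b =>
    have h1 : (∃ L, D.Refutes x g L) ↔ x v ≠ b := by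
      constructor
      · rintro ⟨L, hL⟩
        cases hL with
        | lit _ v' b' hg' hx =>
          rw [hg] at hg'
          cases hg'
          exact hx
        | left _ i j _ hg' _ => rw [hg] at hg'; cases hg'
        | right _ i j _ hg' _ => rw [hg] at hg'; cases hg'
        | both _ i j _ _ hg' _ _ => rw [hg] at hg'; cases hg'
      · intro hx
        exact ⟨_, .lit g v b hg hx⟩
    simp only [h1, ne_eq, not_not]
    by_cases hx : x v = b <;> simp [hx]
  | and i j =>
    have h1 : (∃ L, D.Refutes x g L) ↔ (∃ L, D.Refutes x i L) ∨ ∃ L, D.Refutes x j L := by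
      constructor
      · rintro ⟨L, hL⟩
        cases hL with
        | lit _ v' b' hg' hx => rw [hg] at hg'; cases hg'
        | left _ i' j' _ hg' h' =>
          rw [hg] at hg'
          cases hg'
          exact Or.inl ⟨_, h'⟩
        | right _ i' j' _ hg' h' =>
          rw [hg] at hg'
          cases hg'
          exact Or.inr ⟨_, h'⟩
        | both _ i j _ _ hg' _ _ => rw [hg] at hg'; cases hg'
      · rintro (⟨L, hL⟩ | ⟨L, hL⟩)
        · exact ⟨L, .left g i j L hg hL⟩
        · exact ⟨L, .right g i j L hg hL⟩
    simp only [h1]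
    by_cases h2 : ∃ L, D.Refutes x i L <;> by_cases h3 : ∃ L, D.Refutes x j L <;> simp [h2, h3]
  | or i j =>
    have h1 : (∃ L, D.Refutes x g L) ↔ (∃ L, D.Refutes x i L) ∧ ∃ L, D.Refutes x j L := by
      constructor
      · rintro ⟨L, hL⟩
        cases hL with
        | lit _ v' b' hg' hx => rw [hg] at hg'; cases hg'
        | left _ i' j' _ hg' h' => rw [hg] at hg'; cases hg'
        | right _ i' j' _ hg' h' => rw [hg] at hg'; cases hg'
        | both _ i' j' _ _ hg' h' h'' =>
          rw [hg] at hg'
          cases hg'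
          exact ⟨⟨_, h'⟩, ⟨_, h''⟩⟩
      · rintro ⟨⟨L, hL⟩, ⟨L', hL'⟩⟩
        exact ⟨_, .both g i j L L' hg hL hL'⟩
    simp only [h1]
    by_cases h2 : ∃ L, D.Refutes x i L <;> by_cases h3 : ∃ L, D.Refutes x j L <;> simp [h2, h3]

theorem tree_of_refutes {V : Type} {s : ℕ} {D : Circuit V s} {x : V → Bool} {g : Fin s}
    {L : List V} (h : D.Refutes x g L) : Tree D g L := by
  induction h with
  | lit g v b h1 _ => exact .lit g v b h1
  | left g i j L h1 _ ih => exact .left g i j L h1 ih
  | right g i j L h1 _ ih => exact .right g i j L h1 ih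
  | both g i j L L' h1 _ _ ih ih' => exact .both g i j L L' h1 ih ih'

end Pool.Agent.RT
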