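import Mathlib
import Pool.Agent.Lib.MP_0a1b52_lc_RT.Dec
import Pool.Agent.Lib.MP_0a1b52_lc_RT.Rej
import Pool.Agent.Lib.MP_0a1b52_lc_RK.Pieces

/-!
# How often a circuit reads its variables, module Cut: refutation trees with few cuts
-/

set_option autoImplicit false

namespace Pool.Agent.RT

open Pool.Agent.FP Pool.Agent.RK Finset

section

variable {V : Type} {s : ℕ}

/-- like `Ctx`, the hanging trees refute their gates on `x` -/
inductive RCtx (D : Circuit V s) (x : V → Bool) : Fin s → Fin s → List V → List V → Prop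
  | refl (g : Fin s) : RCtx D x g g [] []
  | left (g i j h : Fin s) (L R : List V) : D.gate g = .and i j → RCtx D x i h L R →
      RCtx D x g h L R
  | right (g i j h : Fin s) (L R : List V) : D.gate g = .and i j → RCtx D x j h L R →
      RCtx D x g h L R
  | orl (g i j h : Fin s) (L R M : List V) : D.gate g = .or i j → RCtx D x i h L R →
      D.Refutes x j M → RCtx D x g h L (R ++ M)
  | orr (g i j h : Fin s) (L R M : List V) : D.gate g = .or i j → RCtx D x j h L R →
      D.Refutes x i M → RCtx D x g h (M ++ L) R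

theorem RCtx.ctx {D : Circuit V s} {x : V → Bool} {g h : Fin s} {L R : List V}
    (hc : RCtx D x g h L R) : Ctx D g h L R := by
  induction hc with
  | refl g => exact .refl g
  | left g i j h L R hg _ ih => exact .left g i j h L R hg ih
  | right g i j h L R hg _ ih => exact .right g i j h L R hg ih
  | orl g i j h L R M hg _ hT ih => exact .orl g i j h L R M hg ih (tree_of_refutes hT)
  | orr g i j h L R M hg _ hT ih => exact .orr g i j h L R M hg ih (tree_of_refutes hT)

theorem cuts_of_refutes {D : Circuit V s} {x : V → Bool} {K : ℕ} (X : Fin K → Finset V)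
    (k : Fin K) {g : Fin s} {L : List V} (h : D.Refutes x g L) (hL : ∀ v ∈ L, v ∉ X k) :
    Cuts D x X k g 0 := by
  induction h with
  | lit g v b h1 h2 => exact .lit k g v b h1 h2 (hL v (by simp))
  | left g i j L h1 _ ih => exact .left k g i j 0 h1 (ih hL)
  | right g i j L h1 _ ih => exact .right k g i j 0 h1 (ih hL)
  | both g i j L L' h1 _ _ ih ih' =>
    exact .both k g i j 0 0 h1 (ih fun v hv => hL v (List.mem_append_left _ hv))
      (ih' fun v hv => hL v (List.mem_append_right _ hv))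

theorem RCtx.cuts {D : Circuit V s} {x : V → Bool} {K : ℕ} (X : Fin K → Finset V) (k : Fin K)
    {c : ℕ} {g h : Fin s} {L R : List V} (hc : RCtx D x g h L R) (hL : ∀ v ∈ L, v ∉ X k)
    (hR : ∀ v ∈ R, v ∉ X k) (hh : Cuts D x X k h c) : Cuts D x X k g c := by
  induction hc with
  | refl g => exact hh
  | left g i j h L R hg _ ih => exact .left k g i j c hg (ih hL hR hh)
  | right g i j h L R hg _ ih => exact .right k g i j c hg (ih hL hR hh)
  | orl g i j h L R M hg _ hT ih =>
    exact .both k g i j c 0 hg (ih hL (fun v hv => hR v (List.mem_append_left _ hv)) hh)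
      (cuts_of_refutes X k hT fun v hv => hR v (List.mem_append_right _ hv))
  | orr g i j h L R M hg _ hT ih =>
    have := Cuts.both k g i j 0 c hg
      (cuts_of_refutes X k hT fun v hv => hL v (List.mem_append_left _ hv))
      (ih (fun v hv => hL v (List.mem_append_right _ hv)) hR hh)
    rwa [zero_add] at this

theorem cuts_pad {D : Circuit V s} {x : V → Bool} {K : ℕ} {X : Fin K → Finset V} {k : Fin K}
    {g : Fin s} {c : ℕ} (h : Cuts D x X k g c) : ∀ R, c ≤ R → Cuts D x X k g R := by
  intro R hR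
  induction R, hR using Nat.le_induction with
  | base => exact h
  | succ R _ ih => exact .cut k k g R ih

variable [Fintype V]

/-- the pieces in `P` avoid the sets of their classes -/
def Av {K : ℕ} (D : Circuit V s) (P : List (Fin s × Option (Fin s))) (X : Fin K → Finset V)
    (κ : Fin s × Option (Fin s) → Fin K) : Prop :=
  ∀ p ∈ P, ∀ v ∈ vars D p, v ∉ X (κ p)

private theorem av_cons {K : ℕ} {D : Circuit V s} {p : Fin s × Option (Fin s)}
    {P : List (Fin s × Option (Fin s))} {X : Fin K → Finset V}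
    {κ : Fin s × Option (Fin s) → Fin K} (h : Av D (p :: P) X κ) :
    (∀ v ∈ vars D p, v ∉ X (κ p)) ∧ Av D P X κ :=
  ⟨h p List.mem_cons_self, fun q hq => h q (List.mem_cons_of_mem _ hq)⟩

private theorem av_append {K : ℕ} {D : Circuit V s}
    {P Q : List (Fin s × Option (Fin s))} {X : Fin K → Finset V}
    {κ : Fin s × Option (Fin s) → Fin K} (h : Av D (P ++ Q) X κ) : Av D P X κ ∧ Av D Q X κ :=
  ⟨fun q hq => h q (List.mem_append_left _ hq), fun q hq => h q (List.mem_append_right _ hq)⟩

private theorem cuts_tree {K : ℕ} {D : Circuit V s} {x : V → Bool} {X : Fin K → Finset V}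
    {i : Fin s} {L : List V} (hi : D.Refutes x i L) {k l : Fin K}
    (h : ∀ v ∈ vars D (i, none), v ∉ X l) : Cuts D x X k i 1 :=
  .cut k l i 0 (cuts_of_refutes X l hi fun v hv =>
    h v (mem_vars_none.2 ⟨L, tree_of_refutes hi, hv⟩))

private theorem cuts_ctx {K : ℕ} {D : Circuit V s} {x : V → Bool} {X : Fin K → Finset V}
    {i h : Fin s} {L R : List V} (c : RCtx D x i h L R) {k l : Fin K} {m : ℕ}
    (hv : ∀ v ∈ vars D (i, some h), v ∉ X l) (hm : Cuts D x X l h m) : Cuts D x X k i (m + 1) :=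
  .cut k l i m (c.cuts X l (fun v hv' => hv v (mem_vars_some.2 ⟨L, R, c.ctx, Or.inl hv'⟩))
    (fun v hv' => hv v (mem_vars_some.2 ⟨L, R, c.ctx, Or.inr hv'⟩)) hm)

variable [DecidableEq V]

/-- a closed part: a refutation of the gate `h` with `c` cuts, the small pieces and the big
pieces -/
def ClC (D : Circuit V s) (x : V → Bool) (E : Finset V) (τ : ℕ) (h : Fin s) : Prop :=
  ∃ (c : ℕ) (P P' : List (Fin s × Option (Fin s))), Str D h P ∧
    Str D h P' ∧ (∀ p ∈ P, (vars D p ∩ E).card ≤ τ) ∧ (∀ p ∈ P', τ < (vars D p ∩ E).card) ∧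
    (∀ (K : ℕ) (X : Fin K → Finset V) (κ : Fin s × Option (Fin s) → Fin K), Av D P X κ →
      ∀ k, Cuts D x X k h c) ∧ c + 2 ≤ 4 * P'.length ∧ P.length + 2 ≤ 4 * P'.length

/-- the state of a refutation tree with the leaves `L` for the gate `g` -/
def ConC (D : Circuit V s) (x : V → Bool) (E : Finset V) (τ : ℕ) (g : Fin s) : Prop :=
  (vars D (g, none) ∩ E).card ≤ τ ∨
    ∃ (h : Fin s) (L₁ L₂ : List V), RCtx D x g h L₁ L₂ ∧ (vars D (g, some h) ∩ E).card ≤ τ ∧
      ClC D x E τ h

theorem ConC.of_cl {D : Circuit V s} {x : V → Bool} {E : Finset V} {τ : ℕ} {g : Fin s}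
    (h : ClC D x E τ g) : ConC D x E τ g := by
  refine Or.inr ⟨g, [], [], .refl g, ?_, h⟩
  rw [vars_self]
  simp

private theorem mem_one {p q : Fin s × Option (Fin s)} (h : p ∈ [q]) : p = q :=
  List.mem_singleton.1 h

theorem conc_andC {D : Circuit V s} {x : V → Bool} {E : Finset V} {τ : ℕ} {g i : Fin s}
    {L : List V} (hc : ∀ h L R, RCtx D x i h L R → RCtx D x g h L R)
    (hg : D.Refutes x g L) (hi : D.Refutes x i L)
    (hcut : ∀ (K : ℕ) (X : Fin K → Finset V) (k : Fin K) (c : ℕ), Cuts D x X k i c →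
      Cuts D x X k g c) (ih : ConC D x E τ i) : ConC D x E τ g := by
  have hgi : ∃ L R, Ctx D g i L R := ⟨_, _, (hc i _ _ (.refl i)).ctx⟩
  rcases ih with ih | ⟨h, L₁, L₂, c, hcard, m, P, P', h2, h3, h4, h5, h6, h7, h8⟩
  · by_cases hb : (vars D (g, none) ∩ E).card ≤ τ
    · exact Or.inl hb
    · refine ConC.of_cl ⟨1, [(i, none)], [(g, none)],
        .skip g i _ hgi (.tree i ⟨L, tree_of_refutes hi⟩), .tree g ⟨L, tree_of_refutes hg⟩,
        fun p hp => mem_one hp ▸ ih, fun p hp => mem_one hp ▸ not_le.1 hb, ?_, by simp, by simp⟩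
      intro K X κ hav k
      exact hcut K X k 1 (cuts_tree hi (av_cons hav).1)
  · by_cases hb : (vars D (g, some h) ∩ E).card ≤ τ
    · exact Or.inr ⟨h, L₁, L₂, hc _ _ _ c, hb, m, P, P', h2, h3, h4, h5, h6, h7, h8⟩
    · refine ConC.of_cl ⟨m + 1, (i, some h) :: P, (g, some h) :: P',
        .skip g i _ hgi (.ctx i h P ⟨_, _, c.ctx⟩ h2), .ctx g h P' ⟨_, _, (hc _ _ _ c).ctx⟩ h3,
        ?_, ?_, ?_, ?_, ?_⟩
      · intro p hp
        rcases List.mem_cons.1 hp with rfl | hp
        · exact hcard
        · exact h4 p hp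
      · intro p hp
        rcases List.mem_cons.1 hp with rfl | hp
        · exact not_le.1 hb
        · exact h5 p hp
      · intro K X κ hav k
        have h9 := av_cons hav
        exact hcut K X k _ (cuts_ctx c h9.1 (h6 K X κ h9.2 _))
      · simp only [List.length_cons]
        omega
      · simp only [List.length_cons]
        omega

private theorem conc_or1C {D : Circuit V s} {x : V → Bool} {E : Finset V} {τ : ℕ}
    {g i j : Fin s} {L L' : List V} (hg : D.gate g = .or i j) (hi : D.Refutes x i L)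
    (hj : D.Refutes x j L') (ih : (vars D (i, none) ∩ E).card ≤ τ)
    (ih' : (vars D (j, none) ∩ E).card ≤ τ) : ConC D x E τ g := by
  by_cases hb : (vars D (g, none) ∩ E).card ≤ τ
  · exact Or.inl hb
  refine ConC.of_cl ⟨1 + 1, [(i, none)] ++ [(j, none)], [(g, none)],
    .both g i j _ _ hg (.tree i ⟨L, tree_of_refutes hi⟩) (.tree j ⟨L', tree_of_refutes hj⟩),
    .tree g ⟨_, tree_of_refutes (.both g i j L L' hg hi hj)⟩,
    ?_, fun p hp => mem_one hp ▸ not_le.1 hb, ?_, by simp, by simp⟩
  · intro p hp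
    rcases List.mem_append.1 hp with hp | hp
    · exact mem_one hp ▸ ih
    · exact mem_one hp ▸ ih'
  · intro K X κ hav k
    obtain ⟨h1, h2⟩ := av_append hav
    exact .both k g i j 1 1 hg (cuts_tree hi (av_cons h1).1) (cuts_tree hj (av_cons h2).1)

private theorem conc_or2C {D : Circuit V s} {x : V → Bool} {E : Finset V} {τ : ℕ}
    {g i j : Fin s} {L₁ L₂ L' : List V} {h : Fin s} (hg : D.gate g = .or i j)
    (hj : D.Refutes x j L') (c : RCtx D x i h L₁ L₂) (hcard : (vars D (i, some h) ∩ E).card ≤ τ)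
    (hcl : ClC D x E τ h) (ih' : (vars D (j, none) ∩ E).card ≤ τ) : ConC D x E τ g := by
  obtain ⟨m, P, P', h2, h3, h4, h5, h6, h7, h8⟩ := hcl
  have cg : RCtx D x g h L₁ (L₂ ++ L') := .orl g i j h L₁ L₂ L' hg c hj
  by_cases hb : (vars D (g, some h) ∩ E).card ≤ τ
  · exact Or.inr ⟨h, L₁, L₂ ++ L', cg, hb, m, P, P', h2, h3, h4, h5, h6, h7, h8⟩
  refine ConC.of_cl ⟨(m + 1) + 1, ((i, some h) :: P) ++ [(j, none)],
    (g, some h) :: P', .both g i j _ _ hg (.ctx i h P ⟨_, _, c.ctx⟩ h2)
      (.tree j ⟨L', tree_of_refutes hj⟩),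
    .ctx g h P' ⟨_, _, cg.ctx⟩ h3, ?_, ?_, ?_, ?_, ?_⟩
  · intro p hp
    rw [List.mem_append, List.mem_cons, List.mem_singleton] at hp
    rcases hp with (rfl | hp) | rfl
    · exact hcard
    · exact h4 p hp
    · exact ih'
  · intro p hp
    rcases List.mem_cons.1 hp with rfl | hp
    · exact not_le.1 hb
    · exact h5 p hp
  · intro K X κ hav k
    obtain ⟨k1, k2⟩ := av_append hav
    have h9 := av_cons k1
    exact .both k g i j _ 1 hg (cuts_ctx c h9.1 (h6 K X κ h9.2 _)) (cuts_tree hj (av_cons k2).1)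
  · simp only [List.length_cons]
    omega
  · simp only [List.length_cons, List.length_append, List.length_nil]
    omega

private theorem conc_or3C {D : Circuit V s} {x : V → Bool} {E : Finset V} {τ : ℕ}
    {g i j : Fin s} {R₁ R₂ L : List V} {h : Fin s} (hg : D.gate g = .or i j)
    (hi : D.Refutes x i L) (ih : (vars D (i, none) ∩ E).card ≤ τ) (c : RCtx D x j h R₁ R₂)
    (hcard : (vars D (j, some h) ∩ E).card ≤ τ) (hcl : ClC D x E τ h) : ConC D x E τ g := by
  obtain ⟨m, P, P', h2, h3, h4, h5, h6, h7, h8⟩ := hcl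
  have cg : RCtx D x g h (L ++ R₁) R₂ := .orr g i j h R₁ R₂ L hg c hi
  by_cases hb : (vars D (g, some h) ∩ E).card ≤ τ
  · exact Or.inr ⟨h, L ++ R₁, R₂, cg, hb, m, P, P', h2, h3, h4, h5, h6, h7, h8⟩
  refine ConC.of_cl ⟨1 + (m + 1), [(i, none)] ++ ((j, some h) :: P),
    (g, some h) :: P', .both g i j _ _ hg (.tree i ⟨L, tree_of_refutes hi⟩)
      (.ctx j h P ⟨_, _, c.ctx⟩ h2),
    .ctx g h P' ⟨_, _, cg.ctx⟩ h3, ?_, ?_, ?_, ?_, ?_⟩
  · intro p hp
    rw [List.mem_append, List.mem_singleton, List.mem_cons] at hp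
    rcases hp with rfl | rfl | hp
    · exact ih
    · exact hcard
    · exact h4 p hp
  · intro p hp
    rcases List.mem_cons.1 hp with rfl | hp
    · exact not_le.1 hb
    · exact h5 p hp
  · intro K X κ hav k
    obtain ⟨k1, k2⟩ := av_append hav
    have h9 := av_cons k2
    exact .both k g i j 1 _ hg (cuts_tree hi (av_cons k1).1) (cuts_ctx c h9.1 (h6 K X κ h9.2 _))
  · simp only [List.length_cons]
    omega
  · simp only [List.length_cons, List.length_append, List.length_nil]
    omega

private theorem conc_or4C {D : Circuit V s} {x : V → Bool} {E : Finset V} {τ : ℕ}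
    {g i j : Fin s} {L₁ L₂ R₁ R₂ : List V} {h h' : Fin s} (hg : D.gate g = .or i j)
    (c : RCtx D x i h L₁ L₂) (hcard : (vars D (i, some h) ∩ E).card ≤ τ) (hcl : ClC D x E τ h)
    (c' : RCtx D x j h' R₁ R₂) (hcard' : (vars D (j, some h') ∩ E).card ≤ τ)
    (hcl' : ClC D x E τ h') : ConC D x E τ g := by
  obtain ⟨m, P, P', h2, h3, h4, h5, h6, h7, h8⟩ := hcl
  obtain ⟨m', Q, Q', k2, k3, k4, k5, k6, k7, k8⟩ := hcl'
  refine ConC.of_cl ⟨(m + 1) + (m' + 1), ((i, some h) :: P) ++ ((j, some h') :: Q), P' ++ Q',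
    .both g i j _ _ hg (.ctx i h P ⟨_, _, c.ctx⟩ h2) (.ctx j h' Q ⟨_, _, c'.ctx⟩ k2),
    .both g i j _ _ hg (.skip i h P' ⟨_, _, c.ctx⟩ h3) (.skip j h' Q' ⟨_, _, c'.ctx⟩ k3),
    ?_, ?_, ?_, ?_, ?_⟩
  · intro p hp
    rw [List.mem_append, List.mem_cons, List.mem_cons] at hp
    rcases hp with (rfl | hp) | rfl | hp
    · exact hcard
    · exact h4 p hp
    · exact hcard'
    · exact k4 p hp
  · intro p hp
    rcases List.mem_append.1 hp with hp | hp
    · exact h5 p hp
    · exact k5 p hp
  · intro K X κ hav k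
    obtain ⟨a1, a2⟩ := av_append hav
    have h9 := av_cons a1
    have k9 := av_cons a2
    exact .both k g i j _ _ hg (cuts_ctx c h9.1 (h6 K X κ h9.2 _))
      (cuts_ctx c' k9.1 (k6 K X κ k9.2 _))
  · simp only [List.length_append]
    omega
  · simp only [List.length_cons, List.length_append]
    omega

/-- every refutation tree is a small piece, or a small piece with a hole for a closed part -/
theorem decC {D : Circuit V s} {x : V → Bool} (E : Finset V) {τ : ℕ} (hτ : 1 ≤ τ) {g : Fin s}
    {L : List V} (hL : D.Refutes x g L) : ConC D x E τ g := by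
  induction hL with
  | lit g v b hg _ =>
    left
    have h1 : vars D (g, none) ⊆ {v} := by
      intro e he
      obtain ⟨L, h1, h2⟩ := mem_vars_none.1 he
      cases h1 with
      | lit _ v' b' hg' =>
        rw [hg] at hg'
        cases hg'
        simpa using h2
      | left _ i j _ hg' _ => rw [hg] at hg'; cases hg'
      | right _ i j _ hg' _ => rw [hg] at hg'; cases hg'
      | both _ i j L L' hg' _ _ => rw [hg] at hg'; cases hg'
    calc (vars D (g, none) ∩ E).card ≤ ({v} : Finset V).card :=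
          card_le_card (inter_subset_left.trans h1)
      _ = 1 := card_singleton v
      _ ≤ τ := hτ
  | left g i j L hg hT ih =>
    exact conc_andC (fun h L R c => .left g i j h L R hg c) (.left g i j L hg hT) hT
      (fun K X k c h => .left k g i j c hg h) ih
  | right g i j L hg hT ih =>
    exact conc_andC (fun h L R c => .right g i j h L R hg c) (.right g i j L hg hT) hT
      (fun K X k c h => .right k g i j c hg h) ih
  | both g i j L L' hg hT hT' ih ih' =>
    rcases ih with ih | ⟨h, L₁, L₂, c, hcard, hcl⟩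
    · rcases ih' with ih' | ⟨h', R₁, R₂, c', hcard', hcl'⟩
      · exact conc_or1C hg hT hT' ih ih'
      · exact conc_or3C hg hT ih c' hcard' hcl'
    · rcases ih' with ih' | ⟨h', R₁, R₂, c', hcard', hcl'⟩
      · exact conc_or2C hg hT' c hcard hcl ih'
      · exact conc_or4C hg c hcard hcl c' hcard' hcl'

/-- the decomposition: a circuit reads no variable of `E` more than `m` times in a tree; a rejected
input has a refutation with at most `R` cuts and at most `R` types of pieces; these pieces contain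
at most `τ` elements of `E` each and at most `m * E.card` altogether -/
theorem decompC {D : Circuit V s} {x : V → Bool} (E : Finset V) {m τ R : ℕ} (hτ : 1 ≤ τ)
    (hm : ∀ e ∈ E, ∀ L, Tree D D.out L → L.count e ≤ m)
    (hR : 4 * (m * E.card) ≤ R * (τ + 1)) (hR1 : 1 ≤ R) (hx : ¬ D.Accepts x) :
    ∃ P : List (Fin s × Option (Fin s)), P.length ≤ R ∧
      (∀ (K : ℕ) (X : Fin K → Finset V) (κ : Fin s × Option (Fin s) → Fin K), Av D P X κ →
        ∃ k, Cuts D x X k D.out R) ∧
      (∀ p ∈ P, (vars D p ∩ E).card ≤ τ) ∧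
      (P.map fun p => (vars D p ∩ E).card).sum ≤ m * E.card := by
  obtain ⟨L, hL⟩ := rejects D x hx
  rcases decC E hτ hL with h | ⟨h, L₁, L₂, c, hcard, n, P, P', h2, h3, h4, h5, h6, h7, h8⟩
  · refine ⟨[(D.out, none)], by simpa using hR1, ?_, fun p hp => mem_one hp ▸ h,
      (Str.tree D.out ⟨L, tree_of_refutes hL⟩).sum E m hm⟩
    intro K X κ hav
    exact ⟨κ (D.out, none), cuts_pad (cuts_of_refutes X _ hL fun v hv =>
      (av_cons hav).1 v (mem_vars_none.2 ⟨L, tree_of_refutes hL, hv⟩)) R (Nat.zero_le _)⟩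
  · have hs : ∀ P : List (Fin s × Option (Fin s)), (∀ p ∈ P, τ < (vars D p ∩ E).card) →
        P.length * (τ + 1) ≤ (P.map fun p => (vars D p ∩ E).card).sum := by
      intro P hP
      induction P with
      | nil => simp
      | cons p P ih =>
        rw [List.map_cons, List.sum_cons, List.length_cons, add_mul, one_mul, add_comm]
        exact add_le_add (hP p (by simp)) (ih fun q hq => hP q (by simp [hq]))
    have h9 : P'.length * (τ + 1) ≤ m * E.card :=
      (hs P' h5).trans ((Str.skip D.out h P' ⟨_, _, c.ctx⟩ h3).sum E m hm)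
    have h10 : 4 * P'.length ≤ R := by
      have : 4 * P'.length * (τ + 1) ≤ R * (τ + 1) := by
        calc 4 * P'.length * (τ + 1) = 4 * (P'.length * (τ + 1)) := by ring
          _ ≤ 4 * (m * E.card) := Nat.mul_le_mul_left _ h9
          _ ≤ R * (τ + 1) := hR
      exact Nat.le_of_mul_le_mul_right this (Nat.succ_pos τ)
    refine ⟨(D.out, some h) :: P, ?_, ?_, ?_, (Str.ctx D.out h P ⟨_, _, c.ctx⟩ h2).sum E m hm⟩
    · simp only [List.length_cons]
      omega
    · intro K X κ hav
      have h11 := av_cons hav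
      refine ⟨κ (D.out, some h), cuts_pad (c.cuts X _ (fun v hv => h11.1 v
        (mem_vars_some.2 ⟨_, _, c.ctx, Or.inl hv⟩)) (fun v hv => h11.1 v
        (mem_vars_some.2 ⟨_, _, c.ctx, Or.inr hv⟩)) (h6 K X κ h11.2 _)) R (by omega)⟩
    · intro p hp
      rcases List.mem_cons.1 hp with rfl | hp
      · exact hcard
      · exact h4 p hp

end

end Pool.Agent.RT
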