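import Mathlib
import Pool.Agent.Lib.MP_0a1b52_lc_RT.Defs

/-!
# How often a circuit reads its variables: formal refutation trees with signed leaves
-/

set_option autoImplicit false

namespace Pool.Agent.RT

open Pool.Agent.FP

/-- `LTree D g L`: the gate `g` of `D` has a formal refutation tree whose leaves are, from left to
right, the literals in the list `L` (the literal gate `lit v b` is listed as `(v, b)`).  A formal
refutation tree goes from an OR gate to both wires (the left one first), from an AND gate to one of
them, and it ends at literals; nothing is required of the values of the literals. -/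
inductive LTree {V : Type} {s : ℕ} (D : Circuit V s) : Fin s → List (V × Bool) → Prop
  | lit (g : Fin s) (v : V) (b : Bool) : D.gate g = .lit v b → LTree D g [(v, b)]
  | left (g i j : Fin s) (L : List (V × Bool)) : D.gate g = .and i j → LTree D i L → LTree D g L
  | right (g i j : Fin s) (L : List (V × Bool)) : D.gate g = .and i j → LTree D j L → LTree D g L
  | both (g i j : Fin s) (L L' : List (V × Bool)) : D.gate g = .or i j → LTree D i L →
      LTree D j L' → LTree D g (L ++ L')

theorem tree_iff {V : Type} {s : ℕ} (D : Circuit V s) (g : Fin s) (M : List V) :
    Tree D g M ↔ ∃ L, LTree D g L ∧ L.map Prod.fst = M := by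
  constructor
  · intro h
    induction h with
    | lit g v b h => exact ⟨_, .lit g v b h, rfl⟩
    | left g i j M h _ ih =>
      obtain ⟨L, h1, h2⟩ := ih
      exact ⟨L, .left g i j L h h1, h2⟩
    | right g i j M h _ ih =>
      obtain ⟨L, h1, h2⟩ := ih
      exact ⟨L, .right g i j L h h1, h2⟩
    | both g i j M M' h _ _ ih ih' =>
      obtain ⟨L, h1, h2⟩ := ih
      obtain ⟨L', h3, h4⟩ := ih'
      exact ⟨L ++ L', .both g i j L L' h h1 h3, by rw [List.map_append, h2, h4]⟩
  · rintro ⟨L, h, rfl⟩
    induction h with
    | lit g v b h => exact .lit g v b h
    | left g i j L h _ ih => exact .left g i j _ h ih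
    | right g i j L h _ ih => exact .right g i j _ h ih
    | both g i j L L' h _ _ ih ih' =>
      rw [List.map_append]
      exact .both g i j _ _ h ih ih'

end Pool.Agent.RT
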