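import Mathlib

/-!
# How often a circuit reads its variables, module ColR: a colouring of the pieces
-/

set_option autoImplicit false

namespace Pool.Agent.RT

open Finset

/-- the colourings with given values on a set -/
private theorem col_ge {A : Type} [Fintype A] [DecidableEq A] (S : Finset A) (g : A → Fin 2) :
    2 ^ Fintype.card A ≤
      (univ.filter fun κ : A → Fin 2 => ∀ a ∈ S, κ a = g a).card * 2 ^ S.card := by
  classical
  have h1 : Fintype.card (A → Fin 2) ≤
      Fintype.card ({κ : A → Fin 2 // ∀ a ∈ S, κ a = g a} × (↥S → Fin 2)) := by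
    refine Fintype.card_le_of_injective
      (fun κ => (⟨fun a => if a ∈ S then g a else κ a, fun a ha => if_pos ha⟩,
        fun a => κ a.1)) ?_
    intro κ κ' h
    have h1 := congrArg Prod.fst h
    have h2 := congrArg Prod.snd h
    funext a
    by_cases ha : a ∈ S
    · exact congrFun h2 ⟨a, ha⟩
    · have h3 := congrFun (Subtype.ext_iff.1 h1) a
      simpa [ha] using h3
  rw [Fintype.card_fun, Fintype.card_fin, Fintype.card_prod, Fintype.card_fun, Fintype.card_fin,
    Fintype.card_coe, Fintype.card_subtype] at h1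
  exact h1

private theorem col_deg {V A : Type} [DecidableEq V] (P : Finset A)
    (B : A → Finset V) (F : Finset V) :
    ∑ v ∈ F, (P.filter fun p => v ∈ B p).card = ∑ p ∈ P, (B p ∩ F).card := by
  have h := sum_card_bipartiteAbove_eq_sum_card_bipartiteBelow (s := F) (t := P)
    (fun v p => v ∈ B p)
  refine h.trans (sum_congr rfl fun p _ => ?_)
  congr 1
  ext v
  simp [bipartiteBelow, mem_inter, and_comm]

private theorem col_low {V A : Type} [DecidableEq V] (P : Finset A)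
    (B : A → Finset V) (F : Finset V) (m : ℕ) (h : ∑ p ∈ P, (B p ∩ F).card ≤ m * (2 * F.card)) :
    3 * F.card ≤ 4 * (F.filter fun v => (P.filter fun p => v ∈ B p).card ≤ 8 * m).card := by
  have h1 := card_filter_add_card_filter_not (s := F)
    (p := fun v => (P.filter fun p => v ∈ B p).card ≤ 8 * m)
  set x := (F.filter fun v => ¬ (P.filter fun p => v ∈ B p).card ≤ 8 * m).card with hx
  have h2 : x * (8 * m + 1) ≤ m * (2 * F.card) := by
    refine le_trans ?_ ((col_deg P B F).le.trans h)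
    calc x * (8 * m + 1) = ∑ _v ∈ F.filter fun v => ¬ (P.filter fun p => v ∈ B p).card ≤ 8 * m,
          (8 * m + 1) := by rw [sum_const, smul_eq_mul]
      _ ≤ ∑ v ∈ F.filter fun v => ¬ (P.filter fun p => v ∈ B p).card ≤ 8 * m,
          (P.filter fun p => v ∈ B p).card := by
          refine sum_le_sum fun v hv => ?_
          have := (mem_filter.1 hv).2
          omega
      _ ≤ ∑ v ∈ F, (P.filter fun p => v ∈ B p).card :=
          sum_le_sum_of_subset (filter_subset _ _)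
  have h3 : 4 * x ≤ F.card := by
    by_contra hc
    have h4 : F.card + 1 ≤ 4 * x := by omega
    have h5 : (F.card + 1) * (8 * m + 1) ≤ 4 * (m * (2 * F.card)) := by
      calc (F.card + 1) * (8 * m + 1) ≤ 4 * x * (8 * m + 1) := Nat.mul_le_mul_right _ h4
        _ = 4 * (x * (8 * m + 1)) := by ring
        _ ≤ _ := Nat.mul_le_mul_left _ h2
    nlinarith
  omega

theorem colourR {V A : Type} [DecidableEq V] [Fintype A] [DecidableEq A] (P : Finset A)
    (B : A → Finset V) (E1 E2 : Finset V) (hE : E1.card = E2.card) (m τ : ℕ)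
    (hτ : ∀ p ∈ P, (B p ∩ (E1 ∪ E2)).card ≤ τ)
    (hsum : ∑ p ∈ P, (B p ∩ (E1 ∪ E2)).card ≤ m * (2 * E1.card)) (h3 : 32 * τ * m ≤ E1.card) :
    ∃ κ : A → Fin 2, E1.card * E2.card ≤ 2 * 256 ^ (2 * m) *
      ((E1.filter fun v => ∀ p ∈ P, v ∈ B p → κ p ≠ 0).card *
        (E2.filter fun v => ∀ p ∈ P, v ∈ B p → κ p ≠ 1).card) := by
  classical
  let d : V → ℕ := fun v => (P.filter fun p => v ∈ B p).card
  let L1 := E1.filter fun v => d v ≤ 8 * m
  let L2 := E2.filter fun v => d v ≤ 8 * m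
  have hL1 : 3 * E1.card ≤ 4 * L1.card := by
    refine col_low P B E1 m (le_trans (sum_le_sum fun p _ => card_le_card ?_) hsum)
    exact inter_subset_inter_left subset_union_left
  have hL2 : 3 * E2.card ≤ 4 * L2.card := by
    refine col_low P B E2 m (le_trans (sum_le_sum fun p _ => card_le_card ?_)
      (hsum.trans (le_of_eq (by rw [hE]))))
    exact inter_subset_inter_left subset_union_right
  let W := (E1 ×ˢ E2).filter fun x => ∃ p ∈ P, x.1 ∈ B p ∧ x.2 ∈ B p
  have hW : 16 * W.card ≤ E1.card * E1.card := by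
    have h1 : W ⊆ P.biUnion fun p => (B p ∩ E1) ×ˢ (B p ∩ E2) := by
      rintro ⟨e, f⟩ hx
      obtain ⟨h1, p, hp, h2, h4⟩ := mem_filter.1 hx
      obtain ⟨h5, h6⟩ := mem_product.1 h1
      exact mem_biUnion.2 ⟨p, hp, mem_product.2 ⟨mem_inter.2 ⟨h2, h5⟩, mem_inter.2 ⟨h4, h6⟩⟩⟩
    have h2 : W.card ≤ ∑ p ∈ P, τ * (B p ∩ (E1 ∪ E2)).card := by
      refine (card_le_card h1).trans (card_biUnion_le.trans (sum_le_sum fun p hp => ?_))
      rw [card_product]
      exact Nat.mul_le_mul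
        ((card_le_card (inter_subset_inter_left subset_union_left)).trans (hτ p hp))
        (card_le_card (inter_subset_inter_left subset_union_right))
    rw [← mul_sum] at h2
    calc 16 * W.card ≤ 16 * (τ * (m * (2 * E1.card))) :=
          Nat.mul_le_mul_left _ (h2.trans (Nat.mul_le_mul_left _ hsum))
      _ = (32 * τ * m) * E1.card := by ring
      _ ≤ E1.card * E1.card := Nat.mul_le_mul_right _ h3
  let Pg := (L1 ×ˢ L2) \ W
  have hPg : E1.card * E2.card ≤ 2 * Pg.card := by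
    have h1 : L1.card * L2.card ≤ Pg.card + W.card := by
      rw [← card_product]
      have h5 : (L1 ×ˢ L2).card - W.card ≤ Pg.card := le_card_sdiff W (L1 ×ˢ L2)
      omega
    have h2 : (3 * E1.card) * (3 * E2.card) ≤ (4 * L1.card) * (4 * L2.card) :=
      Nat.mul_le_mul hL1 hL2
    rw [← hE] at h2 ⊢
    nlinarith
  let X0 : (A → Fin 2) → Finset V := fun κ => E1.filter fun v => ∀ p ∈ P, v ∈ B p → κ p ≠ 0
  let X1 : (A → Fin 2) → Finset V := fun κ => E2.filter fun v => ∀ p ∈ P, v ∈ B p → κ p ≠ 1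
  have hpair : ∀ x ∈ Pg, 2 ^ Fintype.card A ≤
      (univ.filter fun κ : A → Fin 2 => x.1 ∈ X0 κ ∧ x.2 ∈ X1 κ).card * 256 ^ (2 * m) := by
    rintro ⟨e, f⟩ hx
    obtain ⟨h1, h2⟩ := mem_sdiff.1 hx
    obtain ⟨he, hf⟩ := mem_product.1 h1
    obtain ⟨he1, he2⟩ := mem_filter.1 he
    obtain ⟨hf1, hf2⟩ := mem_filter.1 hf
    have hno : ∀ p ∈ P, e ∈ B p → f ∈ B p → False := fun p hp h4 h5 =>
      h2 (mem_filter.2 ⟨mem_product.2 ⟨he1, hf1⟩, p, hp, h4, h5⟩)
    let S := (P.filter fun p => e ∈ B p) ∪ P.filter fun p => f ∈ B p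
    have hS : S.card ≤ 8 * (2 * m) := by
      have h4 := card_union_le (P.filter fun p => e ∈ B p) (P.filter fun p => f ∈ B p)
      have h5 : (P.filter fun p => e ∈ B p).card ≤ 8 * m := he2
      have h6 : (P.filter fun p => f ∈ B p).card ≤ 8 * m := hf2
      have h7 : S.card = ((P.filter fun p => e ∈ B p) ∪ P.filter fun p => f ∈ B p).card := rfl
      omega
    refine (col_ge S fun p => if e ∈ B p then 1 else 0).trans (Nat.mul_le_mul (card_le_card ?_) ?_)
    · intro κ hκ
      have hκ2 := (mem_filter.1 hκ).2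
      refine mem_filter.2 ⟨mem_univ _, mem_filter.2 ⟨he1, fun p hp hep => ?_⟩,
        mem_filter.2 ⟨hf1, fun p hp hfp => ?_⟩⟩
      · have h4 := hκ2 p (mem_union_left _ (mem_filter.2 ⟨hp, hep⟩))
        simp only [if_pos hep] at h4
        rw [h4]
        decide
      · have h4 := hκ2 p (mem_union_right _ (mem_filter.2 ⟨hp, hfp⟩))
        have h5 : e ∉ B p := fun h => hno p hp h hfp
        simp only [if_neg h5] at h4
        rw [h4]
        decide
    · calc 2 ^ S.card ≤ 2 ^ (8 * (2 * m)) := Nat.pow_le_pow_right (by norm_num) hS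
        _ = 256 ^ (2 * m) := by rw [pow_mul]; norm_num
  have hdc : ∑ κ : A → Fin 2, (X0 κ).card * (X1 κ).card ≥
      ∑ x ∈ Pg, (univ.filter fun κ : A → Fin 2 => x.1 ∈ X0 κ ∧ x.2 ∈ X1 κ).card := by
    have h1 := sum_card_bipartiteAbove_eq_sum_card_bipartiteBelow (s := Pg)
      (t := (univ : Finset (A → Fin 2))) (fun x κ => x.1 ∈ X0 κ ∧ x.2 ∈ X1 κ)
    have h2 : ∑ x ∈ Pg, (univ.filter fun κ : A → Fin 2 => x.1 ∈ X0 κ ∧ x.2 ∈ X1 κ).card =
        ∑ κ : A → Fin 2, (Pg.filter fun x => x.1 ∈ X0 κ ∧ x.2 ∈ X1 κ).card := h1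
    rw [h2]
    refine sum_le_sum fun κ _ => ?_
    rw [← card_product]
    refine card_le_card fun x hx => ?_
    exact mem_product.2 (mem_filter.1 hx).2
  have hex : ∃ κ : A → Fin 2, Pg.card ≤ (X0 κ).card * (X1 κ).card * 256 ^ (2 * m) := by
    by_contra hc
    have hc2 : ∀ κ : A → Fin 2, (X0 κ).card * (X1 κ).card * 256 ^ (2 * m) < Pg.card :=
      fun κ => not_le.1 fun h => hc ⟨κ, h⟩
    have h1 : ∑ κ : A → Fin 2, (X0 κ).card * (X1 κ).card * 256 ^ (2 * m) <
        ∑ _κ : A → Fin 2, Pg.card := sum_lt_sum_of_nonempty ⟨fun _ => 0, mem_univ _⟩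
      fun κ _ => hc2 κ
    rw [sum_const, card_univ, Fintype.card_fun, Fintype.card_fin, smul_eq_mul, ← sum_mul] at h1
    have h2 : Pg.card * 2 ^ Fintype.card A ≤
        (∑ κ : A → Fin 2, (X0 κ).card * (X1 κ).card) * 256 ^ (2 * m) := by
      calc Pg.card * 2 ^ Fintype.card A = ∑ _x ∈ Pg, 2 ^ Fintype.card A := by
            rw [sum_const, smul_eq_mul]
        _ ≤ ∑ x ∈ Pg, (univ.filter fun κ : A → Fin 2 => x.1 ∈ X0 κ ∧ x.2 ∈ X1 κ).card *
              256 ^ (2 * m) := sum_le_sum fun x hx => hpair x hx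
        _ = (∑ x ∈ Pg, (univ.filter fun κ : A → Fin 2 => x.1 ∈ X0 κ ∧ x.2 ∈ X1 κ).card) *
              256 ^ (2 * m) := by rw [sum_mul]
        _ ≤ _ := Nat.mul_le_mul_right _ hdc
    rw [mul_comm] at h2
    omega
  obtain ⟨κ, hκ⟩ := hex
  refine ⟨κ, ?_⟩
  calc E1.card * E2.card ≤ 2 * Pg.card := hPg
    _ ≤ 2 * ((X0 κ).card * (X1 κ).card * 256 ^ (2 * m)) := Nat.mul_le_mul_left _ hκ
    _ = _ := by ring

end Pool.Agent.RT
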