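import Mathlib
import Pool.Agent.Lib.MP_0a1b52_lc_RT.Cut
import Pool.Agent.Lib.MP_0a1b52_lc_RT.ColR

/-!
# How often a circuit reads its variables, module CoreR: the union bound
-/

set_option autoImplicit false

namespace Pool.Agent.RT

open Finset Pool.Agent.FP Pool.Agent.RK

private theorem exists_codeR {α : Type} : ∀ (P : List α) (R : ℕ), P.length ≤ R →
    ∃ f : Fin R → Option α, (List.ofFn f).reduceOption = P
  | [], R, _ => ⟨fun _ => none, by
      rw [List.ofFn_const]
      induction R with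
      | zero => rfl
      | succ R ih => simp⟩
  | a :: P, 0, h => absurd h (by simp)
  | a :: P, R + 1, h => by
      obtain ⟨f, hf⟩ := exists_codeR P R (by simpa using h)
      refine ⟨Fin.cons (some a) f, ?_⟩
      rw [List.ofFn_succ]
      simp only [Fin.cons_zero, Fin.cons_succ]
      rw [List.reduceOption_cons_of_some, hf]

private theorem sum_toFinset_le {α : Type} [DecidableEq α] (f : α → ℕ) :
    ∀ P : List α, ∑ p ∈ P.toFinset, f p ≤ (P.map f).sum
  | [] => by simp
  | a :: P => by
      rw [List.toFinset_cons, List.map_cons, List.sum_cons]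
      by_cases h : a ∈ P.toFinset
      · rw [insert_eq_of_mem h]
        exact (sum_toFinset_le f P).trans (Nat.le_add_left _ _)
      · rw [sum_insert h]
        exact Nat.add_le_add_left (sum_toFinset_le f P) _

theorem core_boundR {V : Type} [Fintype V] [DecidableEq V] {s : ℕ} (D : Circuit V s)
    (E1 E2 : Finset V) (hd : Disjoint E1 E2) (hc : E1.card = E2.card) (m τ R : ℕ) (hτ : 1 ≤ τ)
    (hm : ∀ e ∈ E1 ∪ E2, ∀ L, Tree D D.out L → L.count e ≤ m)
    (hR : 8 * (m * E1.card) ≤ R * (τ + 1)) (hR1 : 1 ≤ R) (h3 : 32 * τ * m ≤ E1.card) {N : ℕ}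
    (Q : Fin N → V → Bool) (b : ℝ) (hb : 0 ≤ b)
    (hE : ∀ X : Fin 2 → Finset V, E1.card * E2.card ≤
      2 * 256 ^ (2 * m) * ((E1 ∩ X 0).card * (E2 ∩ X 1).card) →
      ∀ T : (V → Bool) → Prop, StarK X T → (∀ x, T x → ¬ D.Accepts x) →
        (Nat.card {i // T (Q i)} : ℝ) ≤ b) :
    (Nat.card {i // ¬ D.Accepts (Q i)} : ℝ) ≤
      (((s * (s + 1) + 1) ^ R * (2 * s) ^ (R + 1) : ℕ) : ℝ) * b := by
  classical
  have hcE : (E1 ∪ E2).card = 2 * E1.card := by
    rw [card_union_of_disjoint hd, ← hc, two_mul]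
  let Pf : (Fin R → Option (Fin s × Option (Fin s))) → List (Fin s × Option (Fin s)) :=
    fun f => (List.ofFn f).reduceOption
  let good : (Fin R → Option (Fin s × Option (Fin s))) → Prop := fun f =>
    (∀ p ∈ Pf f, (vars D p ∩ (E1 ∪ E2)).card ≤ τ) ∧
      ((Pf f).map fun p => (vars D p ∩ (E1 ∪ E2)).card).sum ≤ m * (E1 ∪ E2).card
  let A : (Fin R → Option (Fin s × Option (Fin s))) → Finset (Fin N) := fun f =>
    univ.filter fun i => good f ∧ ∀ (K : ℕ) (X : Fin K → Finset V)
      (κ : Fin s × Option (Fin s) → Fin K), Av D (Pf f) X κ → ∃ k, Cuts D (Q i) X k D.out R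
  have hsub : (univ.filter fun i => ¬ D.Accepts (Q i)) ⊆ univ.biUnion A := by
    intro i hi
    obtain ⟨P, h4, h5, h6, h7⟩ := decompC (E1 ∪ E2) hτ hm
      (by
        rw [hcE]
        calc 4 * (m * (2 * E1.card)) = 8 * (m * E1.card) := by ring
          _ ≤ _ := hR) hR1 (mem_filter.1 hi).2
    obtain ⟨f, hf⟩ := exists_codeR P R h4
    refine mem_biUnion.2 ⟨f, mem_univ _, mem_filter.2 ⟨mem_univ _, ?_, ?_⟩⟩
    · simp only [good, Pf, hf]
      exact ⟨h6, h7⟩
    · simp only [Pf, hf]
      exact h5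
  have hA : ∀ f, ((A f).card : ℝ) ≤ (((2 * s) ^ (R + 1) : ℕ) : ℝ) * b := by
    intro f
    by_cases hg : good f
    · obtain ⟨κ, hκ⟩ := colourR (Pf f).toFinset (vars D) E1 E2 hc m τ
        (fun p hp => hg.1 p (List.mem_toFinset.1 hp))
        (by
          rw [← hcE]
          exact (sum_toFinset_le _ _).trans hg.2) h3
      let X : Fin 2 → Finset V := fun t => univ.filter fun v =>
        ∀ p ∈ (Pf f).toFinset, v ∈ vars D p → κ p ≠ t
      have hX0 : E1 ∩ X 0 = E1.filter fun v =>
          ∀ p ∈ (Pf f).toFinset, v ∈ vars D p → κ p ≠ 0 := by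
        ext v
        simp [X, mem_inter]
      have hX1 : E2 ∩ X 1 = E2.filter fun v =>
          ∀ p ∈ (Pf f).toFinset, v ∈ vars D p → κ p ≠ 1 := by
        ext v
        simp [X, mem_inter]
      have hav : Av D (Pf f) X κ := by
        intro p hp v hv hvX
        exact (mem_filter.1 hvX).2 p (List.mem_toFinset.2 hp) hv rfl
      obtain ⟨M, T, hM, hT1, hT2, hT3⟩ := cover (by norm_num : 0 < 2) D X (R + 1)
      have hAT : A f ⊆ univ.biUnion fun θ : Fin M => univ.filter fun i => T θ (Q i) := by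
        intro i hi
        obtain ⟨-, -, hcut⟩ := mem_filter.1 hi
        obtain ⟨k, hk⟩ := hcut 2 X _ hav
        obtain ⟨θ, hθ⟩ := hT3 (Q i) hk.lemmas
        exact mem_biUnion.2 ⟨θ, mem_univ _, mem_filter.2 ⟨mem_univ _, hθ⟩⟩
      have h9 : ((A f).card : ℝ) ≤ ∑ θ : Fin M, ((univ.filter fun i => T θ (Q i)).card : ℝ) := by
        have := (card_le_card hAT).trans card_biUnion_le
        exact_mod_cast this
      refine h9.trans ?_
      calc ∑ θ : Fin M, ((univ.filter fun i => T θ (Q i)).card : ℝ) ≤ ∑ _θ : Fin M, b := by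
            refine sum_le_sum fun θ _ => ?_
            have := hE X (by rw [hX0, hX1]; exact hκ) (T θ) (hT1 θ) (hT2 θ)
            rwa [Nat.card_eq_fintype_card, Fintype.card_subtype] at this
        _ = M * b := by rw [sum_const, card_univ, Fintype.card_fin, nsmul_eq_mul]
        _ = _ := by rw [hM]
    · have : A f = ∅ := by
        rw [filter_eq_empty_iff]
        rintro i - ⟨h, -⟩
        exact hg h
      rw [this, card_empty, Nat.cast_zero]
      positivity
  have hcard : Fintype.card (Fin R → Option (Fin s × Option (Fin s))) = (s * (s + 1) + 1) ^ R := by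
    simp
  rw [Nat.card_eq_fintype_card, Fintype.card_subtype]
  have h10 : ((univ.filter fun i => ¬ D.Accepts (Q i)).card : ℝ) ≤
      ∑ f, ((A f).card : ℝ) := by
    have := (card_le_card hsub).trans card_biUnion_le
    exact_mod_cast this
  refine h10.trans ((sum_le_sum fun f _ => hA f).trans (le_of_eq ?_))
  rw [sum_const, card_univ, hcard, nsmul_eq_mul]
  push_cast
  ring

end Pool.Agent.RT
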