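import Mathlib
import Pool.Agent.Lib.MP_0a1b52_lc_RT.CoreR

/-!
# How often a circuit reads its variables, module MainR: the circuit side, with the parameters
-/

set_option autoImplicit false

namespace Pool.Agent.RT

open Finset Pool.Agent.FP Pool.Agent.RK

private theorem ev_logR (η : ℝ) (hη : 0 < η) : ∀ᶠ n : ℕ in Filter.atTop,
    Real.logb 2 n ≤ (n : ℝ) ^ (η / 4) ∧ 1 ≤ (n : ℝ) ^ (η / 4) ∧
      9216 ≤ (n : ℝ) ^ (η / 2) := by
  have hcast := tendsto_natCast_atTop_atTop (R := ℝ)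
  have h1 := (isLittleO_log_rpow_atTop (by positivity : 0 < η / 4)).bound
    (Real.log_pos (by norm_num : (1 : ℝ) < 2))
  have h2 := ((tendsto_rpow_atTop (by positivity : 0 < η / 4)).comp hcast).eventually_ge_atTop 1
  have h3 := ((tendsto_rpow_atTop (by positivity : 0 < η / 2)).comp hcast).eventually_ge_atTop
    9216
  filter_upwards [hcast.eventually h1, h2, h3, Filter.eventually_ge_atTop 1] with n k1 k2 k3 k4
  refine ⟨?_, k2, k3⟩
  have hn : (1 : ℝ) ≤ n := by exact_mod_cast k4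
  have hl : 0 < Real.log 2 := Real.log_pos (by norm_num)
  rw [Real.norm_of_nonneg (Real.log_nonneg hn), Real.norm_of_nonneg (by positivity)] at k1
  rw [Real.logb, div_le_iff₀ hl, mul_comm]
  exact k1

open Classical in
theorem mainR (γ η δ : ℝ) (hγ : 0 ≤ γ) (hη : 0 < η) (hδ : 0 < δ) : ∃ c : ℝ, 0 < c ∧
    ∃ n₀ : ℕ, ∀ n ≥ n₀, ∀ E1 E2 : Finset (EdgeVar n), Disjoint E1 E2 → E1.card = E2.card →
      (n : ℝ) ^ η ≤ E1.card →
      ∀ (N : ℕ) (Q : Fin N → EdgeVar n → Bool) (C : (EdgeVar n → Bool) → Prop),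
        (∀ X : Fin 2 → Finset (EdgeVar n), (n : ℝ) ^ (-δ) * (E1.card : ℝ) ^ 2 ≤
          ((E1 ∩ X 0).card : ℝ) * ((E2 ∩ X 1).card : ℝ) →
          ∀ T : (EdgeVar n → Bool) → Prop, StarK X T → (∀ x, T x → C x) →
            ((univ.filter fun i => T (Q i)).card : ℝ) ≤
              N * (2 : ℝ) ^ (-((n : ℝ) ^ (γ + η)))) →
        ∀ (s : ℕ) (D : Circuit (EdgeVar n) s), (∀ x, ¬ D.Accepts x → C x) →
          (s : ℝ) ≤ (2 : ℝ) ^ ((n : ℝ) ^ γ) →
          (∀ e ∈ E1 ∪ E2, ∀ L, Tree D D.out L → (L.count e : ℝ) ≤ c * Real.logb 2 n) →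
          ((univ.filter fun i => ¬ D.Accepts (Q i)).card : ℝ) ≤
            N * (2 : ℝ) ^ (-((n : ℝ) ^ γ)) := by
  set δ₂ := min δ 1 with hδ₂
  have hδ20 : 0 < δ₂ := lt_min hδ one_pos
  have hδ21 : δ₂ ≤ δ := min_le_left _ _
  have hδ22 : δ₂ ≤ 1 := min_le_right _ _
  have hlim : Filter.Tendsto (fun n : ℕ => (n : ℝ) ^ (δ₂ / 2)) Filter.atTop Filter.atTop :=
    (tendsto_rpow_atTop (by positivity)).comp tendsto_natCast_atTop_atTop
  obtain ⟨n₂, h₂⟩ := Filter.eventually_atTop.1 (hlim.eventually_ge_atTop (2 * 2 ^ 16))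
  obtain ⟨n₃, h₃⟩ := Filter.eventually_atTop.1 (ev_logR η hη)
  refine ⟨δ₂ / 32, by positivity, max n₂ (max n₃ 1), fun n hn => ?_⟩
  have hn2 : n₂ ≤ n := le_trans (le_max_left _ _) hn
  have hn3 : n₃ ≤ n := le_trans (le_trans (le_max_left _ _) (le_max_right _ _)) hn
  have hn4 : 1 ≤ n := le_trans (le_trans (le_max_right _ _) (le_max_right _ _)) hn
  have hn11 : (1 : ℝ) ≤ n := by exact_mod_cast hn4
  have hn0 : (0 : ℝ) < n := by linarith
  obtain ⟨hl1, hl2, hl3⟩ := h₃ n hn3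
  have hk2 := h₂ n hn2
  intro E1 E2 hd hc hEc N Q C hfam s D hD hs hcnt
  set ℓ := Real.logb 2 n with hℓ
  have hℓ0 : 0 ≤ ℓ := Real.logb_nonneg (by norm_num) hn11
  have hcl : 0 ≤ δ₂ / 32 * ℓ := by positivity
  set m := ⌊δ₂ / 32 * ℓ⌋₊ + 1 with hm
  have hm1 : 1 ≤ m := by omega
  have hmle : (m : ℝ) ≤ δ₂ / 32 * ℓ + 1 := by
    rw [hm]
    push_cast
    linarith [Nat.floor_le hcl]
  have hmge : δ₂ / 32 * ℓ ≤ m := by
    rw [hm]
    push_cast
    exact (Nat.lt_floor_add_one _).le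
  have hm0 : (0 : ℝ) < m := by exact_mod_cast hm1
  -- the size of `m`
  have hm2 : (m : ℝ) ≤ 2 * (n : ℝ) ^ (η / 4) := by
    have : δ₂ / 32 * ℓ ≤ 1 * (n : ℝ) ^ (η / 4) := by
      apply mul_le_mul _ hl1 hℓ0 (by norm_num)
      linarith
    linarith
  have e2 : (n : ℝ) ^ (η / 2) = ((n : ℝ) ^ (η / 4)) ^ 2 := by
    rw [← Real.rpow_natCast, ← Real.rpow_mul hn0.le]
    congr 1
    push_cast
    ring
  have hm3 : 2304 * (m : ℝ) ^ 2 ≤ (n : ℝ) ^ η := by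
    have e1 : (n : ℝ) ^ η = (n : ℝ) ^ (η / 2) * (n : ℝ) ^ (η / 2) := by
      rw [← Real.rpow_add hn0]
      congr 1
      ring
    calc 2304 * (m : ℝ) ^ 2 ≤ 2304 * (2 * (n : ℝ) ^ (η / 4)) ^ 2 := by gcongr
      _ = 9216 * (n : ℝ) ^ (η / 2) := by rw [e2]; ring
      _ ≤ (n : ℝ) ^ (η / 2) * (n : ℝ) ^ (η / 2) :=
          mul_le_mul_of_nonneg_right hl3 (by positivity)
      _ = (n : ℝ) ^ η := e1.symm
  have hmm : (1 : ℝ) ≤ (m : ℝ) ^ 2 := by
    have : 1 ≤ m ^ 2 := Nat.one_le_pow _ _ (by omega)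
    exact_mod_cast this
  -- the size of `E1`
  have hE2 : 32 * m ≤ E1.card := by
    have h5 : (m : ℝ) ≤ (m : ℝ) ^ 2 := by
      have : (1 : ℝ) ≤ m := by exact_mod_cast hm1
      nlinarith
    have : (32 : ℝ) * m ≤ E1.card := by linarith
    exact_mod_cast this
  set τ := E1.card / (32 * m) with hτ
  have hτ1 : 1 ≤ τ := (Nat.one_le_div_iff (by omega)).2 hE2
  have hτ2 : 32 * τ * m ≤ E1.card := by
    calc 32 * τ * m = E1.card / (32 * m) * (32 * m) := by rw [hτ]; ring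
      _ ≤ E1.card := Nat.div_mul_le_self _ _
  have hτ3 : E1.card ≤ 32 * m * (τ + 1) := by
    have := Nat.lt_mul_div_succ E1.card (show 0 < 32 * m by omega)
    exact this.le
  obtain ⟨R, hR⟩ : ∃ R, R = 256 * m ^ 2 := ⟨_, rfl⟩
  have hR1 : 1 ≤ R := by
    have : 1 ≤ m ^ 2 := Nat.one_le_pow _ _ (by omega)
    omega
  have hR2 : 8 * (m * E1.card) ≤ R * (τ + 1) := by
    calc 8 * (m * E1.card) ≤ 8 * (m * (32 * m * (τ + 1))) := by gcongr
      _ = R * (τ + 1) := by rw [hR]; ring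
  have hcnt' : ∀ e ∈ E1 ∪ E2, ∀ L, Tree D D.out L →
      @List.count (EdgeVar n) instBEqOfDecidableEq e L ≤ m := by
    intro e he L hL
    have h1 := (hcnt e he L hL).trans hmge
    have h2 : L.count e ≤ m := by exact_mod_cast h1
    refine le_trans (le_of_eq ?_) h2
    rw [lawful_beq_subsingleton (instBEqOfDecidableEq : BEq (EdgeVar n)) Subtype.instBEq]
  -- private elements
  have h256 : 2 * (256 : ℝ) ^ (2 * m) ≤ (n : ℝ) ^ δ := by
    have e1 : (256 : ℝ) ^ (2 * m) ≤ 2 ^ 16 * (n : ℝ) ^ (δ₂ / 2) := by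
      calc (256 : ℝ) ^ (2 * m) = (2 : ℝ) ^ (16 * (m : ℝ)) := by
            rw [show (256 : ℝ) = 2 ^ (8 : ℕ) by norm_num, ← pow_mul, ← Real.rpow_natCast]
            congr 1
            push_cast
            ring
        _ ≤ (2 : ℝ) ^ (16 * (δ₂ / 32 * ℓ + 1)) :=
            Real.rpow_le_rpow_of_exponent_le (by norm_num) (by linarith)
        _ = (2 : ℝ) ^ ((16 : ℕ) : ℝ) * ((2 : ℝ) ^ ℓ) ^ (δ₂ / 2) := by
            rw [← Real.rpow_mul (by norm_num), ← Real.rpow_add (by norm_num)]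
            congr 1
            push_cast
            ring
        _ = 2 ^ 16 * (n : ℝ) ^ (δ₂ / 2) := by
            rw [hℓ, Real.rpow_logb (by norm_num) (by norm_num) hn0, Real.rpow_natCast]
    calc 2 * (256 : ℝ) ^ (2 * m) ≤ 2 * (2 ^ 16 * (n : ℝ) ^ (δ₂ / 2)) := by linarith
      _ = (2 * 2 ^ 16) * (n : ℝ) ^ (δ₂ / 2) := by ring
      _ ≤ (n : ℝ) ^ (δ₂ / 2) * (n : ℝ) ^ (δ₂ / 2) :=
          mul_le_mul_of_nonneg_right hk2 (by positivity)
      _ = (n : ℝ) ^ δ₂ := by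
          rw [← Real.rpow_add hn0]
          congr 1
          ring
      _ ≤ (n : ℝ) ^ δ := Real.rpow_le_rpow_of_exponent_le hn11 hδ21
  have hb := core_boundR D E1 E2 hd hc m τ R hτ1 hcnt' hR2 hR1 hτ2 Q
    (N * (2 : ℝ) ^ (-((n : ℝ) ^ (γ + η)))) (by positivity) (by
      intro X hX T hT1 hT2
      rw [Nat.card_eq_fintype_card, Fintype.card_subtype]
      refine hfam X ?_ T hT1 fun x hx => hD x (hT2 x hx)
      have h6 : (E1.card : ℝ) ^ 2 ≤ 2 * (256 : ℝ) ^ (2 * m) *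
          (((E1 ∩ X 0).card : ℝ) * ((E2 ∩ X 1).card : ℝ)) := by
        have h7 : ((E1.card * E2.card : ℕ) : ℝ) ≤
          ((2 * 256 ^ (2 * m) * ((E1 ∩ X 0).card * (E2 ∩ X 1).card) : ℕ) : ℝ) :=
            Nat.cast_le.2 hX
        rw [← hc] at h7
        push_cast at h7
        rw [sq]
        exact h7
      have h8 : (0 : ℝ) ≤ ((E1 ∩ X 0).card : ℝ) * ((E2 ∩ X 1).card : ℝ) := by positivity
      have h9 : (E1.card : ℝ) ^ 2 ≤ (n : ℝ) ^ δ *
          (((E1 ∩ X 0).card : ℝ) * ((E2 ∩ X 1).card : ℝ)) :=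
        h6.trans (mul_le_mul_of_nonneg_right h256 h8)
      have h10 := mul_le_mul_of_nonneg_left h9 (Real.rpow_nonneg hn0.le (-δ))
      refine h10.trans (le_of_eq ?_)
      rw [← mul_assoc, ← Real.rpow_add hn0, neg_add_cancel, Real.rpow_zero, one_mul])
  rw [Nat.card_eq_fintype_card, Fintype.card_subtype] at hb
  refine hb.trans ?_
  -- arithmetic
  have hs1 : 1 ≤ s := by
    have := D.out.2
    omega
  have hs0 : (1 : ℝ) ≤ s := by exact_mod_cast hs1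
  set y := (n : ℝ) ^ γ with hy
  set z := (n : ℝ) ^ (γ + η) with hz
  have hy1 : 1 ≤ y := Real.one_le_rpow hn11 hγ
  have hyz : (R : ℝ) * (3 + 3 * y) + 1 + 2 * y ≤ z := by
    have hRR : (R : ℝ) = 256 * (m : ℝ) ^ 2 := by
      rw [hR]
      push_cast
      ring
    have k1 : 2304 * (m : ℝ) ^ 2 * y ≤ z := by
      calc 2304 * (m : ℝ) ^ 2 * y ≤ (n : ℝ) ^ η * y :=
            mul_le_mul_of_nonneg_right hm3 (by linarith)
        _ = z := by rw [hy, hz, ← Real.rpow_add hn0, add_comm]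
    have k3 : y ≤ (m : ℝ) ^ 2 * y := le_mul_of_one_le_left (by linarith) hmm
    have k4 : (m : ℝ) ^ 2 ≤ (m : ℝ) ^ 2 * y := le_mul_of_one_le_right (by linarith) hy1
    rw [hRR]
    nlinarith
  have hpow : (((s * (s + 1) + 1) ^ R * (2 * s) ^ (R + 1) : ℕ) : ℝ) ≤
      (2 : ℝ) ^ ((R : ℝ) * (3 + 3 * y) + 1 + y) := by
    have q1 : ((s * (s + 1) + 1 : ℕ) : ℝ) ≤ (2 : ℝ) ^ (2 + 2 * y) := by
      have : (s : ℝ) * (s + 1) + 1 ≤ 4 * ((s : ℝ) * s) := by nlinarith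
      calc ((s * (s + 1) + 1 : ℕ) : ℝ) = (s : ℝ) * (s + 1) + 1 := by push_cast; ring
        _ ≤ 4 * ((s : ℝ) * s) := this
        _ ≤ 4 * ((2 : ℝ) ^ y * (2 : ℝ) ^ y) := by gcongr
        _ = (2 : ℝ) ^ (2 + 2 * y) := by
            rw [← Real.rpow_add (by norm_num), show (4 : ℝ) = (2 : ℝ) ^ (2 : ℝ) by norm_num,
              ← Real.rpow_add (by norm_num)]
            congr 1
            ring
    have q2 : ((2 * s : ℕ) : ℝ) ≤ (2 : ℝ) ^ (1 + y) := by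
      calc ((2 * s : ℕ) : ℝ) = 2 * s := by push_cast; ring
        _ ≤ 2 * (2 : ℝ) ^ y := by gcongr
        _ = (2 : ℝ) ^ (1 + y) := by
            rw [Real.rpow_add (by norm_num), Real.rpow_one]
    calc (((s * (s + 1) + 1) ^ R * (2 * s) ^ (R + 1) : ℕ) : ℝ)
        = ((s * (s + 1) + 1 : ℕ) : ℝ) ^ R * ((2 * s : ℕ) : ℝ) ^ (R + 1) := by push_cast; ring
      _ ≤ ((2 : ℝ) ^ (2 + 2 * y)) ^ R * ((2 : ℝ) ^ (1 + y)) ^ (R + 1) := by gcongr
      _ = (2 : ℝ) ^ ((R : ℝ) * (3 + 3 * y) + 1 + y) := by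
          rw [← Real.rpow_mul_natCast (by norm_num), ← Real.rpow_mul_natCast (by norm_num),
            ← Real.rpow_add (by norm_num)]
          congr 1
          push_cast
          ring
  calc (((s * (s + 1) + 1) ^ R * (2 * s) ^ (R + 1) : ℕ) : ℝ) * (N * (2 : ℝ) ^ (-z))
      ≤ (2 : ℝ) ^ ((R : ℝ) * (3 + 3 * y) + 1 + y) * (N * (2 : ℝ) ^ (-z)) :=
        mul_le_mul_of_nonneg_right hpow (by positivity)
    _ = N * (2 : ℝ) ^ ((R : ℝ) * (3 + 3 * y) + 1 + y + -z) := by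
        rw [Real.rpow_add (by norm_num : (0 : ℝ) < 2) ((R : ℝ) * (3 + 3 * y) + 1 + y) (-z)]
        ring
    _ ≤ N * (2 : ℝ) ^ (-y) := by
        apply mul_le_mul_of_nonneg_left _ (Nat.cast_nonneg _)
        apply Real.rpow_le_rpow_of_exponent_le (by norm_num)
        linarith

end Pool.Agent.RT
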