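import Mathlib
import Pool.Agent.Lib.MP_0a1b52_lc_FP.Defs

/-!
# How often a circuit reads its variables, module CellG: graphs of disjoint gadgets
-/

set_option autoImplicit false

namespace Pool.Agent.RT

open Finset Pool.Agent.FP

/-- Disjoint cells; the cell `κ` has the vertices `u κ 0` and `u κ 1` (perhaps equal).  The control
edge `t` of the gadget `i` joins the vertices `u (f i) t` and `u (g i) t`; together with the
vertices in `R` there are as many cells as a clique must have vertices. -/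
structure Cells (n : ℕ) (I 𝒦 : Type) [Fintype 𝒦] where
  u : 𝒦 → Fin 2 → Fin n
  f : I → 𝒦
  g : I → 𝒦
  disj : ∀ κ κ' t t', u κ t = u κ' t' → κ = κ'
  fg : ∀ i, f i ≠ g i
  uniq : ∀ i i', (f i = f i' ∧ g i = g i' ∨ f i = g i' ∧ g i = f i') → i = i'
  choice : ∀ c : I → Fin 2, ∃ s : 𝒦 → Fin 2, ∀ i,
    u (f i) (s (f i)) = u (f i) (c i) ∧ u (g i) (s (g i)) = u (g i) (c i)
  R : Finset (Fin n)
  hR : ∀ κ t, u κ t ∉ R
  card : R.card + Fintype.card 𝒦 = Nat.sqrt n + 1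

variable {n : ℕ} {I 𝒦 : Type} [Fintype 𝒦]

/-- adjacency: all vertices of `R` are joined to everything, vertices in different cells are
joined, except the control pairs, which are joined if `Y` says so -/
def Cells.Adj (C : Cells n I 𝒦) (Y : Fin 2 → I → Bool) (x x' : Fin n) : Prop :=
  x ∈ C.R ∨ x' ∈ C.R ∨ ∃ κ κ' t t', κ ≠ κ' ∧ x = C.u κ t ∧ x' = C.u κ' t' ∧
    ∀ i, (κ = C.f i ∧ κ' = C.g i ∨ κ = C.g i ∧ κ' = C.f i) → t = t' ∧ Y t i = true

open Classical in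
/-- the graph -/
noncomputable def Cells.gr (C : Cells n I 𝒦) (Y : Fin 2 → I → Bool) : EdgeVar n → Bool :=
  fun e => decide (C.Adj Y e.1.1 e.1.2)

private theorem Cells.symm (C : Cells n I 𝒦) {Y : Fin 2 → I → Bool} {x x' : Fin n}
    (h : C.Adj Y x x') : C.Adj Y x' x := by
  rcases h with h | h | ⟨κ, κ', t, t', h1, h2, h3, h4⟩
  · exact Or.inr (Or.inl h)
  · exact Or.inl h
  · refine Or.inr (Or.inr ⟨κ', κ, t', t, h1.symm, h3, h2, fun i hi => ?_⟩)
    obtain ⟨h5, h6⟩ := h4 i (hi.symm.imp And.symm And.symm)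
    exact ⟨h5.symm, h5 ▸ h6⟩

private theorem Cells.adj (C : Cells n I 𝒦) (Y : Fin 2 → I → Bool) (x x' : Fin n) (h : x ≠ x') :
    (graphOf (C.gr Y)).Adj x x' ↔ C.Adj Y x x' := by
  constructor
  · rintro ⟨e, h, h1⟩
    have h2 : C.Adj Y e.1.1 e.1.2 := by simpa [Cells.gr] using h
    rcases h1 with h1 | h1
    · rw [h1] at h2
      exact h2
    · rw [h1] at h2
      exact C.symm h2
  · intro h2
    rcases lt_or_gt_of_ne h with h1 | h1
    · exact ⟨⟨(x, x'), h1⟩, by simpa [Cells.gr] using h2, Or.inl rfl⟩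
    · exact ⟨⟨(x', x), h1⟩, by simpa [Cells.gr] using C.symm h2, Or.inr rfl⟩

theorem Cells.clq_of (C : Cells n I 𝒦) (Y : Fin 2 → I → Bool) (h : ∀ i, ∃ t, Y t i = true) :
    Clq (C.gr Y) := by
  classical
  choose c hc using h
  obtain ⟨s, hs⟩ := C.choice c
  have hinj : Function.Injective fun κ => C.u κ (s κ) := fun κ κ' h => C.disj κ κ' _ _ h
  refine ⟨C.R ∪ univ.image fun κ => C.u κ (s κ), ?_, ?_⟩
  · intro x hx x' hx' hne
    rw [C.adj Y x x' hne]
    simp only [coe_union, Set.mem_union, mem_coe, mem_image, mem_univ, true_and] at hx hx'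
    rcases hx with hx | ⟨κ, rfl⟩
    · exact Or.inl hx
    · rcases hx' with hx' | ⟨κ', rfl⟩
      · exact Or.inr (Or.inl hx')
      · have hκ : κ ≠ κ' := by
          rintro rfl
          exact hne rfl
        refine Or.inr (Or.inr ?_)
        by_cases hi : ∃ i, κ = C.f i ∧ κ' = C.g i ∨ κ = C.g i ∧ κ' = C.f i
        · obtain ⟨i, hi⟩ := hi
          refine ⟨κ, κ', c i, c i, hκ, ?_, ?_, fun i' hi' => ⟨rfl, ?_⟩⟩
          · rcases hi with ⟨h1, h2⟩ | ⟨h1, h2⟩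
            · rw [h1]
              exact (hs i).1
            · rw [h1]
              exact (hs i).2
          · rcases hi with ⟨h1, h2⟩ | ⟨h1, h2⟩
            · rw [h2]
              exact (hs i).2
            · rw [h2]
              exact (hs i).1
          · have h3 : i = i' := by
              refine C.uniq i i' ?_
              rcases hi with ⟨h1, h2⟩ | ⟨h1, h2⟩ <;> rcases hi' with ⟨h3, h4⟩ | ⟨h3, h4⟩
              · exact Or.inl ⟨h1.symm.trans h3, h2.symm.trans h4⟩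
              · exact Or.inr ⟨h1.symm.trans h3, h2.symm.trans h4⟩
              · exact Or.inr ⟨h2.symm.trans h4, h1.symm.trans h3⟩
              · exact Or.inl ⟨h2.symm.trans h4, h1.symm.trans h3⟩
            rw [← h3]
            exact hc i
        · exact ⟨κ, κ', s κ, s κ', hκ, rfl, rfl, fun i h => (hi ⟨i, h⟩).elim⟩
  · have hdisj : Disjoint C.R (univ.image fun κ => C.u κ (s κ)) := by
      rw [disjoint_left]
      intro x hx hx'
      obtain ⟨κ, -, rfl⟩ := mem_image.1 hx'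
      exact C.hR κ _ hx
    rw [card_union_of_disjoint hdisj, card_image_of_injective _ hinj, card_univ, C.card]
    push_cast
    exact Real.real_sqrt_lt_nat_sqrt_succ

theorem Cells.on_of_clq (C : Cells n I 𝒦) (Y : Fin 2 → I → Bool) (h : Clq (C.gr Y)) (i : I) :
    ∃ t, Y t i = true := by
  classical
  obtain ⟨Q, hQ, hcard⟩ := h
  have h1 : Nat.sqrt n + 1 ≤ Q.card := by
    have h2 : ((Nat.sqrt n : ℕ) : ℝ) < Q.card := lt_of_le_of_lt (Real.nat_sqrt_le_real_sqrt) hcard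
    exact_mod_cast h2
  have h2 : Fintype.card 𝒦 ≤ (Q \ C.R).card := by
    have h3 := le_card_sdiff C.R Q
    have h4 := C.card
    omega
  have hK : 2 ≤ Fintype.card 𝒦 :=
    Fintype.one_lt_card_iff.2 ⟨C.f i, C.g i, C.fg i⟩
  have hadj : ∀ x ∈ Q \ C.R, ∀ x' ∈ Q \ C.R, x ≠ x' →
      ∃ κ κ' t t', κ ≠ κ' ∧ x = C.u κ t ∧ x' = C.u κ' t' ∧
        ∀ i, (κ = C.f i ∧ κ' = C.g i ∨ κ = C.g i ∧ κ' = C.f i) → t = t' ∧ Y t i = true := by
    intro x hx x' hx' hne
    obtain ⟨hx1, hx2⟩ := mem_sdiff.1 hx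
    obtain ⟨hx3, hx4⟩ := mem_sdiff.1 hx'
    rcases (C.adj Y x x' hne).1 (hQ (by exact_mod_cast hx1) (by exact_mod_cast hx3) hne) with
      h | h | h
    · exact absurd h hx2
    · exact absurd h hx4
    · exact h
  have hcell : ∀ x ∈ Q \ C.R, ∃ κ t, x = C.u κ t := by
    intro x hx
    obtain ⟨y, hy, hyx⟩ := exists_mem_ne (show 1 < (Q \ C.R).card by omega) x
    obtain ⟨κ, κ', t, t', -, h3, -, -⟩ := hadj x hx y hy hyx.symm
    exact ⟨κ, t, h3⟩
  have hsurj : ∀ κ : 𝒦, ∃ x ∈ Q \ C.R, ∃ t, x = C.u κ t := by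
    by_contra hc
    obtain ⟨κ₀, hκ₀⟩ : ∃ κ₀ : 𝒦, ∀ x ∈ Q \ C.R, ∀ t, x ≠ C.u κ₀ t := by
      by_contra h
      refine hc fun κ => ?_
      by_contra h3
      exact h ⟨κ, fun x hx t ht => h3 ⟨x, hx, t, ht⟩⟩
    choose cl tt hcl using hcell
    have h3 : Fintype.card ↥(Q \ C.R) ≤ Fintype.card {κ : 𝒦 // κ ≠ κ₀} := by
      refine Fintype.card_le_of_injective
        (fun x => (⟨cl x.1 x.2, fun h => hκ₀ x.1 x.2 (tt x.1 x.2) (h ▸ hcl x.1 x.2)⟩ :
          {κ : 𝒦 // κ ≠ κ₀})) ?_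
      intro x x' hxx
      by_contra hne
      have hne2 : x.1 ≠ x'.1 := fun h => hne (Subtype.ext h)
      obtain ⟨κ, κ', t, t', h4, h5, h6, -⟩ := hadj x.1 x.2 x'.1 x'.2 hne2
      have h7 : cl x.1 x.2 = κ := C.disj _ _ _ _ ((hcl x.1 x.2).symm.trans h5)
      have h8 : cl x'.1 x'.2 = κ' := C.disj _ _ _ _ ((hcl x'.1 x'.2).symm.trans h6)
      have h9 : cl x.1 x.2 = cl x'.1 x'.2 := congrArg Subtype.val hxx
      exact h4 (h7.symm.trans (h9.trans h8))
    rw [Fintype.card_coe, Fintype.card_subtype_compl, Fintype.card_subtype_eq] at h3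
    omega
  obtain ⟨x, hx, t, rfl⟩ := hsurj (C.f i)
  obtain ⟨x', hx', t', rfl⟩ := hsurj (C.g i)
  obtain ⟨κ, κ', s, s', h3, h4, h5, h6⟩ := hadj _ hx _ hx'
    fun h => C.fg i (C.disj _ _ _ _ h)
  have h7 : C.f i = κ := C.disj _ _ _ _ h4
  have h8 : C.g i = κ' := C.disj _ _ _ _ h5
  exact ⟨s, (h6 i (Or.inl ⟨h7.symm, h8.symm⟩)).2⟩

theorem Cells.indep (C : Cells n I 𝒦) (Y Y' : Fin 2 → I → Bool) (e : EdgeVar n)
    (h : C.gr Y e ≠ C.gr Y' e) :
    ∃ t i, Y t i ≠ Y' t i ∧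
      (e.1 = (C.u (C.f i) t, C.u (C.g i) t) ∨ e.1 = (C.u (C.g i) t, C.u (C.f i) t)) := by
  classical
  have key : ∀ Y Y' : Fin 2 → I → Bool, C.Adj Y e.1.1 e.1.2 → ¬ C.Adj Y' e.1.1 e.1.2 →
      ∃ t i, Y t i ≠ Y' t i ∧
      (e.1 = (C.u (C.f i) t, C.u (C.g i) t) ∨ e.1 = (C.u (C.g i) t, C.u (C.f i) t)) := by
    intro Y Y' h1 h2
    rcases h1 with h1 | h1 | ⟨κ, κ', t, t', h3, h4, h5, h6⟩
    · exact (h2 (Or.inl h1)).elim
    · exact (h2 (Or.inr (Or.inl h1))).elim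
    · by_cases h7 : ∀ i, (κ = C.f i ∧ κ' = C.g i ∨ κ = C.g i ∧ κ' = C.f i) →
          t = t' ∧ Y' t i = true
      · exact (h2 (Or.inr (Or.inr ⟨κ, κ', t, t', h3, h4, h5, h7⟩))).elim
      · obtain ⟨i, hi⟩ := not_forall.1 h7
        obtain ⟨hi1, hi2⟩ := Classical.not_imp.1 hi
        obtain ⟨h8, h9⟩ := h6 i hi1
        refine ⟨t, i, ?_, ?_⟩
        · intro h10
          exact hi2 ⟨h8, h10 ▸ h9⟩
        · subst h8
          rcases hi1 with ⟨h11, h12⟩ | ⟨h11, h12⟩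
          · left
            rw [← h11, ← h12, ← h4, ← h5]
          · right
            rw [← h11, ← h12, ← h4, ← h5]
  unfold Cells.gr at h
  by_cases h1 : C.Adj Y e.1.1 e.1.2
  · by_cases h2 : C.Adj Y' e.1.1 e.1.2
    · simp [h1, h2] at h
    · exact key Y Y' h1 h2
  · by_cases h2 : C.Adj Y' e.1.1 e.1.2
    · obtain ⟨t, i, h3, h4⟩ := key Y' Y h2 h1
      exact ⟨t, i, h3.symm, h4⟩
    · simp [h1, h2] at h

end Pool.Agent.RT
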