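import Mathlib
import Pool.Agent.Lib.MP_0a1b52_lc_RP.ColA

/-!
# How often a circuit reads its variables, module ColP: colouring the blocks inside a set
-/

set_option autoImplicit false

namespace Pool.Agent.RT

open Finset

private theorem sum_toFinset_le {α : Type} [DecidableEq α] (f : α → ℕ) (l : List α) :
    ∑ b ∈ l.toFinset, f b ≤ (l.map f).sum := by
  induction l with
  | nil => simp
  | cons a l ih =>
    rw [List.toFinset_cons, List.map_cons, List.sum_cons]
    by_cases h : a ∈ l.toFinset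
    · rw [insert_eq_of_mem h]
      exact ih.trans (Nat.le_add_left _ _)
    · rw [sum_insert h]
      exact Nat.add_le_add_left ih _

/-- three classes: every block of the list lies in one of the sets `W a`, and each class has many
private elements in `E` -/
theorem colourP {V : Type} [Fintype V] [DecidableEq V] (E : Finset V) (Bs : List (Finset V))
    (m τ : ℕ) (h1 : ∀ B ∈ Bs, (B ∩ E).card ≤ τ)
    (h2 : (Bs.map fun B => (B ∩ E).card).sum ≤ m * E.card) (h3 : 12 * τ * m ≤ E.card) :
    ∃ W : Fin 3 → Set V, (∀ B ∈ Bs, ∃ a, ∀ v ∈ B, v ∈ W a) ∧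
      ∀ t, E.card ≤ 5 * 27 ^ (4 * m) * Nat.card {e // ∀ a, a ≠ t → e ∉ W a} := by
  classical
  let blk : Finset V → Finset {x // x ∈ E} := fun B => univ.filter fun e => (e : V) ∈ B
  have hblk : ∀ B, (blk B).card = (B ∩ E).card := by
    intro B
    rw [← card_map (Function.Embedding.subtype fun x => x ∈ E)]
    congr 1
    ext v
    simp only [blk, mem_map, mem_filter, mem_univ, true_and, Function.Embedding.coe_subtype,
      mem_inter]
    constructor
    · rintro ⟨e, he, rfl⟩
      exact ⟨he, e.2⟩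
    · rintro ⟨hv, hE⟩
      exact ⟨⟨v, hE⟩, hv, rfl⟩
  let β : Finset (Finset {x // x ∈ E}) := (Bs.map blk).toFinset
  have hβ : ∀ b ∈ β, ∃ B ∈ Bs, blk B = b := by
    intro b hb
    rw [List.mem_toFinset, List.mem_map] at hb
    exact hb
  have hcardE : Fintype.card {x // x ∈ E} = E.card := Fintype.card_coe E
  have hsum : ∑ b ∈ β, b.card ≤ m * E.card := by
    refine (sum_toFinset_le _ _).trans ?_
    rw [List.map_map]
    refine le_trans (le_of_eq ?_) h2
    congr 1
    exact List.map_congr_left fun B _ => hblk B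
  obtain ⟨κ, hκ⟩ := Pool.Agent.RP.colour_comb β (4 * m) τ
    (fun b hb => by
      obtain ⟨B, hB, rfl⟩ := hβ b hb
      rw [hblk]
      exact h1 B hB)
    (by
      rw [hcardE]
      calc 4 * ∑ b ∈ β, b.card ≤ 4 * (m * E.card) := Nat.mul_le_mul_left _ hsum
        _ = 4 * m * E.card := by ring
        _ ≤ (4 * m + 1) * E.card := Nat.mul_le_mul_right _ (Nat.le_succ _))
    (by
      rw [hcardE]
      calc 12 * τ * ∑ b ∈ β, b.card ≤ 12 * τ * (m * E.card) := Nat.mul_le_mul_left _ hsum
        _ = 12 * τ * m * E.card := by ring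
        _ ≤ E.card * E.card := Nat.mul_le_mul_right _ h3
        _ = E.card ^ 2 := by ring)
  refine ⟨fun a => {v | v ∈ E → ∃ B ∈ Bs, v ∈ B ∧ κ (blk B) = a}, ?_, ?_⟩
  · intro B hB
    exact ⟨κ (blk B), fun v hv _ => ⟨B, hB, hv, rfl⟩⟩
  · intro t
    refine (le_of_eq hcardE.symm).trans ((hκ t).trans (Nat.mul_le_mul_left _ ?_))
    rw [Nat.card_eq_fintype_card, Fintype.card_subtype]
    refine card_le_card_of_injOn (fun e : {x // x ∈ E} => (e : V)) ?_
      (Subtype.val_injective.injOn)
    intro e he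
    have he' : ∀ B ∈ β, e ∈ B → κ B = t := (mem_filter.1 (mem_coe.1 he)).2
    rw [mem_coe, mem_filter]
    refine ⟨mem_univ _, fun a ha hW => ?_⟩
    obtain ⟨B, hB, heB, hκB⟩ := hW e.2
    refine ha (hκB.symm.trans (he' (blk B) ?_ ?_))
    · rw [List.mem_toFinset, List.mem_map]
      exact ⟨B, hB, rfl⟩
    · exact mem_filter.2 ⟨mem_univ _, heB⟩

end Pool.Agent.RT
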