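import Mathlib
import Pool.Agent.Lib.MP_0a1b52_lc_RT.Dec
import Pool.Agent.Lib.MP_0a1b52_lc_RT.Rej
import Pool.Agent.Lib.MP_0a1b52_lc_RT.ColP
import Pool.Agent.Lib.MP_0a1b52_lc_RP.Cov

/-!
# How often a circuit reads its variables, module CoreB: the union bound
-/

set_option autoImplicit false

namespace Pool.Agent.RT

open Finset Pool.Agent.FP Pool.Agent.RP

theorem exists_code {α : Type} : ∀ (P : List α) (R : ℕ), P.length ≤ R →
    ∃ f : Fin R → Option α, (List.ofFn f).reduceOption = P
  | [], R, _ => ⟨fun _ => none, by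
      rw [List.ofFn_const]
      induction R with
      | zero => rfl
      | succ R ih => simp⟩
  | a :: P, 0, h => absurd h (by simp)
  | a :: P, R + 1, h => by
      obtain ⟨f, hf⟩ := exists_code P R (by simpa using h)
      refine ⟨Fin.cons (some a) f, ?_⟩
      rw [List.ofFn_succ]
      simp only [Fin.cons_zero, Fin.cons_succ]
      rw [List.reduceOption_cons_of_some, hf]

theorem core_bound {V : Type} [Fintype V] [DecidableEq V] {s : ℕ} (D : Circuit V s) (E : Finset V)
    (m τ R : ℕ) (hτ : 1 ≤ τ) (hm : ∀ e ∈ E, ∀ L, Tree D D.out L → L.count e ≤ m)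
    (hR : 8 * (m * E.card) ≤ R * (τ + 1)) (hR1 : 1 ≤ R) (h3 : 12 * τ * m ≤ E.card) {N : ℕ}
    (Q : Fin N → V → Bool) (b : ℝ) (hb : 0 ≤ b)
    (hE : ∀ W : Fin 3 → Set V,
      (∀ t, E.card ≤ 5 * 27 ^ (4 * m) * Nat.card {e // ∀ a, a ≠ t → e ∉ W a}) →
      ∀ T : (V → Bool) → Prop, StarW W T → (∀ x, T x → ¬ D.Accepts x) →
        (Nat.card {i // T (Q i)} : ℝ) ≤ b) :
    (Nat.card {i // ¬ D.Accepts (Q i)} : ℝ) ≤
      (((s * (s + 1) + 1) ^ R * (16 * s) ^ (4 * R + 3) : ℕ) : ℝ) * b := by
  classical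
  let Pf : (Fin R → Option (Fin s × Option (Fin s))) → List (Fin s × Option (Fin s)) :=
    fun f => (List.ofFn f).reduceOption
  let good : (Fin R → Option (Fin s × Option (Fin s))) → Prop := fun f =>
    (∀ p ∈ Pf f, (vars D p ∩ E).card ≤ τ) ∧
      ((Pf f).map fun p => (vars D p ∩ E).card).sum ≤ m * E.card
  let A : (Fin R → Option (Fin s × Option (Fin s))) → Finset (Fin N) := fun f =>
    univ.filter fun i => good f ∧ ∃ Ls : List (List V), Ls.length ≤ R ∧
      D.Refutes (Q i) D.out Ls.flatten ∧ ∀ l ∈ Ls, ∃ p ∈ Pf f, ∀ v ∈ l, v ∈ vars D p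
  have hsub : (univ.filter fun i => ¬ D.Accepts (Q i)) ⊆ univ.biUnion A := by
    intro i hi
    obtain ⟨L, hL⟩ := rejects D (Q i) (mem_filter.1 hi).2
    obtain ⟨Ls, P, h1, h2, h4, h5, h6, h7⟩ :=
      decomp E hτ hm hR hR1 (tree_of_refutes hL)
    obtain ⟨f, hf⟩ := exists_code P R h4
    refine mem_biUnion.2 ⟨f, mem_univ _, mem_filter.2 ⟨mem_univ _, ?_, Ls, h2, h1 ▸ hL, ?_⟩⟩
    · simp only [good, Pf, hf]
      exact ⟨h6, h7⟩
    · simp only [Pf, hf]
      exact h5
  have hA : ∀ f, ((A f).card : ℝ) ≤ (((16 * s) ^ (4 * R + 3) : ℕ) : ℝ) * b := by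
    intro f
    by_cases hg : good f
    · obtain ⟨W, hW1, hW2⟩ := colourP E ((Pf f).map (vars D)) m τ
        (by
          intro B hB
          obtain ⟨p, hp, rfl⟩ := List.mem_map.1 hB
          exact hg.1 p hp)
        (by
          rw [List.map_map]
          exact hg.2) h3
      obtain ⟨K, T, hK, hT1, hT2, hT3⟩ := cover D W R
      have hAT : A f ⊆ univ.biUnion fun θ : Fin K => univ.filter fun i => T θ (Q i) := by
        intro i hi
        obtain ⟨-, -, Ls, hl1, hl2, hl3⟩ := mem_filter.1 hi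
        obtain ⟨θ, hθ⟩ := hT3 (Q i) ⟨Ls ++ List.replicate (R - Ls.length) [], by
            rw [List.length_append, List.length_replicate]
            omega, by
            rw [List.flatten_append, List.flatten_replicate_nil, List.append_nil]
            exact hl2, by
            intro l hl
            rcases List.mem_append.1 hl with hl | hl
            · obtain ⟨p, hp, hpl⟩ := hl3 l hl
              obtain ⟨a, ha⟩ := hW1 (vars D p) (List.mem_map.2 ⟨p, hp, rfl⟩)
              exact ⟨a, fun v hv => ha v (hpl v hv)⟩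
            · rw [List.eq_of_mem_replicate hl]
              exact ⟨0, by simp⟩⟩
        exact mem_biUnion.2 ⟨θ, mem_univ _, mem_filter.2 ⟨mem_univ _, hθ⟩⟩
      have h9 : ((A f).card : ℝ) ≤ ∑ θ : Fin K, ((univ.filter fun i => T θ (Q i)).card : ℝ) := by
        have := (card_le_card hAT).trans card_biUnion_le
        exact_mod_cast this
      refine h9.trans ?_
      calc ∑ θ : Fin K, ((univ.filter fun i => T θ (Q i)).card : ℝ) ≤ ∑ _θ : Fin K, b := by
            refine sum_le_sum fun θ _ => ?_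
            have := hE W hW2 (T θ) (hT1 θ) (hT2 θ)
            rwa [Nat.card_eq_fintype_card, Fintype.card_subtype] at this
        _ = K * b := by rw [sum_const, card_univ, Fintype.card_fin, nsmul_eq_mul]
        _ ≤ _ := mul_le_mul_of_nonneg_right (by exact_mod_cast hK) hb
    · have : A f = ∅ := by
        rw [filter_eq_empty_iff]
        rintro i - ⟨h, -⟩
        exact hg h
      rw [this, card_empty, Nat.cast_zero]
      positivity
  have hcard : Fintype.card (Fin R → Option (Fin s × Option (Fin s))) = (s * (s + 1) + 1) ^ R := by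
    simp
  rw [Nat.card_eq_fintype_card, Fintype.card_subtype]
  have h10 : ((univ.filter fun i => ¬ D.Accepts (Q i)).card : ℝ) ≤
      ∑ f, ((A f).card : ℝ) := by
    have := (card_le_card hsub).trans card_biUnion_le
    exact_mod_cast this
  refine h10.trans ((sum_le_sum fun f _ => hA f).trans (le_of_eq ?_))
  rw [sum_const, card_univ, hcard, nsmul_eq_mul]
  push_cast
  ring

end Pool.Agent.RT
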