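import Mathlib
import Pool.Agent.Lib.MP_0a1b52_lc_FP.Defs

/-!
# A circuit for the clique function: the disjunction over the vertex sets with `√n + 1` elements
-/

set_option autoImplicit false

namespace Pool.Agent.RT

open Finset Pool.Agent.FP

/-- some circuit with at most `b` gates computes `F` -/
private def Cq (V : Type) (b : ℕ) (F : (V → Bool) → Bool) : Prop :=
  ∃ s ≤ b, ∃ D : Circuit V s, ∀ x, (∃ val, D.IsEval x val) ∧
    ∀ val, D.IsEval x val → val D.out = F x

/-- two circuits side by side and a further gate -/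
private def joinC {V : Type} {s t : ℕ} (D : Circuit V s) (E : Circuit V t) (isAnd : Bool) :
    Circuit V (s + t + 1) where
  gate := Fin.lastCases
    (if isAnd then .and (Fin.castSucc (Fin.castAdd t D.out)) (Fin.castSucc (Fin.natAdd s E.out))
      else .or (Fin.castSucc (Fin.castAdd t D.out)) (Fin.castSucc (Fin.natAdd s E.out)))
    (fun g => Fin.addCases
      (fun g => match D.gate g with
        | .lit v b => .lit v b
        | .and i j => .and (Fin.castSucc (Fin.castAdd t i)) (Fin.castSucc (Fin.castAdd t j))
        | .or i j => .or (Fin.castSucc (Fin.castAdd t i)) (Fin.castSucc (Fin.castAdd t j)))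
      (fun g => match E.gate g with
        | .lit v b => .lit v b
        | .and i j => .and (Fin.castSucc (Fin.natAdd s i)) (Fin.castSucc (Fin.natAdd s j))
        | .or i j => .or (Fin.castSucc (Fin.natAdd s i)) (Fin.castSucc (Fin.natAdd s j))) g)
  and_lt := by
    intro g i j
    refine Fin.lastCases ?_ (fun g => ?_) g
    · rw [Fin.lastCases_last]
      split_ifs
      · intro h
        obtain ⟨rfl, rfl⟩ := Gate.and.inj h
        exact ⟨Fin.castSucc_lt_last _, Fin.castSucc_lt_last _⟩
      · intro h
        exact absurd h (by simp)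
    · rw [Fin.lastCases_castSucc]
      refine Fin.addCases (fun g => ?_) (fun g => ?_) g
      · rw [Fin.addCases_left]
        cases hg : D.gate g with
        | lit v b => intro h; exact absurd h (by simp)
        | or a b => intro h; exact absurd h (by simp)
        | and a b =>
          intro h
          obtain ⟨rfl, rfl⟩ := Gate.and.inj h
          have h1 := D.and_lt g a b hg
          simp only [Fin.lt_def, Fin.val_castSucc, Fin.val_castAdd] at h1 ⊢
          exact h1
      · rw [Fin.addCases_right]
        cases hg : E.gate g with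
        | lit v b => intro h; exact absurd h (by simp)
        | or a b => intro h; exact absurd h (by simp)
        | and a b =>
          intro h
          obtain ⟨rfl, rfl⟩ := Gate.and.inj h
          have h1 := E.and_lt g a b hg
          simp only [Fin.lt_def, Fin.val_castSucc, Fin.val_natAdd] at h1 ⊢
          omega
  or_lt := by
    intro g i j
    refine Fin.lastCases ?_ (fun g => ?_) g
    · rw [Fin.lastCases_last]
      split_ifs
      · intro h
        exact absurd h (by simp)
      · intro h
        obtain ⟨rfl, rfl⟩ := Gate.or.inj h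
        exact ⟨Fin.castSucc_lt_last _, Fin.castSucc_lt_last _⟩
    · rw [Fin.lastCases_castSucc]
      refine Fin.addCases (fun g => ?_) (fun g => ?_) g
      · rw [Fin.addCases_left]
        cases hg : D.gate g with
        | lit v b => intro h; exact absurd h (by simp)
        | and a b => intro h; exact absurd h (by simp)
        | or a b =>
          intro h
          obtain ⟨rfl, rfl⟩ := Gate.or.inj h
          have h1 := D.or_lt g a b hg
          simp only [Fin.lt_def, Fin.val_castSucc, Fin.val_castAdd] at h1 ⊢
          exact h1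
      · rw [Fin.addCases_right]
        cases hg : E.gate g with
        | lit v b => intro h; exact absurd h (by simp)
        | and a b => intro h; exact absurd h (by simp)
        | or a b =>
          intro h
          obtain ⟨rfl, rfl⟩ := Gate.or.inj h
          have h1 := E.or_lt g a b hg
          simp only [Fin.lt_def, Fin.val_castSucc, Fin.val_natAdd] at h1 ⊢
          omega
  out := Fin.last _

private theorem Cq.join {V : Type} {b c : ℕ} {F H : (V → Bool) → Bool} (hF : Cq V b F)
    (hH : Cq V c H) (isAnd : Bool) :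
    Cq V (b + c + 1) fun x => if isAnd then F x && H x else F x || H x := by
  obtain ⟨s, hs, D, hD⟩ := hF
  obtain ⟨t, ht, E, hE⟩ := hH
  refine ⟨s + t + 1, by omega, joinC D E isAnd, fun x => ⟨?_, ?_⟩⟩
  · obtain ⟨v, hv⟩ := (hD x).1
    obtain ⟨w, hw⟩ := (hE x).1
    refine ⟨Fin.lastCases (if isAnd then v D.out && w E.out else v D.out || w E.out)
      (Fin.addCases v w), fun g => ?_⟩
    refine Fin.lastCases ?_ (fun g => ?_) g
    · unfold joinC
      dsimp only
      rw [Fin.lastCases_last, Fin.lastCases_last]
      cases isAnd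
      · simp only [Bool.false_eq_true, if_false, Fin.lastCases_castSucc, Fin.addCases_left,
          Fin.addCases_right]
      · simp only [if_true, Fin.lastCases_castSucc, Fin.addCases_left, Fin.addCases_right]
    · unfold joinC
      dsimp only
      rw [Fin.lastCases_castSucc, Fin.lastCases_castSucc]
      refine Fin.addCases (fun g => ?_) (fun g => ?_) g
      · rw [Fin.addCases_left, Fin.addCases_left, hv g]
        cases D.gate g <;> simp only [Fin.lastCases_castSucc, Fin.addCases_left]
      · rw [Fin.addCases_right, Fin.addCases_right, hw g]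
        cases E.gate g <;> simp only [Fin.lastCases_castSucc, Fin.addCases_right]
  · intro val hval
    have hv : D.IsEval x fun g => val (Fin.castSucc (Fin.castAdd t g)) := by
      intro g
      have h := hval (Fin.castSucc (Fin.castAdd t g))
      unfold joinC at h
      dsimp only at h
      rw [Fin.lastCases_castSucc, Fin.addCases_left] at h
      dsimp only
      rw [h]
      cases D.gate g <;> rfl
    have hw : E.IsEval x fun g => val (Fin.castSucc (Fin.natAdd s g)) := by
      intro g
      have h := hval (Fin.castSucc (Fin.natAdd s g))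
      unfold joinC at h
      dsimp only at h
      rw [Fin.lastCases_castSucc, Fin.addCases_right] at h
      dsimp only
      rw [h]
      cases E.gate g <;> rfl
    have h1 := (hD x).2 _ hv
    have h2 := (hE x).2 _ hw
    have h := hval (Fin.last _)
    unfold joinC at h ⊢
    dsimp only at h ⊢
    rw [Fin.lastCases_last] at h
    rw [h, ← h1, ← h2]
    cases isAnd
    · simp
    · simp

private theorem Cq.lit {V : Type} (v : V) : Cq V 1 fun x => x v := by
  refine ⟨1, le_rfl, ⟨fun _ => .lit v true, fun g i j h => absurd h (by simp),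
    fun g i j h => absurd h (by simp), 0⟩, fun x => ⟨⟨fun _ => x v, fun g => by simp⟩, ?_⟩⟩
  intro val hval
  have := hval 0
  simpa using this

private theorem Cq.all {V : Type} (l : List V) (hl : l ≠ []) :
    Cq V (2 * l.length) fun x => l.all x := by
  induction l with
  | nil => exact absurd rfl hl
  | cons v l ih =>
    rcases eq_or_ne l [] with rfl | h
    · obtain ⟨s, hs, D, hD⟩ := Cq.lit v
      refine ⟨s, by simp; omega, D, fun x => ⟨(hD x).1, fun val hval => ?_⟩⟩
      rw [(hD x).2 val hval]
      simp
    · obtain ⟨s, hs, D, hD⟩ := (Cq.lit v).join (ih h) true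
      refine ⟨s, by simp only [List.length_cons]; omega, D, fun x => ⟨(hD x).1, fun val hval => ?_⟩⟩
      rw [(hD x).2 val hval]
      simp

private theorem Cq.any {V : Type} (b : ℕ) (l : List ((V → Bool) → Bool)) (hl : l ≠ [])
    (hF : ∀ F ∈ l, Cq V b F) : Cq V (l.length * (b + 1)) fun x => l.any fun F => F x := by
  induction l with
  | nil => exact absurd rfl hl
  | cons F l ih =>
    rcases eq_or_ne l [] with rfl | h
    · obtain ⟨s, hs, D, hD⟩ := hF F (by simp)
      refine ⟨s, by simp; omega, D, fun x => ⟨(hD x).1, fun val hval => ?_⟩⟩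
      rw [(hD x).2 val hval]
      simp
    · obtain ⟨s, hs, D, hD⟩ := (hF F (by simp)).join
        (ih h fun G hG => hF G (by simp [hG])) false
      refine ⟨s, hs.trans (le_of_eq ?_), D, fun x => ⟨(hD x).1, fun val hval => ?_⟩⟩
      · simp only [List.length_cons]
        ring
      · rw [(hD x).2 val hval]
        simp

/-- the variables inside a set of vertices -/
private def inside {n : ℕ} (S : Finset (Fin n)) : Finset (EdgeVar n) :=
  univ.filter fun e => e.1.1 ∈ S ∧ e.1.2 ∈ S

private theorem inside_card {n : ℕ} (S : Finset (Fin n)) : (inside S).card ≤ S.card * S.card := by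
  rw [← card_product]
  refine card_le_card_of_injOn (fun e => e.1) (fun e he => ?_) (fun e _ e' _ h => Subtype.ext h)
  have h := (mem_filter.1 he).2
  exact mem_product.2 h

private theorem inside_ne {n : ℕ} {S : Finset (Fin n)} (hS : 2 ≤ S.card) :
    (inside S).toList ≠ [] := by
  obtain ⟨u, hu, v, hv, huv⟩ := one_lt_card.1 (show 1 < S.card by omega)
  rcases lt_or_gt_of_ne huv with h | h
  · exact List.ne_nil_of_mem (mem_toList.2 (mem_filter.2
      ⟨mem_univ (⟨(u, v), h⟩ : EdgeVar n), hu, hv⟩))
  · exact List.ne_nil_of_mem (mem_toList.2 (mem_filter.2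
      ⟨mem_univ (⟨(v, u), h⟩ : EdgeVar n), hv, hu⟩))

private theorem clique_iff {n : ℕ} (x : EdgeVar n → Bool) (S : Finset (Fin n)) :
    (graphOf x).IsClique (S : Set (Fin n)) ↔ (inside S).toList.all x = true := by
  rw [List.all_eq_true]
  constructor
  · intro h e he
    have h1 := (mem_filter.1 (mem_toList.1 he)).2
    obtain ⟨e', h2, h3⟩ := h (mem_coe.2 h1.1) (mem_coe.2 h1.2) (ne_of_lt e.2)
    have h4 : e' = e := by
      rcases h3 with h3 | h3
      · exact Subtype.ext h3
      · have h5 := e'.2
        rw [h3] at h5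
        exact absurd e.2 (lt_asymm h5)
    rw [← h4, h2]
  · intro h u hu v hv huv
    rcases lt_or_gt_of_ne huv with h1 | h1
    · exact ⟨⟨(u, v), h1⟩, h _ (mem_toList.2 (mem_filter.2 ⟨mem_univ _, mem_coe.1 hu,
        mem_coe.1 hv⟩)), Or.inl rfl⟩
    · exact ⟨⟨(v, u), h1⟩, h _ (mem_toList.2 (mem_filter.2 ⟨mem_univ _, mem_coe.1 hv,
        mem_coe.1 hu⟩)), Or.inr rfl⟩

private theorem clq_iff {n : ℕ} (x : EdgeVar n → Bool) :
    Clq x ↔ ∃ S ∈ powersetCard (Nat.sqrt n + 1) (univ : Finset (Fin n)),
      (inside S).toList.all x = true := by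
  have hsq : ∀ k : ℕ, Real.sqrt n < k ↔ Nat.sqrt n + 1 ≤ k := by
    intro k
    rcases Nat.eq_zero_or_pos k with h | h
    · subst h
      constructor
      · intro h
        exact absurd h (not_lt.2 (by simp))
      · intro h
        omega
    · rw [Real.sqrt_lt' (by exact_mod_cast h), Nat.succ_le_iff, Nat.sqrt_lt']
      exact_mod_cast Iff.rfl
  constructor
  · rintro ⟨K, hK, hc⟩
    obtain ⟨S, hSK, hS⟩ := exists_subset_card_eq ((hsq _).1 hc)
    exact ⟨S, mem_powersetCard.2 ⟨subset_univ _, hS⟩,
      (clique_iff x S).1 (hK.subset (coe_subset.2 hSK))⟩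
  · rintro ⟨S, hS, h⟩
    exact ⟨S, (clique_iff x S).2 h, (hsq _).2 (mem_powersetCard.1 hS).2.ge⟩

/-- **A circuit for the clique function.** -/
theorem dnf : ∃ n₀ : ℕ, ∀ n ≥ n₀, ∃ (s : ℕ) (D : Circuit (EdgeVar n) s),
    s ≤ n ^ (Nat.sqrt n + 4) ∧ ∀ x, D.Accepts x ↔ Clq x := by
  refine ⟨16, fun n hn => ?_⟩
  set k := Nat.sqrt n + 1 with hk
  have hsn : Nat.sqrt n * Nat.sqrt n ≤ n := Nat.sqrt_le n
  have hk1 : 2 ≤ k := by
    have h1 : 1 ≤ Nat.sqrt n := Nat.sqrt_pos.2 (by omega)
    omega
  have hkn : k ≤ n := by
    have h1 : Nat.sqrt n < n := Nat.sqrt_lt_self (by omega)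
    omega
  set l : List ((EdgeVar n → Bool) → Bool) :=
    (powersetCard k (univ : Finset (Fin n))).toList.map fun S x => (inside S).toList.all x with hl
  have hl0 : l ≠ [] := by
    obtain ⟨S, -, hS⟩ := exists_subset_card_eq (s := (univ : Finset (Fin n))) (n := k)
      (by rwa [card_univ, Fintype.card_fin])
    rw [hl]
    intro h
    have h1 := List.map_eq_nil_iff.1 h
    have h2 : S ∈ (powersetCard k (univ : Finset (Fin n))).toList :=
      mem_toList.2 (mem_powersetCard.2 ⟨subset_univ _, hS⟩)
    rw [h1] at h2
    exact absurd h2 (by simp)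
  have hl1 : l.length ≤ n ^ k := by
    rw [hl, List.length_map, length_toList, card_powersetCard, card_univ, Fintype.card_fin]
    exact Nat.choose_le_pow _ _
  have hF : ∀ F ∈ l, Cq (EdgeVar n) (2 * (k * k)) F := by
    intro F hF
    obtain ⟨S, hS, rfl⟩ := List.mem_map.1 hF
    have hSc := (mem_powersetCard.1 (mem_toList.1 hS)).2
    obtain ⟨s, hs, D, hD⟩ := Cq.all (inside S).toList (inside_ne (by omega))
    refine ⟨s, hs.trans ?_, D, hD⟩
    rw [length_toList]
    have := inside_card S
    rw [hSc] at this
    omega
  obtain ⟨s, hs, D, hD⟩ := Cq.any (2 * (k * k)) l hl0 hF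
  refine ⟨s, D, ?_, fun x => ?_⟩
  · have h1 : 2 * (k * k) + 1 ≤ n ^ 3 := by
      have h2 : k * k ≤ 3 * n + 1 := by
        rw [hk]
        have h3 : Nat.sqrt n ≤ n := Nat.sqrt_le_self n
        nlinarith
      have h4 : 16 * 16 * n ≤ n ^ 3 := by
        rw [pow_succ, pow_two]
        exact Nat.mul_le_mul_right n (Nat.mul_le_mul hn hn)
      omega
    calc s ≤ l.length * (2 * (k * k) + 1) := hs
      _ ≤ n ^ k * n ^ 3 := Nat.mul_le_mul hl1 h1
      _ = n ^ (Nat.sqrt n + 4) := by rw [← pow_add, hk]
  · have h1 : D.Accepts x ↔ (l.any fun F => F x) = true := by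
      constructor
      · rintro ⟨val, h2, h3⟩
        exact ((hD x).2 val h2).symm.trans h3
      · intro h
        obtain ⟨val, h2⟩ := (hD x).1
        exact ⟨val, h2, ((hD x).2 val h2).trans h⟩
    rw [h1, clq_iff, List.any_eq_true]
    constructor
    · rintro ⟨F, h2, h3⟩
      obtain ⟨S, hS, rfl⟩ := List.mem_map.1 h2
      exact ⟨S, mem_toList.1 hS, h3⟩
    · rintro ⟨S, hS, h3⟩
      exact ⟨_, List.mem_map.2 ⟨S, mem_toList.2 hS, rfl⟩, h3⟩

end Pool.Agent.RT
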