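import Mathlib
import Pool.Agent.Lib.MP_0a1b52_lc_RK.Defs

/-!
# How often a circuit reads its variables, module Fool: star-closed sets and complementary options
-/

set_option autoImplicit false

namespace Pool.Agent.RT

open Finset Pool.Agent.FP Pool.Agent.RK

private theorem fool {G : ℕ} (Γ : Finset (Fin G)) (S : Finset (Fin G → Bool))
    (h : ∀ b ∈ S, ∀ b' ∈ S, (∀ i, i ∉ Γ → b i = b' i) → b = b') :
    S.card * 2 ^ Γ.card ≤ 2 ^ G := by
  classical
  have h1 : Fintype.card (↥S × (↥Γ → Bool)) ≤ Fintype.card (Fin G → Bool) := by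
    refine Fintype.card_le_of_injective
      (fun p i => if h : i ∈ Γ then p.2 ⟨i, h⟩ else p.1.1 i) ?_
    rintro ⟨b, c⟩ ⟨b', c'⟩ he
    have he2 : ∀ i, (if h : i ∈ Γ then c ⟨i, h⟩ else b.1 i) =
        if h : i ∈ Γ then c' ⟨i, h⟩ else b'.1 i := fun i => congrFun he i
    have hb : b = b' := by
      refine Subtype.ext (h b.1 b.2 b'.1 b'.2 fun i hi => ?_)
      have := he2 i
      rwa [dif_neg hi, dif_neg hi] at this
    have hc : c = c' := by
      funext i
      have := he2 i.1
      rwa [dif_pos i.2, dif_pos i.2] at this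
    rw [hb, hc]
  rw [Fintype.card_prod, Fintype.card_coe, Fintype.card_fun, Fintype.card_fun, Fintype.card_bool,
    Fintype.card_coe, Fintype.card_fin] at h1
  exact h1

/-- the second option is on if and only if the first one is off -/
def opp {G : ℕ} (b : Fin G → Bool) : Fin 2 → Fin G → Bool := ![b, fun i => !b i]

open Classical in
private theorem fool_count {n G : ℕ} (X : Fin 2 → Finset (EdgeVar n))
    (H : (Fin 2 → Fin G → Bool) → EdgeVar n → Bool) (Γ : Finset (Fin G))
    (hind : ∀ (y y' : Fin 2 → Fin G → Bool) (t : Fin 2), (∀ s, s ≠ t → y s = y' s) →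
      (∀ i, i ∉ Γ → y t i = y' t i) → ∀ e, e ∉ X t → H y e = H y' e)
    (T : (EdgeVar n → Bool) → Prop) (hT : StarK X T)
    (hTC : ∀ y : Fin 2 → Fin G → Bool, (∃ i ∈ Γ, ∀ t, y t i = true) → ¬ T (H y)) :
    (univ.filter fun b : Fin G → Bool => T (H (opp b))).card * 2 ^ Γ.card ≤ 2 ^ G := by
  refine fool Γ _ ?_
  -- the case `b i = true`, `b' i = false`
  have key : ∀ b b' : Fin G → Bool, T (H (opp b)) → T (H (opp b')) →
      (∀ i, i ∉ Γ → b i = b' i) → ∀ i, b i = true → b' i = false → False := by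
    intro b b' hb hb' hout i h1 h2
    have hi : i ∈ Γ := by
      by_contra hc
      have := hout i hc
      rw [h1, h2] at this
      exact Bool.noConfusion this
    refine hTC ![b, fun i => !b' i] ⟨i, hi, fun t => ?_⟩
      (hT _ ![H (opp b'), H (opp b)] ?_ ?_)
    · fin_cases t
      · exact h1
      · simp [h2]
    · intro k e he
      fin_cases k
      · refine hind (opp b') ![b, fun i => !b' i] 0 ?_ ?_ e he
        · intro s hs
          fin_cases s
          · exact absurd rfl hs
          · rfl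
        · intro j hj
          exact (hout j hj).symm
      · refine hind (opp b) ![b, fun i => !b' i] 1 ?_ ?_ e he
        · intro s hs
          fin_cases s
          · rfl
          · exact absurd rfl hs
        · intro j hj
          show (!b j) = !b' j
          rw [hout j hj]
    · intro k
      fin_cases k
      · exact hb'
      · exact hb
  intro b hb b' hb' hout
  have hb := (mem_filter.1 hb).2
  have hb' := (mem_filter.1 hb').2
  funext i
  rcases h1 : b i with _ | _ <;> rcases h2 : b' i with _ | _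
  · rfl
  · exact (key b' b hb' hb (fun j hj => (hout j hj).symm) i h2 h1).elim
  · exact (key b b' hb hb' hout i h1 h2).elim
  · rfl

open Classical in
theorem fool_main {n G : ℕ} {Φ : Type} [Fintype Φ] (hΦc : 0 < Fintype.card Φ)
    (H : Φ → (Fin 2 → Fin G → Bool) → EdgeVar n → Bool) (r : ℝ) :
    ∃ (N : ℕ) (Q : Fin N → EdgeVar n → Bool), 0 < N ∧ (∀ i, ∃ φ b, Q i = H φ (opp b)) ∧
      ∀ (X : Fin 2 → Finset (EdgeVar n)) (Γ : Φ → Finset (Fin G)),
        (∀ (φ : Φ) (y y' : Fin 2 → Fin G → Bool) (t : Fin 2), (∀ s, s ≠ t → y s = y' s) →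
          (∀ i, i ∉ Γ φ → y t i = y' t i) → ∀ e, e ∉ X t → H φ y e = H φ y' e) →
        ((univ.filter fun φ : Φ => ((Γ φ).card : ℝ) < r).card : ℝ) ≤
          Fintype.card Φ * (2 : ℝ) ^ (-r) →
        ∀ T : (EdgeVar n → Bool) → Prop, StarK X T →
          (∀ (φ : Φ) (y : Fin 2 → Fin G → Bool), (∃ i ∈ Γ φ, ∀ t, y t i = true) →
            ¬ T (H φ y)) →
          ((univ.filter fun i => T (Q i)).card : ℝ) ≤ N * (2 * (2 : ℝ) ^ (-r)) := by
  let E := (Fintype.equivFin (Φ × (Fin G → Bool))).symm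
  have hN : Fintype.card (Φ × (Fin G → Bool)) = Fintype.card Φ * 2 ^ G := by
    rw [Fintype.card_prod, Fintype.card_fun, Fintype.card_bool, Fintype.card_fin]
  refine ⟨Fintype.card (Φ × (Fin G → Bool)), fun i => H (E i).1 (opp (E i).2), ?_,
    fun i => ⟨_, _, rfl⟩, ?_⟩
  · rw [hN]
    exact Nat.mul_pos hΦc (by positivity)
  intro X Γ hind hbad T hT hTC
  set Bad : Finset Φ := univ.filter fun φ : Φ => ((Γ φ).card : ℝ) < r with hBad
  let S : Φ → Finset (Fin G → Bool) := fun φ => univ.filter fun b => T (H φ (opp b))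
  set a : ℝ := (2 : ℝ) ^ (-r) with ha
  have ha0 : 0 < a := by positivity
  have hZ0 : (0 : ℝ) < (2 : ℝ) ^ G := by positivity
  have hS : ∀ φ, ((S φ).card : ℝ) ≤ 2 ^ G * a + if φ ∈ Bad then (2 : ℝ) ^ G else 0 := by
    intro φ
    by_cases hφ : φ ∈ Bad
    · rw [if_pos hφ]
      have h2 : ((S φ).card : ℝ) ≤ 2 ^ G := by
        have h3 : (S φ).card ≤ 2 ^ G := by
          refine (Finset.card_le_univ _).trans (le_of_eq ?_)
          rw [Fintype.card_fun, Fintype.card_bool, Fintype.card_fin]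
        exact_mod_cast h3
      have h3 : 0 ≤ (2 : ℝ) ^ G * a := by positivity
      linarith
    · rw [if_neg hφ, add_zero]
      have h2 : r ≤ ((Γ φ).card : ℝ) := by
        by_contra hc
        exact hφ (Finset.mem_filter.2 ⟨Finset.mem_univ _, not_le.1 hc⟩)
      have h3 : (S φ).card * 2 ^ (Γ φ).card ≤ 2 ^ G :=
        fool_count X (H φ) (Γ φ) (hind φ) T hT (hTC φ)
      have h4 : (2 : ℝ) ^ r ≤ (2 : ℝ) ^ (Γ φ).card := by
        rw [← Real.rpow_natCast]
        exact Real.rpow_le_rpow_of_exponent_le (by norm_num) h2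
      have h5 : ((S φ).card : ℝ) * (2 : ℝ) ^ (Γ φ).card ≤ 2 ^ G := by exact_mod_cast h3
      have h6 : ((S φ).card : ℝ) * (2 : ℝ) ^ r ≤ 2 ^ G :=
        le_trans (mul_le_mul_of_nonneg_left h4 (Nat.cast_nonneg _)) h5
      rw [ha, Real.rpow_neg (by norm_num), ← div_eq_mul_inv, le_div_iff₀ (by positivity)]
      exact h6
  have hsum : (univ.filter fun i : Fin (Fintype.card (Φ × (Fin G → Bool))) =>
      T (H (E i).1 (opp (E i).2))).card = ∑ φ : Φ, (S φ).card := by
    rw [Finset.card_filter]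
    rw [Equiv.sum_comp E (fun b : Φ × (Fin G → Bool) =>
      if T (H b.1 (opp b.2)) then (1 : ℕ) else 0), Fintype.sum_prod_type]
    refine Finset.sum_congr rfl fun φ _ => ?_
    rw [Finset.card_filter]
  have hfin : ((∑ φ : Φ, (S φ).card : ℕ) : ℝ) ≤ Fintype.card Φ * 2 ^ G * (2 * a) := by
    push_cast
    calc ∑ φ : Φ, ((S φ).card : ℝ)
        ≤ ∑ φ : Φ, (2 ^ G * a + if φ ∈ Bad then (2 : ℝ) ^ G else 0) :=
          Finset.sum_le_sum fun φ _ => hS φ
      _ = Fintype.card Φ * (2 ^ G * a) + Bad.card * 2 ^ G := by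
          rw [Finset.sum_add_distrib, Finset.sum_const, Finset.card_univ, nsmul_eq_mul,
            Finset.sum_ite_mem, Finset.univ_inter, Finset.sum_const, nsmul_eq_mul]
      _ ≤ Fintype.card Φ * (2 ^ G * a) + (Fintype.card Φ * a) * 2 ^ G := by
          have := mul_le_mul_of_nonneg_right hbad hZ0.le
          linarith
      _ = Fintype.card Φ * 2 ^ G * (2 * a) := by ring
  rw [hsum, hN]
  push_cast at hfin ⊢
  exact hfin

end Pool.Agent.RT
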