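import Mathlib
import Pool.Agent.Lib.MP_0a1b52_lc_RT.DefsL

/-!
# Bounding how often the literals of one sign are read is no restriction

Let `N` be the number of variables and let `|x|` be the number of ones of `x`.  Then `D x` is the
conjunction over `k = 0, …, N` of the statements `|x| < k` or `|x| ≥ k + 1` or `D_k x`, where `D_k`
is `D` with each literal `¬ x_v` replaced by the threshold `the number of ones of x outside v is at
least k`, which has the same value if `|x| = k`.  The statements `|x| < j` have circuits whose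
refutation trees are paths which read each literal `¬ x_v` at most once, and all other parts read
only variables.
-/

set_option autoImplicit false

namespace Pool.Agent.RT

open Finset Pool.Agent.FP

variable {V : Type} {s t : ℕ}

/-! ## Values -/

private def evL (D : Circuit V s) (h : V × Bool → Bool) (g : Fin s) : Bool :=
  match _h : D.gate g with
  | .lit v b => h (v, b)
  | .and i j => evL D h i && evL D h j
  | .or i j => evL D h i || evL D h j
termination_by g
decreasing_by
  · exact (D.and_lt g i j _h).1
  · exact (D.and_lt g i j _h).2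
  · exact (D.or_lt g i j _h).1
  · exact (D.or_lt g i j _h).2

private theorem evL_eq (D : Circuit V s) (h : V × Bool → Bool) (g : Fin s) :
    evL D h g = match D.gate g with
      | .lit v b => h (v, b)
      | .and i j => evL D h i && evL D h j
      | .or i j => evL D h i || evL D h j := by
  rw [evL]
  split
  · rename_i v b h
    rw [h]
  · rename_i i j h
    rw [h]
  · rename_i i j h
    rw [h]

private theorem ev_isEval (D : Circuit V s) (x : V → Bool) :
    D.IsEval x (evL D fun p => x p.1 == p.2) := fun g => evL_eq D _ g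

private theorem ev_unique {D : Circuit V s} {x : V → Bool} {val val' : Fin s → Bool}
    (h : D.IsEval x val) (h' : D.IsEval x val') : val = val' := by
  funext g
  induction g using WellFoundedLT.induction with
  | ind g ih =>
    rw [h g, h' g]
    rcases hg : D.gate g with ⟨v, b⟩ | ⟨i, j⟩ | ⟨i, j⟩
    · rfl
    · have h1 := D.and_lt g i j hg
      simp only [ih i h1.1, ih j h1.2]
    · have h1 := D.or_lt g i j hg
      simp only [ih i h1.1, ih j h1.2]

private theorem accepts_iff {D : Circuit V s} {x : V → Bool} {val : Fin s → Bool}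
    (h : D.IsEval x val) : D.Accepts x ↔ val D.out = true := by
  constructor
  · rintro ⟨val', h1, h2⟩
    rw [ev_unique h h1]
    exact h2
  · intro h1
    exact ⟨val, h, h1⟩

/-! ## One further gate -/

private def mapGate (f : Fin s → Fin t) : Gate V s → Gate V t
  | .lit v b => .lit v b
  | .and i j => .and (f i) (f j)
  | .or i j => .or (f i) (f j)

private theorem sub_tree {C : Circuit V t} {D : Circuit V s} {f : Fin s → Fin t}
    (hf : ∀ g, C.gate (f g) = mapGate f (D.gate g)) {g' : Fin t} {L : List (V × Bool)}
    (h : LTree C g' L) : ∀ g, g' = f g → LTree D g L := by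
  induction h with
  | lit g' v b hg' =>
    rintro g rfl
    rw [hf] at hg'
    rcases hg : D.gate g with ⟨w, c⟩ | ⟨i, j⟩ | ⟨i, j⟩ <;> rw [hg] at hg' <;>
      simp only [mapGate, reduceCtorEq, Gate.lit.injEq] at hg'
    obtain ⟨rfl, rfl⟩ := hg'
    exact .lit g _ _ hg
  | left g' i' j' L hg' _ ih =>
    rintro g rfl
    rw [hf] at hg'
    rcases hg : D.gate g with ⟨w, c⟩ | ⟨i, j⟩ | ⟨i, j⟩ <;> rw [hg] at hg' <;>
      simp only [mapGate, reduceCtorEq, Gate.and.injEq] at hg'
    exact .left g i j L hg (ih i hg'.1.symm)
  | right g' i' j' L hg' _ ih =>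
    rintro g rfl
    rw [hf] at hg'
    rcases hg : D.gate g with ⟨w, c⟩ | ⟨i, j⟩ | ⟨i, j⟩ <;> rw [hg] at hg' <;>
      simp only [mapGate, reduceCtorEq, Gate.and.injEq] at hg'
    exact .right g i j L hg (ih j hg'.2.symm)
  | both g' i' j' L L' hg' _ _ ih ih' =>
    rintro g rfl
    rw [hf] at hg'
    rcases hg : D.gate g with ⟨w, c⟩ | ⟨i, j⟩ | ⟨i, j⟩ <;> rw [hg] at hg' <;>
      simp only [mapGate, reduceCtorEq, Gate.or.injEq] at hg'
    exact .both g i j L L' hg (ih i hg'.1.symm) (ih' j hg'.2.symm)

private theorem sub_eval {C : Circuit V t} {D : Circuit V s} {f : Fin s → Fin t}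
    (hf : ∀ g, C.gate (f g) = mapGate f (D.gate g)) {x : V → Bool} {val : Fin t → Bool}
    (h : C.IsEval x val) : D.IsEval x fun g => val (f g) := by
  intro g
  have h1 := h (f g)
  rw [hf] at h1
  dsimp only
  rw [h1]
  rcases D.gate g with ⟨w, c⟩ | ⟨i, j⟩ | ⟨i, j⟩ <;> rfl

private def snoc (D : Circuit V s) (γ : Gate V s) : Circuit V (s + 1) where
  gate := Fin.lastCases (mapGate Fin.castSucc γ) fun g => mapGate Fin.castSucc (D.gate g)
  and_lt := by
    intro g i j
    refine Fin.lastCases ?_ (fun g => ?_) g
    · rw [Fin.lastCases_last]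
      rcases γ with ⟨v, b⟩ | ⟨a, b⟩ | ⟨a, b⟩ <;> intro h <;>
        simp only [mapGate, reduceCtorEq, Gate.and.injEq] at h
      obtain ⟨rfl, rfl⟩ := h
      exact ⟨Fin.castSucc_lt_last _, Fin.castSucc_lt_last _⟩
    · rw [Fin.lastCases_castSucc]
      rcases hg : D.gate g with ⟨v, b⟩ | ⟨a, b⟩ | ⟨a, b⟩ <;> intro h <;>
        simp only [mapGate, reduceCtorEq, Gate.and.injEq] at h
      obtain ⟨rfl, rfl⟩ := h
      have h1 := D.and_lt g a b hg
      exact ⟨Fin.castSucc_lt_castSucc_iff.2 h1.1, Fin.castSucc_lt_castSucc_iff.2 h1.2⟩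
  or_lt := by
    intro g i j
    refine Fin.lastCases ?_ (fun g => ?_) g
    · rw [Fin.lastCases_last]
      rcases γ with ⟨v, b⟩ | ⟨a, b⟩ | ⟨a, b⟩ <;> intro h <;>
        simp only [mapGate, reduceCtorEq, Gate.or.injEq] at h
      obtain ⟨rfl, rfl⟩ := h
      exact ⟨Fin.castSucc_lt_last _, Fin.castSucc_lt_last _⟩
    · rw [Fin.lastCases_castSucc]
      rcases hg : D.gate g with ⟨v, b⟩ | ⟨a, b⟩ | ⟨a, b⟩ <;> intro h <;>
        simp only [mapGate, reduceCtorEq, Gate.or.injEq] at h
      obtain ⟨rfl, rfl⟩ := h
      have h1 := D.or_lt g a b hg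
      exact ⟨Fin.castSucc_lt_castSucc_iff.2 h1.1, Fin.castSucc_lt_castSucc_iff.2 h1.2⟩
  out := Fin.last s

private theorem snoc_old (D : Circuit V s) (γ : Gate V s) (g : Fin s) :
    (snoc D γ).gate (Fin.castSucc g) = mapGate Fin.castSucc (D.gate g) := by
  unfold snoc
  dsimp only
  rw [Fin.lastCases_castSucc]

private theorem snoc_new (D : Circuit V s) (γ : Gate V s) :
    (snoc D γ).gate (Fin.last s) = mapGate Fin.castSucc γ := by
  unfold snoc
  dsimp only
  rw [Fin.lastCases_last]

/-! ## A calculus -/

section

variable [DecidableEq V]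

/-- the function `F` is constant, or it is computed by a gate of `D` whose formal refutation trees
have at most `r v` leaves `¬ x_v` for each `v` -/
private def Rz (D : Circuit V s) (F : (V → Bool) → Bool) (r : V → ℕ) : Prop :=
  ((∀ x, F x = true) ∨ ∀ x, F x = false) ∨ ∃ g, (∀ x val, D.IsEval x val → val g = F x) ∧
    ∀ L, LTree D g L → ∀ v, L.count (v, false) ≤ r v

private theorem Rz.snoc {D : Circuit V s} {F : (V → Bool) → Bool} {r : V → ℕ} (h : Rz D F r)
    (γ : Gate V s) : Rz (snoc D γ) F r := by
  rcases h with h | ⟨g, h1, h2⟩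
  · exact .inl h
  · exact .inr ⟨Fin.castSucc g, fun x val hv => h1 x _ (sub_eval (snoc_old D γ) hv),
      fun L hL => h2 L (sub_tree (snoc_old D γ) hL g rfl)⟩

/-- functions with bounds for the numbers of leaves -/
private abbrev Fn (V : Type) : Type := ((V → Bool) → Bool) × (V → ℕ)

private def Comp (c : ℕ) (A : Set (Fn V)) : Prop :=
  ∃ s ≤ c, ∃ D : Circuit V s, ∀ p ∈ A, Rz D p.1 p.2

/-- `B` can be computed from `A` with `c` further gates -/
private def Adds (c : ℕ) (A B : Set (Fn V)) : Prop :=
  ∀ (t : ℕ) (G : Set (Fn V)), A ⊆ G → Comp t G → Comp (t + c) (G ∪ B)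

private theorem Adds.mono {c c' : ℕ} {A A' B B' : Set (Fn V)} (h : Adds c A B) (hA : A ⊆ A')
    (hc : c ≤ c') (hB : B' ⊆ B) : Adds c' A' B' := by
  intro t G hG h1
  obtain ⟨s, hs, D, hD⟩ := h t G (hA.trans hG) h1
  exact ⟨s, by omega, D, fun p hp => hD p (Set.union_subset_union_right _ hB hp)⟩

private theorem Adds.trans {c c' : ℕ} {A B C : Set (Fn V)} (h : Adds c A B)
    (h' : Adds c' (A ∪ B) C) : Adds (c + c') A (B ∪ C) := by
  intro t G hG h1
  have h2 := h' _ _ (Set.union_subset_union_left _ hG) (h t G hG h1)
  rwa [add_assoc, Set.union_assoc] at h2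

private theorem Adds.union {c c' : ℕ} {A B C : Set (Fn V)} (h : Adds c A B)
    (h' : Adds c' A C) : Adds (c + c') A (B ∪ C) :=
  h.trans (h'.mono Set.subset_union_left le_rfl subset_rfl)

private theorem Adds.const {A B : Set (Fn V)}
    (h : ∀ p ∈ B, (∀ x, p.1 x = true) ∨ ∀ x, p.1 x = false) : Adds 0 A B := by
  rintro t G - ⟨s, hs, D, hD⟩
  refine ⟨s, by omega, D, fun p hp => ?_⟩
  rcases hp with hp | hp
  · exact hD p hp
  · exact .inl (h p hp)

private theorem Adds.finset {ι : Type} {c : ℕ} {A : Set (Fn V)} (I : Finset ι)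
    (B : ι → Set (Fn V)) (h : ∀ i ∈ I, Adds c A (B i)) :
    Adds (I.card * c) A (⋃ i ∈ I, B i) := by
  classical
  induction I using Finset.induction_on with
  | empty =>
    refine Adds.mono (Adds.const (B := ∅) fun p hp => absurd hp (by simp)) subset_rfl (by simp)
      (by simp)
  | insert i I hi ih =>
    rw [card_insert_of_notMem hi]
    refine ((ih fun j hj => h j (mem_insert_of_mem hj)).union
      (h i (mem_insert_self i I))).mono subset_rfl (le_of_eq (by ring)) ?_
    rw [Finset.set_biUnion_insert, Set.union_comm]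

private theorem Adds.weak {A : Set (Fn V)} {F : (V → Bool) → Bool} {r r' : V → ℕ}
    (h : (F, r) ∈ A) (hr : ∀ v, r v ≤ r' v) : Adds 0 A {(F, r')} := by
  rintro t G hG ⟨s, hs, D, hD⟩
  refine ⟨s, by omega, D, fun p hp => ?_⟩
  rcases hp with hp | rfl
  · exact hD p hp
  · rcases hD _ (hG h) with h1 | ⟨g, h1, h2⟩
    · exact .inl h1
    · exact .inr ⟨g, h1, fun L hL v => (h2 L hL v).trans (hr v)⟩

private theorem Adds.lit (A : Set (Fn V)) (v : V) (c : Bool) :
    Adds 1 A {(fun x => x v == c, fun w => [(v, c)].count (w, false))} := by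
  rintro t G - ⟨s, hs, D, hD⟩
  refine ⟨s + 1, by omega, snoc D (.lit v c), fun p hp => ?_⟩
  rcases hp with hp | rfl
  · exact (hD p hp).snoc _
  · refine .inr ⟨Fin.last s, fun x val hv => ?_, fun L hL w => ?_⟩
    · have h1 := hv (Fin.last s)
      rw [snoc_new] at h1
      exact h1
    · have h1 := snoc_new D (.lit v c)
      cases hL with
      | lit _ v' b h =>
        rw [h1] at h
        simp only [mapGate, Gate.lit.injEq] at h
        obtain ⟨rfl, rfl⟩ := h
        exact le_rfl
      | left _ i j _ h _ =>
        rw [h1] at h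
        exact absurd h (by simp [mapGate])
      | right _ i j _ h _ =>
        rw [h1] at h
        exact absurd h (by simp [mapGate])
      | both _ i j L L' h _ _ =>
        rw [h1] at h
        exact absurd h (by simp [mapGate])

private theorem Adds.and {A : Set (Fn V)} {F F' H : (V → Bool) → Bool} {r r' q : V → ℕ}
    (h : (F, r) ∈ A) (h' : (F', r') ∈ A) (hr : ∀ v, r v ≤ q v) (hr' : ∀ v, r' v ≤ q v)
    (hH : ∀ x, H x = (F x && F' x)) : Adds 1 A {(H, q)} := by
  rintro t G hG ⟨s, hs, D, hD⟩
  have h1 : Rz D F r := hD _ (hG h)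
  have h2 : Rz D F' r' := hD _ (hG h')
  have old : Rz D H q → Comp (t + 1) (G ∪ {(H, q)}) := by
    intro hz
    refine ⟨s, by omega, D, fun p hp => ?_⟩
    rcases hp with hp | rfl
    · exact hD p hp
    · exact hz
  rcases h1 with (h1 | h1) | ⟨g, h1, h3⟩
  · refine old ?_
    rcases h2 with (h2 | h2) | ⟨g', h2, h4⟩
    · exact .inl (.inl fun x => by rw [hH, h1, h2]; rfl)
    · exact .inl (.inr fun x => by rw [hH, h1, h2]; rfl)
    · exact .inr ⟨g', fun x val hv => by rw [hH, h1, h2 x val hv]; rfl,
        fun L hL v => (h4 L hL v).trans (hr' v)⟩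
  · exact old (.inl (.inr fun x => by rw [hH, h1]; rfl))
  · rcases h2 with (h2 | h2) | ⟨g', h2, h4⟩
    · exact old (.inr ⟨g, fun x val hv => by rw [hH, h1 x val hv, h2, Bool.and_true],
        fun L hL v => (h3 L hL v).trans (hr v)⟩)
    · exact old (.inl (.inr fun x => by rw [hH, h2, Bool.and_false]))
    · refine ⟨s + 1, by omega, snoc D (.and g g'), fun p hp => ?_⟩
      rcases hp with hp | rfl
      · exact (hD p hp).snoc _
      · show Rz _ H q
        have h5 := snoc_new D (.and g g')
        refine .inr ⟨Fin.last s, fun x val hv => ?_, fun L hL w => ?_⟩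
        · have h6 := hv (Fin.last s)
          rw [h5] at h6
          have h7 := sub_eval (snoc_old D (.and g g')) hv
          rw [h6, hH, ← h1 x _ h7, ← h2 x _ h7]
          rfl
        · cases hL with
          | lit _ v' b h =>
            rw [h5] at h
            exact absurd h (by simp [mapGate])
          | left _ i j _ h hL =>
            rw [h5] at h
            simp only [mapGate, Gate.and.injEq] at h
            obtain ⟨rfl, rfl⟩ := h
            exact (h3 _ (sub_tree (snoc_old D (.and g g')) hL _ rfl) w).trans (hr w)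
          | right _ i j _ h hL =>
            rw [h5] at h
            simp only [mapGate, Gate.and.injEq] at h
            obtain ⟨rfl, rfl⟩ := h
            exact (h4 _ (sub_tree (snoc_old D (.and g g')) hL _ rfl) w).trans (hr' w)
          | both _ i j L L' h _ _ =>
            rw [h5] at h
            exact absurd h (by simp [mapGate])

private theorem Adds.or {A : Set (Fn V)} {F F' H : (V → Bool) → Bool} {r r' q : V → ℕ}
    (h : (F, r) ∈ A) (h' : (F', r') ∈ A) (hr : ∀ v, r v + r' v ≤ q v)
    (hH : ∀ x, H x = (F x || F' x)) : Adds 1 A {(H, q)} := by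
  rintro t G hG ⟨s, hs, D, hD⟩
  have h1 : Rz D F r := hD _ (hG h)
  have h2 : Rz D F' r' := hD _ (hG h')
  have old : Rz D H q → Comp (t + 1) (G ∪ {(H, q)}) := by
    intro hz
    refine ⟨s, by omega, D, fun p hp => ?_⟩
    rcases hp with hp | rfl
    · exact hD p hp
    · exact hz
  rcases h1 with (h1 | h1) | ⟨g, h1, h3⟩
  · exact old (.inl (.inl fun x => by rw [hH, h1]; rfl))
  · refine old ?_
    rcases h2 with (h2 | h2) | ⟨g', h2, h4⟩
    · exact .inl (.inl fun x => by rw [hH, h1, h2]; rfl)
    · exact .inl (.inr fun x => by rw [hH, h1, h2]; rfl)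
    · exact .inr ⟨g', fun x val hv => by rw [hH, h1, h2 x val hv]; rfl,
        fun L hL v => (h4 L hL v).trans ((Nat.le_add_left _ _).trans (hr v))⟩
  · rcases h2 with (h2 | h2) | ⟨g', h2, h4⟩
    · exact old (.inl (.inl fun x => by rw [hH, h2, Bool.or_true]))
    · exact old (.inr ⟨g, fun x val hv => by rw [hH, h1 x val hv, h2, Bool.or_false],
        fun L hL v => (h3 L hL v).trans ((Nat.le_add_right _ _).trans (hr v))⟩)
    · refine ⟨s + 1, by omega, snoc D (.or g g'), fun p hp => ?_⟩
      rcases hp with hp | rfl
      · exact (hD p hp).snoc _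
      · show Rz _ H q
        have h5 := snoc_new D (.or g g')
        refine .inr ⟨Fin.last s, fun x val hv => ?_, fun L hL w => ?_⟩
        · have h6 := hv (Fin.last s)
          rw [h5] at h6
          have h7 := sub_eval (snoc_old D (.or g g')) hv
          rw [h6, hH, ← h1 x _ h7, ← h2 x _ h7]
          rfl
        · cases hL with
          | lit _ v' b h =>
            rw [h5] at h
            exact absurd h (by simp [mapGate])
          | left _ i j _ h hL =>
            rw [h5] at h
            exact absurd h (by simp [mapGate])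
          | right _ i j _ h hL =>
            rw [h5] at h
            exact absurd h (by simp [mapGate])
          | both _ i j L L' h hL hL' =>
            rw [h5] at h
            simp only [mapGate, Gate.or.injEq] at h
            obtain ⟨rfl, rfl⟩ := h
            rw [List.count_append]
            exact (Nat.add_le_add (h3 _ (sub_tree (snoc_old D (.or g g')) hL _ rfl) w)
              (h4 _ (sub_tree (snoc_old D (.or g g')) hL' _ rfl) w)).trans (hr w)

private theorem Adds.consts (A : Set (Fn V)) :
    Adds 0 A {p | (∀ x, p.1 x = true) ∨ ∀ x, p.1 x = false} :=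
  Adds.const fun _ hp => hp

/-! ## Literals and thresholds -/

private def pos (v : V) : Fn V := (fun x => x v == true, fun _ => 0)

private def neg (v : V) : Fn V := (fun x => x v == false, fun w => if w = v then 1 else 0)

private def Lits (V : Type) [DecidableEq V] : Set (Fn V) := {p | ∃ v, p = pos v ∨ p = neg v}

private theorem adds_lits [Fintype V] (A : Set (Fn V)) : Adds (2 * Fintype.card V) A (Lits V) := by
  have h1 : ∀ v : V, Adds 2 A {p | p = pos v ∨ p = neg v} := by
    intro v
    have h2 : Adds 1 A {pos v} := by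
      refine ((Adds.lit A v true).trans (Adds.weak (r' := fun _ => 0) (.inr rfl) ?_)).mono
        subset_rfl le_rfl Set.subset_union_right
      intro w
      rw [List.count_singleton, if_neg (by simp)]
    have h3 : Adds 1 A {neg v} := by
      refine ((Adds.lit A v false).trans (Adds.weak (r' := fun w => if w = v then 1 else 0)
        (.inr rfl) ?_)).mono subset_rfl le_rfl Set.subset_union_right
      intro w
      rw [List.count_singleton]
      by_cases h : w = v
      · rw [if_pos h]
        split_ifs <;> omega
      · rw [if_neg h, if_neg]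
        simpa using fun h' : v = w => h h'.symm
    refine (h2.union h3).mono subset_rfl le_rfl ?_
    rintro p (rfl | rfl)
    · exact .inl rfl
    · exact .inr rfl
  refine (Adds.finset (univ : Finset V) _ fun v _ => h1 v).mono subset_rfl ?_ ?_
  · rw [card_univ, mul_comm]
  · rintro p ⟨v, hv⟩
    exact Set.mem_biUnion (mem_coe.2 (mem_univ v)) hv

private def ind (l : List V) (v : V) : ℕ := if v ∈ l then 1 else 0

private def LT (l : List V) (j : ℕ) : Fn V := (fun x => decide (l.countP x < j), ind l)

private def GE (l : List V) (j : ℕ) : Fn V := (fun x => decide (j ≤ l.countP x), fun _ => 0)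

private theorem table_lt (l : List V) (hl : l.Nodup) :
    Adds (l.length * (l.length + 1)) (Lits V) {p | ∃ j, p = LT l j} := by
  induction l with
  | nil =>
    refine (Adds.const ?_).mono subset_rfl (by simp) subset_rfl
    rintro _ ⟨j, rfl⟩
    rcases Nat.eq_zero_or_pos j with rfl | h
    · exact .inr fun x => by simp [LT]
    · exact .inl fun x => by simpa [LT] using h
  | cons v l ih =>
    have hv : v ∉ l := (List.nodup_cons.1 hl).1
    have ih := ih (List.nodup_cons.1 hl).2
    have hstep : ∀ i : ℕ, Adds 2 (Lits V ∪ {p | ∃ j, p = LT l j}) {LT (v :: l) (i + 1)} := by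
      intro i
      have h1 : Adds 1 (Lits V ∪ {p | ∃ j, p = LT l j})
          {(fun x => (x v == false) || decide (l.countP x < i), ind (v :: l))} := by
        refine Adds.or (F := fun x => x v == false) (F' := fun x => decide (l.countP x < i))
          (r := fun w => if w = v then 1 else 0) (r' := ind l) (.inl ⟨v, .inr rfl⟩)
          (.inr ⟨i, rfl⟩) (fun w => ?_) fun x => rfl
        unfold ind
        by_cases h : w = v
        · subst h
          rw [if_pos rfl, if_neg hv, if_pos List.mem_cons_self]
        · rw [if_neg h]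
          by_cases h' : w ∈ l
          · rw [if_pos h', if_pos (List.mem_cons_of_mem _ h')]
          · rw [if_neg h']
            exact Nat.zero_le _
      have h2 : Adds 1 (Lits V ∪ {p | ∃ j, p = LT l j} ∪
          {(fun x => (x v == false) || decide (l.countP x < i), ind (v :: l))})
          {LT (v :: l) (i + 1)} := by
        refine Adds.and (F := fun x => decide (l.countP x < i + 1))
          (F' := fun x => (x v == false) || decide (l.countP x < i))
          (r := ind l) (r' := ind (v :: l)) (.inl (.inr ⟨i + 1, rfl⟩)) (.inr rfl) (fun w => ?_)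
          (fun w => le_rfl) fun x => ?_
        · unfold ind
          by_cases h' : w ∈ l
          · rw [if_pos h', if_pos (List.mem_cons_of_mem _ h')]
          · rw [if_neg h']
            exact Nat.zero_le _
        · rw [List.countP_cons]
          cases hx : x v
          · simp
          · simp
            omega
      exact (h1.trans h2).mono subset_rfl le_rfl Set.subset_union_right
    refine (ih.trans ((Adds.finset (range (l.length + 1)) _ fun i _ => hstep i).union
      (Adds.consts _))).mono subset_rfl ?_ ?_
    · rw [card_range, List.length_cons]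
      nlinarith
    · rintro _ ⟨j, rfl⟩
      refine .inr ?_
      rcases Nat.eq_zero_or_pos j with rfl | h
      · exact .inr (.inr fun x => by simp [LT])
      · obtain ⟨i, rfl⟩ : ∃ i, j = i + 1 := ⟨j - 1, by omega⟩
        by_cases hi : i < l.length + 1
        · exact .inl (Set.mem_biUnion (mem_coe.2 (mem_range.2 hi)) rfl)
        · refine .inr (.inl fun x => ?_)
          have h1 : (v :: l).countP x ≤ l.length + 1 := List.countP_le_length
          simp only [LT, decide_eq_true_eq]
          omega

private theorem table_ge (l : List V) :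
    Adds (l.length * (l.length + 1)) (Lits V) {p | ∃ j, p = GE l j} := by
  induction l with
  | nil =>
    refine (Adds.const ?_).mono subset_rfl (by simp) subset_rfl
    rintro _ ⟨j, rfl⟩
    rcases Nat.eq_zero_or_pos j with rfl | h
    · exact .inl fun x => by simp [GE]
    · exact .inr fun x => by simpa [GE] using Nat.pos_iff_ne_zero.1 h
  | cons v l ih =>
    have hstep : ∀ i : ℕ, Adds 2 (Lits V ∪ {p | ∃ j, p = GE l j}) {GE (v :: l) (i + 1)} := by
      intro i
      have h1 : Adds 1 (Lits V ∪ {p | ∃ j, p = GE l j})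
          {(fun x => (x v == true) && decide (i ≤ l.countP x), fun _ => 0)} :=
        Adds.and (F := fun x => x v == true) (F' := fun x => decide (i ≤ l.countP x))
          (r := fun _ => 0) (r' := fun _ => 0) (.inl ⟨v, .inl rfl⟩)
          (.inr ⟨i, rfl⟩) (fun _ => le_rfl) (fun _ => le_rfl) fun x => rfl
      have h2 : Adds 1 (Lits V ∪ {p | ∃ j, p = GE l j} ∪
          {(fun x => (x v == true) && decide (i ≤ l.countP x), fun _ => 0)})
          {GE (v :: l) (i + 1)} := by
        refine Adds.or (F := fun x => decide (i + 1 ≤ l.countP x))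
          (F' := fun x => (x v == true) && decide (i ≤ l.countP x))
          (r := fun _ => 0) (r' := fun _ => 0) (.inl (.inr ⟨i + 1, rfl⟩)) (.inr rfl)
          (fun w => le_rfl) fun x => ?_
        rw [List.countP_cons]
        cases hx : x v
        · simp
        · simp
          omega
      exact (h1.trans h2).mono subset_rfl le_rfl Set.subset_union_right
    refine (ih.trans ((Adds.finset (range (l.length + 1)) _ fun i _ => hstep i).union
      (Adds.consts _))).mono subset_rfl ?_ ?_
    · rw [card_range, List.length_cons]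
      nlinarith
    · rintro _ ⟨j, rfl⟩
      refine .inr ?_
      rcases Nat.eq_zero_or_pos j with rfl | h
      · exact .inr (.inl fun x => by simp [GE])
      · obtain ⟨i, rfl⟩ : ∃ i, j = i + 1 := ⟨j - 1, by omega⟩
        by_cases hi : i < l.length + 1
        · exact .inl (Set.mem_biUnion (mem_coe.2 (mem_range.2 hi)) rfl)
        · refine .inr (.inr fun x => ?_)
          have h1 : (v :: l).countP x ≤ l.length + 1 := List.countP_le_length
          simp only [GE, decide_eq_false_iff_not]
          omega

/-! ## The gates of a circuit with other values of the literals -/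

private theorem adds_gates (D : Circuit V s) {A : Set (Fn V)} (h : V × Bool → (V → Bool) → Bool)
    (hh : ∀ p, (h p, fun _ => 0) ∈ A) (m : ℕ) (hm : m ≤ s) :
    Adds m A {q | ∃ g : Fin s, g.1 < m ∧ q = (fun x => evL D (fun p => h p x) g, fun _ => 0)} := by
  induction m with
  | zero => exact Adds.const fun p hp => absurd hp.choose_spec.1 (by omega)
  | succ m ih =>
    have ih := ih (by omega)
    have hstep : Adds 1 (A ∪ {q | ∃ g : Fin s, g.1 < m ∧
        q = (fun x => evL D (fun p => h p x) g, fun _ => 0)})
        {(fun x => evL D (fun p => h p x) ⟨m, by omega⟩, fun _ => 0)} := by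
      rcases hg : D.gate ⟨m, by omega⟩ with ⟨v, b⟩ | ⟨i, j⟩ | ⟨i, j⟩
      · refine (Adds.weak (F := fun x => evL D (fun p => h p x) ⟨m, by omega⟩) (r := fun _ => 0)
          (.inl ?_) fun _ => le_rfl).mono subset_rfl (by omega) subset_rfl
        have h1 : (fun x => evL D (fun p => h p x) ⟨m, by omega⟩) = h (v, b) := by
          funext x
          rw [evL_eq, hg]
        rw [h1]
        exact hh _
      · have h1 := D.and_lt _ i j hg
        exact Adds.and (F := fun x => evL D (fun p => h p x) i)
          (F' := fun x => evL D (fun p => h p x) j) (r := fun _ => 0) (r' := fun _ => 0)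
          (.inr ⟨i, h1.1, rfl⟩) (.inr ⟨j, h1.2, rfl⟩) (fun _ => le_rfl) (fun _ => le_rfl)
          fun x => by rw [evL_eq, hg]
      · have h1 := D.or_lt _ i j hg
        exact Adds.or (F := fun x => evL D (fun p => h p x) i)
          (F' := fun x => evL D (fun p => h p x) j) (r := fun _ => 0) (r' := fun _ => 0)
          (.inr ⟨i, h1.1, rfl⟩) (.inr ⟨j, h1.2, rfl⟩) (fun _ => le_rfl)
          fun x => by rw [evL_eq, hg]
    refine (ih.trans hstep).mono subset_rfl le_rfl ?_
    rintro _ ⟨g, hg, rfl⟩
    rcases lt_or_eq_of_le (Nat.lt_succ_iff.1 hg) with h1 | h1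
    · exact .inl ⟨g, h1, rfl⟩
    · refine .inr ?_
      have h2 : g = ⟨m, by omega⟩ := Fin.ext h1
      rw [h2]
      rfl

private theorem adds_conj {A : Set (Fn V)} (f : ℕ → (V → Bool) → Bool) (r : V → ℕ) (m : ℕ)
    (hf : ∀ k, k < m → (f k, r) ∈ A) :
    Adds m A {(fun x => decide (∀ k, k < m → f k x = true), r)} := by
  induction m with
  | zero =>
    refine Adds.const ?_
    rintro _ rfl
    exact .inl fun x => by simp
  | succ m ih =>
    refine ((ih fun k hk => hf k (by omega)).trans (Adds.and
      (F := fun x => decide (∀ k, k < m → f k x = true)) (F' := f m) (r := r) (r' := r) (.inr rfl)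
      (.inl (hf m (by omega))) (fun _ => le_rfl) (fun _ => le_rfl) fun x => ?_)).mono subset_rfl
      le_rfl Set.subset_union_right
    rw [Bool.eq_iff_iff, Bool.and_eq_true, decide_eq_true_eq, decide_eq_true_eq]
    constructor
    · intro h
      exact ⟨fun k hk => h k (by omega), h m (by omega)⟩
    · rintro ⟨h1, h2⟩ k hk
      rcases lt_or_eq_of_le (Nat.lt_succ_iff.1 hk) with h3 | h3
      · exact h1 k h3
      · rw [h3]
        exact h2

end

/-! ## Small circuits -/

private theorem tree_lit {D : Circuit V s} {g : Fin s} {v : V} {b : Bool}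
    (hg : D.gate g = .lit v b) {L : List (V × Bool)} (h : LTree D g L) : L = [(v, b)] := by
  cases h with
  | lit _ v' b' h' =>
    rw [hg] at h'
    cases h'
    rfl
  | left _ i j _ h' _ =>
    rw [hg] at h'
    cases h'
  | right _ i j _ h' _ =>
    rw [hg] at h'
    cases h'
  | both _ i j _ _ h' _ _ =>
    rw [hg] at h'
    cases h'

/-- the circuit `x_v ∨ ¬ x_v` or `x_v ∧ ¬ x_v` -/
private def cst (v : V) (c : Bool) : Circuit V 3 where
  gate := ![.lit v true, .lit v false, if c = true then .or 0 1 else .and 0 1]
  and_lt := by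
    intro g i j h
    fin_cases g <;> simp at h
    split_ifs at h
    obtain ⟨rfl, rfl⟩ := Gate.and.inj h
    decide
  or_lt := by
    intro g i j h
    fin_cases g <;> simp at h
    split_ifs at h
    obtain ⟨rfl, rfl⟩ := Gate.or.inj h
    decide
  out := 2

private theorem cst_accepts (v : V) (c : Bool) (x : V → Bool) :
    (cst v c).Accepts x ↔ c = true := by
  have h := ev_isEval (cst v c) x
  set val := evL (cst v c) fun p => x p.1 == p.2
  have h0 : val 0 = (x v == true) := h 0
  have h1 : val 1 = (x v == false) := h 1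
  rw [accepts_iff h]
  have h2 := h 2
  show val 2 = true ↔ _
  cases c
  · have h3 : val 2 = (val 0 && val 1) := h2
    rw [h3, h0, h1]
    cases x v <;> simp
  · have h3 : val 2 = (val 0 || val 1) := h2
    rw [h3, h0, h1]
    cases x v <;> simp

private theorem cst_tree [DecidableEq V] (v : V) (c : Bool) {L : List (V × Bool)}
    (h : LTree (cst v c) 2 L) (w : V) : L.count (w, false) ≤ 1 := by
  have g0 : (cst v c).gate 0 = .lit v true := rfl
  have g1 : (cst v c).gate 1 = .lit v false := rfl
  have g2 : (cst v c).gate 2 = if c = true then .or 0 1 else .and 0 1 := rfl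
  cases h with
  | lit _ v' b' h' =>
    rw [g2] at h'
    split_ifs at h'
  | left _ i j _ h' hL =>
    rw [g2] at h'
    split_ifs at h'
    obtain ⟨rfl, rfl⟩ := Gate.and.inj h'
    rw [tree_lit g0 hL]
    exact List.count_le_length
  | right _ i j _ h' hL =>
    rw [g2] at h'
    split_ifs at h'
    obtain ⟨rfl, rfl⟩ := Gate.and.inj h'
    rw [tree_lit g1 hL]
    exact List.count_le_length
  | both _ i j L L' h' hL hL' =>
    rw [g2] at h'
    split_ifs at h'
    obtain ⟨rfl, rfl⟩ := Gate.or.inj h'
    rw [tree_lit g0 hL, tree_lit g1 hL', List.count_append, List.count_singleton,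
      List.count_singleton, if_neg (by simp)]
    split_ifs <;> omega

private def withOut (D : Circuit V s) (g : Fin s) : Circuit V s :=
  ⟨D.gate, D.and_lt, D.or_lt, g⟩

private theorem withOut_tree {D : Circuit V s} {g g' : Fin s} {L : List (V × Bool)}
    (h : LTree (withOut D g) g' L) : LTree D g' L := by
  refine sub_tree (f := fun i => i) (fun i => ?_) h g' rfl
  show D.gate i = _
  rcases D.gate i with ⟨v, b⟩ | ⟨a, b⟩ | ⟨a, b⟩ <;> rfl

/-! ## Negative leaves -/

section

variable [Fintype V] [DecidableEq V]

private noncomputable def hl (k : ℕ) (p : V × Bool) (x : V → Bool) : Bool :=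
  if p.2 = true then x p.1 == true else decide (k ≤ (univ.erase p.1).toList.countP x)

private noncomputable def Fk (D : Circuit V s) (k : ℕ) (x : V → Bool) : Bool :=
  decide ((univ : Finset V).toList.countP x < k) ||
    (decide (k + 1 ≤ (univ : Finset V).toList.countP x) ||
      evL D (fun p => hl k p x) D.out)

private theorem count_erase (x : V → Bool) (v : V) : (univ : Finset V).toList.countP x =
    (univ.erase v).toList.countP x + if x v = true then 1 else 0 := by
  have h1 : (univ : Finset V).toList.Perm (v :: (univ.erase v).toList) := by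
    have h2 := Finset.toList_insert (a := v) (s := univ.erase v) (notMem_erase v _)
    rwa [insert_erase (mem_univ v)] at h2
  rw [h1.countP_eq, List.countP_cons]

private theorem Fk_iff (D : Circuit V s) (x : V → Bool) :
    (∀ k, k < Fintype.card V + 1 → Fk D k x = true) ↔ D.Accepts x := by
  rw [accepts_iff (ev_isEval D x)]
  set m := (univ : Finset V).toList.countP x with hm
  have hmN : m ≤ Fintype.card V := by
    rw [← card_univ, ← length_toList, hm]
    exact List.countP_le_length
  have h1 : (fun p => hl m p x) = fun p => x p.1 == p.2 := by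
    funext p
    obtain ⟨v, b⟩ := p
    have h2 := count_erase x v
    rw [← hm] at h2
    cases b
    · cases hx : x v
      · rw [hx] at h2
        simp only [hl, hx]
        simp at h2
        simp [h2]
      · rw [hx] at h2
        simp only [hl, hx]
        simp at h2
        simp
        omega
    · simp [hl]
  constructor
  · intro h
    have h2 := h m (by omega)
    unfold Fk at h2
    rw [← hm, h1] at h2
    simpa using h2
  · intro h k hk
    unfold Fk
    rw [← hm]
    rcases lt_trichotomy m k with h2 | h2 | h2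
    · simp [h2]
    · rw [← h2, h1, h]
      simp
    · have h3 : k + 1 ≤ m := h2
      simp [h3]

private theorem polarity_false (D : Circuit V s) : ∃ (s' : ℕ) (D' : Circuit V s'),
    s' ≤ (s + 20) * (Fintype.card V + 2) ^ 5 ∧ (∀ x, D'.Accepts x ↔ D.Accepts x) ∧
      ∀ L, LTree D' D'.out L → ∀ v, L.count (v, false) ≤ 1 := by
  -- there is a variable
  obtain ⟨v₀⟩ : Nonempty V := by
    have h0 : 0 < s := Nat.lt_of_le_of_lt (Nat.zero_le _) D.out.2
    rcases hg : D.gate ⟨0, h0⟩ with ⟨v, b⟩ | ⟨i, j⟩ | ⟨i, j⟩
    · exact ⟨v⟩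
    · exact absurd (D.and_lt _ i j hg).1 (by simp [Fin.lt_def])
    · exact absurd (D.or_lt _ i j hg).1 (by simp [Fin.lt_def])
  set N := Fintype.card V with hN
  have hUl : (univ : Finset V).toList.length = N := by rw [length_toList, card_univ]
  -- the tables
  have e1 : Adds (N * (N + 1)) (Lits V) {p | ∃ j, p = LT (univ : Finset V).toList j} := by
    have := table_lt (univ : Finset V).toList (nodup_toList _)
    rwa [hUl] at this
  have e2 : Adds (N * (N + 1)) (Lits V) {p | ∃ j, p = GE (univ : Finset V).toList j} := by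
    have := table_ge (univ : Finset V).toList
    rwa [hUl] at this
  have e3 : Adds (N * (N * (N + 1))) (Lits V)
      (⋃ v ∈ (univ : Finset V), {p | ∃ j, p = GE (univ.erase v).toList j}) := by
    have h1 := Adds.finset (c := N * (N + 1)) (A := Lits V) (univ : Finset V)
      (fun v => {p | ∃ j, p = GE (univ.erase v).toList j}) fun v _ => by
        refine (table_ge (univ.erase v).toList).mono subset_rfl ?_ subset_rfl
        have h2 : (univ.erase v).toList.length ≤ N := by
          rw [length_toList, hN, ← card_univ]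
          exact card_le_card (erase_subset _ _)
        exact Nat.mul_le_mul h2 (Nat.add_le_add_right h2 1)
    rwa [card_univ] at h1
  set A : Set (Fn V) := Lits V ∪ ({p | ∃ j, p = LT (univ : Finset V).toList j} ∪
    ({p | ∃ j, p = GE (univ : Finset V).toList j} ∪
      ⋃ v ∈ (univ : Finset V), {p | ∃ j, p = GE (univ.erase v).toList j})) with hA
  have e4 : Adds (2 * N + (N * (N + 1) + (N * (N + 1) + N * (N * (N + 1))))) ∅ A :=
    (adds_lits ∅).trans ((e1.union (e2.union e3)).mono Set.subset_union_right le_rfl subset_rfl)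
  have hz : ∀ k p, (hl k p, fun _ => 0) ∈ A := by
    rintro k ⟨v, b⟩
    cases b
    · refine .inr (.inr (.inr (Set.mem_biUnion (mem_coe.2 (mem_univ v)) ⟨k, ?_⟩)))
      unfold hl GE
      simp
    · refine .inl ⟨v, .inl ?_⟩
      unfold hl pos
      simp
  -- the clauses
  have e5 : ∀ k, Adds (s + 2) A {(Fk D k, fun _ => 1)} := by
    intro k
    have h1 := adds_gates D (hl k) (hz k) s le_rfl
    have h2 : Adds 1 (A ∪ {q | ∃ g : Fin s, g.1 < s ∧
        q = (fun x => evL D (fun p => hl k p x) g, fun _ => 0)})
        {(fun x => decide (k + 1 ≤ (univ : Finset V).toList.countP x) ||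
          evL D (fun p => hl k p x) D.out, fun _ => 0)} :=
      Adds.or (F := fun x => decide (k + 1 ≤ (univ : Finset V).toList.countP x))
        (F' := fun x => evL D (fun p => hl k p x) D.out) (r := fun _ => 0) (r' := fun _ => 0)
        (.inl (.inr (.inr (.inl ⟨k + 1, rfl⟩)))) (.inr ⟨D.out, D.out.2, rfl⟩) (fun _ => le_rfl)
        fun x => rfl
    have h3 : Adds 1 (A ∪ ({q | ∃ g : Fin s, g.1 < s ∧
        q = (fun x => evL D (fun p => hl k p x) g, fun _ => 0)} ∪
        {(fun x => decide (k + 1 ≤ (univ : Finset V).toList.countP x) ||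
          evL D (fun p => hl k p x) D.out, fun _ => 0)})) {(Fk D k, fun _ => 1)} := by
      refine Adds.or (F := fun x => decide ((univ : Finset V).toList.countP x < k))
        (F' := fun x => decide (k + 1 ≤ (univ : Finset V).toList.countP x) ||
          evL D (fun p => hl k p x) D.out) (r := ind (univ : Finset V).toList) (r' := fun _ => 0)
        (.inl (.inr (.inl ⟨k, rfl⟩))) (.inr (.inr rfl)) (fun v => ?_) fun x => rfl
      unfold ind
      split_ifs <;> omega
    refine ((h1.trans h2).trans h3).mono subset_rfl (by omega) Set.subset_union_right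
  have e6 := Adds.finset (range (N + 1)) (fun k => {(Fk D k, fun _ => 1)}) fun k _ => e5 k
  rw [card_range] at e6
  have e7 := adds_conj (A := A ∪ ⋃ k ∈ range (N + 1), {(Fk D k, fun _ => 1)}) (Fk D)
    (fun _ => 1) (N + 1) fun k hk => .inr (Set.mem_biUnion (mem_coe.2 (mem_range.2 hk)) rfl)
  have e8 := e4.trans ((e6.trans e7).mono (A' := ∅ ∪ A) Set.subset_union_right le_rfl subset_rfl)
  -- the first gate
  have e9 : Comp 1 (∅ : Set (Fn V)) := ⟨1, le_rfl, ⟨fun _ => .lit v₀ true,
    fun g i j h => absurd h (by simp), fun g i j h => absurd h (by simp), 0⟩,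
    fun p hp => absurd hp (by simp)⟩
  obtain ⟨s', hs', D', hD'⟩ := e8 1 ∅ subset_rfl e9
  have hb : 1 + (2 * N + (N * (N + 1) + (N * (N + 1) + N * (N * (N + 1)))) +
      ((N + 1) * (s + 2) + (N + 1))) ≤ (s + 20) * (N + 2) ^ 5 := by
    have h1 : (N + 2) ^ 3 ≤ (N + 2) ^ 5 := Nat.pow_le_pow_right (by omega) (by omega)
    calc _ ≤ (s + 20) * (N + 2) ^ 3 := by
          ring_nf
          nlinarith [Nat.zero_le (N ^ 2 * s), Nat.zero_le (N ^ 3 * s), Nat.zero_le (N * s)]
      _ ≤ _ := Nat.mul_le_mul_left _ h1
  have h20 : 3 ≤ (s + 20) * (N + 2) ^ 5 := by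
    have h1 : 1 ≤ (N + 2) ^ 5 := Nat.one_le_pow _ _ (by omega)
    nlinarith
  have hF := hD' (fun x => decide (∀ k, k < N + 1 → Fk D k x = true), fun _ => 1)
    (.inr (.inr (.inr rfl)))
  rcases hF with (hF | hF) | ⟨g, h1, h2⟩
  · refine ⟨3, cst v₀ true, h20, fun x => ?_, fun L hL v => cst_tree v₀ true hL v⟩
    rw [cst_accepts, ← Fk_iff, ← decide_eq_true_eq (p := ∀ k, k < Fintype.card V + 1 →
      Fk D k x = true)]
    exact iff_of_true rfl (hF x)
  · refine ⟨3, cst v₀ false, h20, fun x => ?_, fun L hL v => cst_tree v₀ false hL v⟩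
    rw [cst_accepts, ← Fk_iff, ← decide_eq_true_eq (p := ∀ k, k < Fintype.card V + 1 →
      Fk D k x = true)]
    have h1 := hF x
    dsimp only at h1
    rw [← hN, h1]
  · refine ⟨s', withOut D' g, hs'.trans hb, fun x => ?_, fun L hL v => h2 L (withOut_tree hL) v⟩
    have h3 := ev_isEval D' x
    have h4 : (withOut D' g).IsEval x (evL D' fun p => x p.1 == p.2) := h3
    rw [accepts_iff h4, ← Fk_iff D, ← decide_eq_true_eq (p := ∀ k, k < Fintype.card V + 1 →
      Fk D k x = true)]
    exact Bool.eq_iff_iff.1 (h1 x _ h3)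

end

/-! ## The other sign -/

private def flipGate : Gate V s → Gate V s
  | .lit v b => .lit v (!b)
  | .and i j => .and i j
  | .or i j => .or i j

private def flip (D : Circuit V s) : Circuit V s where
  gate g := flipGate (D.gate g)
  and_lt := by
    intro g i j h
    rcases hg : D.gate g with ⟨v, b⟩ | ⟨i', j'⟩ | ⟨i', j'⟩ <;> rw [hg] at h <;>
      simp only [flipGate, reduceCtorEq, Gate.and.injEq] at h
    obtain ⟨rfl, rfl⟩ := h
    exact D.and_lt g _ _ hg
  or_lt := by
    intro g i j h
    rcases hg : D.gate g with ⟨v, b⟩ | ⟨i', j'⟩ | ⟨i', j'⟩ <;> rw [hg] at h <;>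
      simp only [flipGate, reduceCtorEq, Gate.or.injEq] at h
    obtain ⟨rfl, rfl⟩ := h
    exact D.or_lt g _ _ hg
  out := D.out

private theorem flip_gate (D : Circuit V s) (g : Fin s) :
    (flip D).gate g = flipGate (D.gate g) := rfl

private theorem flip_accepts (D : Circuit V s) (x : V → Bool) :
    (flip D).Accepts x ↔ D.Accepts fun v => !x v := by
  have h := ev_isEval (flip D) x
  set val := evL (flip D) fun p => x p.1 == p.2
  have h' : D.IsEval (fun v => !x v) val := by
    intro g
    have h1 := h g
    rw [flip_gate] at h1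
    rw [h1]
    rcases D.gate g with ⟨v, b⟩ | ⟨i, j⟩ | ⟨i, j⟩
    · simp only [flipGate]
      cases x v <;> cases b <;> rfl
    · rfl
    · rfl
  rw [accepts_iff h, accepts_iff h']
  rfl

private theorem flip_tree {D : Circuit V s} {g : Fin s} {L : List (V × Bool)}
    (h : LTree (flip D) g L) : LTree D g (L.map fun p => (p.1, !p.2)) := by
  induction h with
  | lit g v b h =>
    rw [flip_gate] at h
    rcases hg : D.gate g with ⟨w, c⟩ | ⟨i, j⟩ | ⟨i, j⟩ <;> rw [hg] at h <;>
      simp only [flipGate, reduceCtorEq, Gate.lit.injEq] at h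
    obtain ⟨rfl, rfl⟩ := h
    rw [List.map_singleton, Bool.not_not]
    exact .lit g _ _ hg
  | left g i j L h _ ih =>
    rw [flip_gate] at h
    rcases hg : D.gate g with ⟨w, c⟩ | ⟨i', j'⟩ | ⟨i', j'⟩ <;> rw [hg] at h <;>
      simp only [flipGate, reduceCtorEq, Gate.and.injEq] at h
    obtain ⟨rfl, rfl⟩ := h
    exact .left g _ _ _ hg ih
  | right g i j L h _ ih =>
    rw [flip_gate] at h
    rcases hg : D.gate g with ⟨w, c⟩ | ⟨i', j'⟩ | ⟨i', j'⟩ <;> rw [hg] at h <;>
      simp only [flipGate, reduceCtorEq, Gate.and.injEq] at h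
    obtain ⟨rfl, rfl⟩ := h
    exact .right g _ _ _ hg ih
  | both g i j L L' h _ _ ih ih' =>
    rw [flip_gate] at h
    rcases hg : D.gate g with ⟨w, c⟩ | ⟨i', j'⟩ | ⟨i', j'⟩ <;> rw [hg] at h <;>
      simp only [flipGate, reduceCtorEq, Gate.or.injEq] at h
    obtain ⟨rfl, rfl⟩ := h
    rw [List.map_append]
    exact .both g _ _ _ _ hg ih ih'

/-- **Bounding the reads of one sign is no restriction.**  For each circuit `D` and each sign `b`
there is an equivalent circuit of polynomial size each formal refutation tree of which has at most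
one leaf `(v, b)` for each variable `v`. -/
theorem polarity {V : Type} [Fintype V] [DecidableEq V] {s : ℕ} (D : Circuit V s) (b : Bool) :
    ∃ (s' : ℕ) (D' : Circuit V s'), s' ≤ (s + 20) * (Fintype.card V + 2) ^ 5 ∧
      (∀ x, D'.Accepts x ↔ D.Accepts x) ∧
      ∀ L, LTree D' D'.out L → ∀ v, L.count (v, b) ≤ 1 := by
  cases b
  · exact polarity_false D
  · obtain ⟨s', D', h1, h2, h3⟩ := polarity_false (flip D)
    refine ⟨s', flip D', h1, fun x => ?_, fun L hL v => ?_⟩
    · rw [flip_accepts, h2, flip_accepts]
      simp only [Bool.not_not]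
    · have h4 := h3 _ (flip_tree hL) v
      have h5 : (L.map fun p => (p.1, !p.2)).count (v, false) = L.count (v, true) := by
        have h6 := List.count_map_of_injective L (fun p : V × Bool => (p.1, !p.2))
          (fun p q h => by
            have h7 := Prod.ext_iff.1 h
            exact Prod.ext h7.1 (Bool.not_inj h7.2)) (v, true)
        simpa using h6
      rwa [h5] at h4

end Pool.Agent.RT
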