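import Mathlib
import Pool.Agent.Lib.MP_0a1b52_lc_FP.Pass
import Pool.Agent.Lib.MP_0a1b52_lc_RT.Once
import Pool.Agent.Lib.MP_0a1b52_lc_RT.Dnf

/-!
# How often a circuit reads its variables, module Sharp: circuits which read few variables once
-/

set_option autoImplicit false

namespace Pool.Agent.RT

open Finset Pool.Agent.FP

private theorem sharp_par (γ : ℝ) (hγ : 1 / 2 < γ) : ∀ᶠ n : ℕ in Filter.atTop,
    (n : ℝ) ^ γ / 2 + 1 + ((Nat.sqrt n : ℝ) + 4) * Real.logb 2 n ≤ (n : ℝ) ^ γ := by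
  have hcast := tendsto_natCast_atTop_atTop (R := ℝ)
  obtain ⟨β, hβ⟩ : ∃ β, β = (γ - 1 / 2) / 2 := ⟨_, rfl⟩
  have hβ0 : 0 < β := by
    rw [hβ]
    linarith
  have h1 := (isLittleO_log_rpow_atTop hβ0).bound
    (Real.log_pos (by norm_num : (1 : ℝ) < 2))
  have h2 := ((tendsto_rpow_atTop hβ0).comp hcast).eventually_ge_atTop 12
  filter_upwards [hcast.eventually h1, h2, Filter.eventually_ge_atTop 1] with n k1 k2 k4
  have hn : (1 : ℝ) ≤ n := by exact_mod_cast k4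
  have hn0 : (0 : ℝ) < n := by linarith
  have hl : 0 < Real.log 2 := Real.log_pos (by norm_num)
  have k3 : Real.logb 2 n ≤ (n : ℝ) ^ β := by
    rw [Real.norm_of_nonneg (Real.log_nonneg hn), Real.norm_of_nonneg (by positivity)] at k1
    rw [Real.logb, div_le_iff₀ hl, mul_comm]
    exact k1
  have k2' : (12 : ℝ) ≤ (n : ℝ) ^ β := k2
  have e1 : (n : ℝ) ^ γ = (n : ℝ) ^ (1 / 2 : ℝ) * (n : ℝ) ^ β * (n : ℝ) ^ β := by
    rw [← Real.rpow_add hn0, ← Real.rpow_add hn0]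
    congr 1
    rw [hβ]
    ring
  have e2 : (Nat.sqrt n : ℝ) ≤ (n : ℝ) ^ (1 / 2 : ℝ) := by
    rw [← Real.sqrt_eq_rpow]
    exact Real.nat_sqrt_le_real_sqrt
  have e3 : (1 : ℝ) ≤ (n : ℝ) ^ (1 / 2 : ℝ) := Real.one_le_rpow hn (by norm_num)
  set a := (n : ℝ) ^ (1 / 2 : ℝ) with ha
  set b := (n : ℝ) ^ β with hb
  have e4 : ((Nat.sqrt n : ℝ) + 4) * Real.logb 2 n ≤ 5 * a * b := by
    refine mul_le_mul (by linarith) k3 (Real.logb_nonneg (by norm_num) hn) (by positivity)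
  have e5 : 12 * (a * b) ≤ a * b * b := by
    have h5 : 0 ≤ a * b := by positivity
    nlinarith
  have e6 : 1 ≤ a * b := by nlinarith
  rw [e1]
  nlinarith

/-- **Circuits for the clique function which read few variables once.** -/
theorem sharp (γ : ℝ) (hγ : 1 / 2 < γ) (hγ2 : γ < 2) : ∃ n₀ : ℕ, ∀ n ≥ n₀,
    ∀ E : Finset (EdgeVar n), (E.card : ℝ) ≤ (n : ℝ) ^ γ / 2 →
      ∃ (s : ℕ) (D : Circuit (EdgeVar n) s), (s : ℝ) ≤ (2 : ℝ) ^ ((n : ℝ) ^ γ) ∧
        (∀ x, D.Accepts x ↔ Clq x) ∧ ∀ e ∈ E, ∀ L, Tree D D.out L → L.count e ≤ 1 := by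
  obtain ⟨n₁, h₁⟩ := dnf
  obtain ⟨n₂, h₂⟩ := Filter.eventually_atTop.1 (sharp_par γ hγ)
  obtain ⟨n₃, h₃⟩ := Filter.eventually_atTop.1
    (((tendsto_rpow_atTop (by linarith : 0 < 2 - γ)).comp
      (tendsto_natCast_atTop_atTop (R := ℝ))).eventually_ge_atTop 3)
  refine ⟨max (max n₁ n₂) (max n₃ 16), fun n hn E hE => ?_⟩
  have hn1 : n₁ ≤ n := le_trans (le_trans (le_max_left _ _) (le_max_left _ _)) hn
  have hn2 : n₂ ≤ n := le_trans (le_trans (le_max_right _ _) (le_max_left _ _)) hn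
  have hn3 : n₃ ≤ n := le_trans (le_trans (le_max_left _ _) (le_max_right _ _)) hn
  have hn4 : 16 ≤ n := le_trans (le_trans (le_max_right _ _) (le_max_right _ _)) hn
  have hnR : (16 : ℝ) ≤ n := by exact_mod_cast hn4
  have hn0 : (0 : ℝ) < n := by linarith
  have hn11 : (1 : ℝ) ≤ n := by linarith
  obtain ⟨s, D, hs, hD⟩ := h₁ n hn1
  have hcv := Pass_card n
  -- a further variable
  have hEn : E.card < Fintype.card (EdgeVar n) := by
    have h5 : (3 : ℝ) ≤ (n : ℝ) ^ (2 - γ) := h₃ n hn3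
    have h6 : (n : ℝ) ^ 2 = (n : ℝ) ^ γ * (n : ℝ) ^ (2 - γ) := by
      rw [← Real.rpow_natCast, ← Real.rpow_add hn0]
      congr 1
      push_cast
      ring
    have h7 : 3 * (n : ℝ) ^ γ ≤ (n : ℝ) ^ 2 := by
      rw [h6]
      have : 0 ≤ (n : ℝ) ^ γ := by positivity
      nlinarith
    have h8 : (n : ℝ) * n = 2 * (Fintype.card (EdgeVar n) : ℝ) + n := by exact_mod_cast hcv
    have h9 : (E.card : ℝ) < (Fintype.card (EdgeVar n) : ℝ) := by nlinarith
    exact_mod_cast h9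
  obtain ⟨w, hw⟩ : ∃ w, w ∉ E := by
    by_contra hc
    have h5 : E = univ := eq_univ_iff_forall.2 fun w => by
      by_contra h
      exact hc ⟨w, h⟩
    rw [h5, card_univ] at hEn
    exact lt_irrefl _ hEn
  obtain ⟨s', D', hs', hD', hcnt⟩ := once D E w hw
  refine ⟨s', D', ?_, fun x => (hD' x).trans (hD x), ?_⟩
  · have h5 : s + 2 * E.card + 5 ≤ 2 * n ^ (Nat.sqrt n + 4) := by
      have h6 : n ^ 3 ≤ n ^ (Nat.sqrt n + 4) := Nat.pow_le_pow_right (by omega) (by omega)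
      have h7 : 2 * E.card + 5 ≤ n ^ 3 := by nlinarith
      omega
    have h6 : (s' : ℝ) ≤ (2 : ℝ) ^ E.card * (2 * (n : ℝ) ^ (Nat.sqrt n + 4)) := by
      have h7 : s' ≤ 2 ^ E.card * (2 * n ^ (Nat.sqrt n + 4)) :=
        hs'.trans (Nat.mul_le_mul_left _ h5)
      exact_mod_cast h7
    refine h6.trans ?_
    have h8 : (n : ℝ) ^ (Nat.sqrt n + 4) =
        (2 : ℝ) ^ (((Nat.sqrt n : ℝ) + 4) * Real.logb 2 n) := by
      rw [mul_comm, Real.rpow_mul (by norm_num), Real.rpow_logb (by norm_num) (by norm_num) hn0,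
        ← Real.rpow_natCast]
      congr 1
      push_cast
      ring
    have h9 : (2 : ℝ) ^ E.card * (2 * (n : ℝ) ^ (Nat.sqrt n + 4)) =
        (2 : ℝ) ^ ((E.card : ℝ) + 1 + ((Nat.sqrt n : ℝ) + 4) * Real.logb 2 n) := by
      rw [Real.rpow_add (by norm_num), Real.rpow_add (by norm_num), Real.rpow_one,
        Real.rpow_natCast, h8]
      ring
    rw [h9]
    refine Real.rpow_le_rpow_of_exponent_le (by norm_num) ?_
    have h10 := h₂ n hn2
    linarith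
  · intro e he L hL
    exact hcnt e he L hL

end Pool.Agent.RT
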