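import Mathlib
import Pool.Agent.Lib.MP_0a1b52_lc_RS.Main
import Pool.Agent.Lib.MP_0a1b52_lc_RT.Sharp
import Pool.Agent.Lib.MP_0a1b52_lc_RT.Polar

/-!
# How often a circuit reads its variables, module Frontier: the three parts
-/

set_option autoImplicit false

namespace Pool.Agent.RT

open Finset Pool.Agent.FP

open Classical in
/-- the lower bound -/
theorem part1 (γ ε : ℝ) (hγ : 0 ≤ γ) (hε : 0 < ε) : ∃ c : ℝ, 0 < c ∧ ∃ n₀ : ℕ, ∀ n ≥ n₀,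
    ∀ E : Finset (EdgeVar n), (n : ℝ) ^ (γ + ε) ≤ E.card →
      ∃ (N : ℕ) (Q : Fin N → EdgeVar n → Bool), 0 < N ∧ (∀ i, ¬ Clq (Q i)) ∧
        ∀ (s : ℕ) (D : Circuit (EdgeVar n) s), (∀ x, Clq x → D.Accepts x) →
          (s : ℝ) ≤ (2 : ℝ) ^ ((n : ℝ) ^ γ) →
          (∀ e ∈ E, ∀ L, LTree D D.out L →
            ((L.map Prod.fst).count e : ℝ) ≤ c * Real.logb 2 n) →
          ((univ.filter fun i => ¬ D.Accepts (Q i)).card : ℝ) ≤
            N * (2 : ℝ) ^ (-((n : ℝ) ^ γ)) := by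
  obtain ⟨c, hc, n₀, h⟩ := Pool.Agent.RS.mainS γ ε hγ hε
  refine ⟨c, hc, n₀, fun n hn E hE => ?_⟩
  obtain ⟨N, Q, hN, hQ, h1⟩ := h n hn E hE
  refine ⟨N, Q, hN, hQ, fun s D hD hs hcnt => h1 s D hD hs fun e he M hM => ?_⟩
  obtain ⟨L, hL, rfl⟩ := (tree_iff D D.out M).1 hM
  exact hcnt e he L hL

/-- few variables can be read once -/
theorem part2 (γ : ℝ) (hγ : 1 / 2 < γ) (hγ2 : γ < 2) : ∃ n₀ : ℕ, ∀ n ≥ n₀,
    ∀ E : Finset (EdgeVar n), (E.card : ℝ) ≤ (n : ℝ) ^ γ / 2 →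
      ∃ (s : ℕ) (D : Circuit (EdgeVar n) s), (s : ℝ) ≤ (2 : ℝ) ^ ((n : ℝ) ^ γ) ∧
        (∀ x, D.Accepts x ↔ Clq x) ∧
        ∀ e ∈ E, ∀ L, LTree D D.out L → (L.map Prod.fst).count e ≤ 1 := by
  obtain ⟨n₀, h⟩ := sharp γ hγ hγ2
  refine ⟨n₀, fun n hn E hE => ?_⟩
  obtain ⟨s, D, h1, h2, h3⟩ := h n hn E hE
  exact ⟨s, D, h1, h2, fun e he L hL => h3 e he _ ((tree_iff D D.out _).2 ⟨L, hL, rfl⟩)⟩

/-- one sign can be read once -/
theorem part3 : ∃ n₀ : ℕ, ∀ n ≥ n₀, ∀ (s : ℕ) (D : Circuit (EdgeVar n) s) (b : Bool),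
    ∃ (s' : ℕ) (D' : Circuit (EdgeVar n) s'), s' ≤ n ^ 10 * s ∧
      (∀ x, D'.Accepts x ↔ D.Accepts x) ∧
      ∀ L, LTree D' D'.out L → ∀ e, L.count (e, b) ≤ 1 := by
  refine ⟨100, fun n hn s D b => ?_⟩
  obtain ⟨s', D', h1, h2, h3⟩ := polarity D b
  refine ⟨s', D', h1.trans ?_, h2, fun L hL e => ?_⟩
  · have hs : 1 ≤ s := by
      have := D.out.2
      omega
    have hcv := Pass_card n
    have h4 : 21 * (Fintype.card (EdgeVar n) + 2) ^ 5 ≤ n ^ 10 := by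
      have h5 : 2 * (Fintype.card (EdgeVar n) + 2) ≤ n ^ 2 := by nlinarith
      have h6 := Nat.pow_le_pow_left h5 5
      have h7 : (2 * (Fintype.card (EdgeVar n) + 2)) ^ 5 =
          32 * (Fintype.card (EdgeVar n) + 2) ^ 5 := by ring
      have h8 : (n ^ 2) ^ 5 = n ^ 10 := by rw [← pow_mul]
      rw [h7, h8] at h6
      omega
    calc (s + 20) * (Fintype.card (EdgeVar n) + 2) ^ 5
        ≤ (21 * s) * (Fintype.card (EdgeVar n) + 2) ^ 5 := Nat.mul_le_mul_right _ (by omega)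
      _ = 21 * (Fintype.card (EdgeVar n) + 2) ^ 5 * s := by ring
      _ ≤ n ^ 10 * s := Nat.mul_le_mul_right _ h4
  · refine le_trans (le_of_eq ?_) (h3 L hL e)
    congr 1
    exact lawful_beq_subsingleton _ _

end Pool.Agent.RT
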