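import Mathlib
import Pool.Agent.Lib.MP_0a1b52_lc_RT.CoreB
import Pool.Agent.Lib.MP_0a1b52_lc_RP.Emb2

/-!
# How often a circuit reads its variables, module Main: the theorem
-/

set_option autoImplicit false

namespace Pool.Agent.RT

open Finset Pool.Agent.FP Pool.Agent.RP

private theorem ev_log (η : ℝ) (hη : 0 < η) : ∀ᶠ n : ℕ in Filter.atTop,
    Real.logb 2 n ≤ (n : ℝ) ^ (η / 4) ∧ 1 ≤ (n : ℝ) ^ (η / 4) ∧
      13968 ≤ (n : ℝ) ^ (η / 2) := by
  have hcast := tendsto_natCast_atTop_atTop (R := ℝ)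
  have h1 := (isLittleO_log_rpow_atTop (by positivity : 0 < η / 4)).bound
    (Real.log_pos (by norm_num : (1 : ℝ) < 2))
  have h2 := ((tendsto_rpow_atTop (by positivity : 0 < η / 4)).comp hcast).eventually_ge_atTop 1
  have h3 := ((tendsto_rpow_atTop (by positivity : 0 < η / 2)).comp hcast).eventually_ge_atTop
    13968
  filter_upwards [hcast.eventually h1, h2, h3, Filter.eventually_ge_atTop 1] with n k1 k2 k3 k4
  refine ⟨?_, k2, k3⟩
  have hn : (1 : ℝ) ≤ n := by exact_mod_cast k4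
  have hl : 0 < Real.log 2 := Real.log_pos (by norm_num)
  rw [Real.norm_of_nonneg (Real.log_nonneg hn), Real.norm_of_nonneg (by positivity)] at k1
  rw [Real.logb, div_le_iff₀ hl, mul_comm]
  exact k1

open Classical in
theorem main (ε : ℝ) (hε : 0 < ε) : ∃ c δ : ℝ, 0 < c ∧ 0 < δ ∧ ∃ n₀ : ℕ, ∀ n ≥ n₀,
    ∃ (N : ℕ) (Q : Fin N → EdgeVar n → Bool), 0 < N ∧ (∀ i, ¬ Clq (Q i)) ∧
      ∀ (s : ℕ) (D : Circuit (EdgeVar n) s), (∀ x, Clq x → D.Accepts x) →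
        (s : ℝ) ≤ (2 : ℝ) ^ ((n : ℝ) ^ (2 - ε)) →
        ∀ E : Finset (EdgeVar n), (n : ℝ) ^ (2 - δ) ≤ E.card →
          (∀ e ∈ E, ∀ L, Tree D D.out L → (L.count e : ℝ) ≤ c * Real.logb 2 n) →
          ((univ.filter fun i => ¬ D.Accepts (Q i)).card : ℝ) ≤
            N * (2 : ℝ) ^ (-((n : ℝ) ^ (2 - ε))) := by
  set ε' := min (ε / 2) (1 / 2) with hε'
  have hε0 : 0 < ε' := lt_min (by positivity) (by norm_num)
  have hε1 : ε' ≤ ε / 2 := min_le_left _ _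
  have hε2 : ε' ≤ 1 / 2 := min_le_right _ _
  obtain ⟨δ₁, n₁, hδ₁, hE⟩ := embed2 ε' hε0
  set δ₂ := min δ₁ 1 with hδ₂
  have hδ20 : 0 < δ₂ := lt_min hδ₁ one_pos
  have hδ21 : δ₂ ≤ δ₁ := min_le_left _ _
  have hδ22 : δ₂ ≤ 1 := min_le_right _ _
  set η := min (ε / 2) (3 / 2) with hη
  have hη0 : 0 < η := lt_min (by positivity) (by norm_num)
  have hη1 : η ≤ ε / 2 := min_le_left _ _
  have hη2 : η ≤ 3 / 2 := min_le_right _ _
  have hlim : Filter.Tendsto (fun n : ℕ => (n : ℝ) ^ (δ₂ / 2)) Filter.atTop Filter.atTop :=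
    (tendsto_rpow_atTop (by positivity)).comp tendsto_natCast_atTop_atTop
  obtain ⟨n₂, h₂⟩ := Filter.eventually_atTop.1 (hlim.eventually_ge_atTop (5 * 2 ^ 20))
  obtain ⟨n₃, h₃⟩ := Filter.eventually_atTop.1 (ev_log η hη0)
  refine ⟨δ₂ / 80, δ₂ / 4, by positivity, by positivity, max (max n₁ n₂) (max n₃ 60),
    fun n hn => ?_⟩
  have hn1 : n₁ ≤ n := le_trans (le_trans (le_max_left _ _) (le_max_left _ _)) hn
  have hn2 : n₂ ≤ n := le_trans (le_trans (le_max_right _ _) (le_max_left _ _)) hn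
  have hn3 : n₃ ≤ n := le_trans (le_trans (le_max_left _ _) (le_max_right _ _)) hn
  have hn4 : 60 ≤ n := le_trans (le_trans (le_max_right _ _) (le_max_right _ _)) hn
  have hnR : (60 : ℝ) ≤ n := by exact_mod_cast hn4
  have hn0 : (0 : ℝ) < n := by linarith
  have hn11 : (1 : ℝ) ≤ n := by linarith
  obtain ⟨hl1, hl2, hl3⟩ := h₃ n hn3
  have hk2 := h₂ n hn2
  obtain ⟨N, Q, hN, hQ, hE⟩ := hE n hn1
  refine ⟨N, Q, hN, hQ, fun s D hD hs E hEc hcnt => ?_⟩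
  set ℓ := Real.logb 2 n with hℓ
  have hℓ0 : 0 ≤ ℓ := Real.logb_nonneg (by norm_num) hn11
  have hcl : 0 ≤ δ₂ / 80 * ℓ := by positivity
  set m := ⌊δ₂ / 80 * ℓ⌋₊ + 1 with hm
  have hm1 : 1 ≤ m := by omega
  have hmle : (m : ℝ) ≤ δ₂ / 80 * ℓ + 1 := by
    rw [hm]
    push_cast
    linarith [Nat.floor_le hcl]
  have hmge : δ₂ / 80 * ℓ ≤ m := by
    rw [hm]
    push_cast
    exact (Nat.lt_floor_add_one _).le
  have hm0 : (0 : ℝ) < m := by exact_mod_cast hm1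
  -- the size of `m`
  have hm2 : (m : ℝ) ≤ 2 * (n : ℝ) ^ (η / 4) := by
    have : δ₂ / 80 * ℓ ≤ 1 * (n : ℝ) ^ (η / 4) := by
      apply mul_le_mul _ hl1 hℓ0 (by norm_num)
      linarith
    linarith
  have hm3 : 3492 * (m : ℝ) ^ 2 ≤ (n : ℝ) ^ η := by
    have e1 : (n : ℝ) ^ η = (n : ℝ) ^ (η / 2) * (n : ℝ) ^ (η / 2) := by
      rw [← Real.rpow_add hn0]
      congr 1
      ring
    have e2 : (n : ℝ) ^ (η / 2) = ((n : ℝ) ^ (η / 4)) ^ 2 := by
      rw [← Real.rpow_natCast, ← Real.rpow_mul hn0.le]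
      congr 1
      push_cast
      ring
    calc 3492 * (m : ℝ) ^ 2 ≤ 3492 * (2 * (n : ℝ) ^ (η / 4)) ^ 2 := by gcongr
      _ = 13968 * (n : ℝ) ^ (η / 2) := by rw [e2]; ring
      _ ≤ (n : ℝ) ^ (η / 2) * (n : ℝ) ^ (η / 2) :=
          mul_le_mul_of_nonneg_right hl3 (by positivity)
      _ = (n : ℝ) ^ η := e1.symm
  -- the size of `E`
  have hE1 : (n : ℝ) ≤ E.card := by
    refine le_trans ?_ hEc
    calc (n : ℝ) = (n : ℝ) ^ (1 : ℝ) := (Real.rpow_one _).symm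
      _ ≤ (n : ℝ) ^ (2 - δ₂ / 4) := Real.rpow_le_rpow_of_exponent_le hn11 (by linarith)
  have hE2 : 12 * m ≤ E.card := by
    have h5 : ℓ ≤ n := by
      rw [hℓ, Real.logb_le_iff_le_rpow (by norm_num) hn0, Real.rpow_natCast]
      exact_mod_cast Nat.lt_two_pow_self.le
    have : (12 : ℝ) * m ≤ E.card := by
      have h6 : δ₂ / 80 * ℓ ≤ 1 / 80 * n := by
        apply mul_le_mul _ h5 hℓ0 (by norm_num)
        linarith
      linarith
    exact_mod_cast this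
  set τ := E.card / (12 * m) with hτ
  have hτ1 : 1 ≤ τ := (Nat.one_le_div_iff (by omega)).2 hE2
  have hτ2 : 12 * τ * m ≤ E.card := by
    calc 12 * τ * m = E.card / (12 * m) * (12 * m) := by rw [hτ]; ring
      _ ≤ E.card := Nat.div_mul_le_self _ _
  have hτ3 : E.card ≤ 12 * m * (τ + 1) := by
    have := Nat.lt_mul_div_succ E.card (show 0 < 12 * m by omega)
    exact this.le
  obtain ⟨R, hR⟩ : ∃ R, R = 96 * m ^ 2 := ⟨_, rfl⟩
  have hR1 : 1 ≤ R := by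
    have : 1 ≤ m ^ 2 := Nat.one_le_pow _ _ (by omega)
    omega
  have hR2 : 8 * (m * E.card) ≤ R * (τ + 1) := by
    calc 8 * (m * E.card) ≤ 8 * (m * (12 * m * (τ + 1))) := by gcongr
      _ = R * (τ + 1) := by rw [hR]; ring
  have hcnt' : ∀ e ∈ E, ∀ L, Tree D D.out L →
      @List.count (EdgeVar n) instBEqOfDecidableEq e L ≤ m := by
    intro e he L hL
    have h1 := (hcnt e he L hL).trans hmge
    have h2 : L.count e ≤ m := by exact_mod_cast h1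
    refine le_trans (le_of_eq ?_) h2
    rw [lawful_beq_subsingleton (instBEqOfDecidableEq : BEq (EdgeVar n)) Subtype.instBEq]
  -- private elements
  have h27 : 5 * (27 : ℝ) ^ (4 * m) * (n : ℝ) ^ (2 - δ₁) ≤ (n : ℝ) ^ (2 - δ₂ / 4) := by
    have e1 : (27 : ℝ) ^ (4 * m) ≤ 2 ^ 20 * (n : ℝ) ^ (δ₂ / 4) := by
      calc (27 : ℝ) ^ (4 * m) ≤ 32 ^ (4 * m) := pow_le_pow_left₀ (by norm_num) (by norm_num) _
        _ = (2 : ℝ) ^ (20 * (m : ℝ)) := by
            rw [show (32 : ℝ) = 2 ^ (5 : ℕ) by norm_num, ← pow_mul, ← Real.rpow_natCast]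
            congr 1
            push_cast
            ring
        _ ≤ (2 : ℝ) ^ (20 * (δ₂ / 80 * ℓ + 1)) :=
            Real.rpow_le_rpow_of_exponent_le (by norm_num) (by linarith)
        _ = (2 : ℝ) ^ ((20 : ℕ) : ℝ) * ((2 : ℝ) ^ ℓ) ^ (δ₂ / 4) := by
            rw [← Real.rpow_mul (by norm_num), ← Real.rpow_add (by norm_num)]
            congr 1
            push_cast
            ring
        _ = 2 ^ 20 * (n : ℝ) ^ (δ₂ / 4) := by
            rw [hℓ, Real.rpow_logb (by norm_num) (by norm_num) hn0, Real.rpow_natCast]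
    calc 5 * (27 : ℝ) ^ (4 * m) * (n : ℝ) ^ (2 - δ₁)
        ≤ 5 * (2 ^ 20 * (n : ℝ) ^ (δ₂ / 4)) * (n : ℝ) ^ (2 - δ₂) := by
          apply mul_le_mul _ _ (by positivity) (by positivity)
          · linarith
          · exact Real.rpow_le_rpow_of_exponent_le hn11 (by linarith)
      _ = (5 * 2 ^ 20) * ((n : ℝ) ^ (δ₂ / 4) * (n : ℝ) ^ (2 - δ₂)) := by ring
      _ ≤ (n : ℝ) ^ (δ₂ / 2) * ((n : ℝ) ^ (δ₂ / 4) * (n : ℝ) ^ (2 - δ₂)) :=
          mul_le_mul_of_nonneg_right hk2 (by positivity)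
      _ = (n : ℝ) ^ (2 - δ₂ / 4) := by
          rw [← Real.rpow_add hn0, ← Real.rpow_add hn0]
          congr 1
          ring
  have hpos : (0 : ℝ) < 5 * (27 : ℝ) ^ (4 * m) := by positivity
  have hb := core_bound D E m τ R hτ1 hcnt' hR2 hR1 hτ2 Q
    (N * (2 : ℝ) ^ (-((n : ℝ) ^ (2 - ε')))) (by positivity) (by
      intro W hW T hT1 hT2
      rw [Nat.card_eq_fintype_card, Fintype.card_subtype]
      refine hE W (fun t => ?_) T hT1 fun x hx hx' => hT2 x hx (hD x hx')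
      have h6 : (n : ℝ) ^ (2 - δ₂ / 4) ≤
          5 * (27 : ℝ) ^ (4 * m) * (Nat.card {e // ∀ a, a ≠ t → e ∉ W a} : ℝ) := by
        refine hEc.trans ?_
        exact_mod_cast hW t
      exact le_of_mul_le_mul_left (h27.trans h6) hpos)
  rw [Nat.card_eq_fintype_card, Fintype.card_subtype] at hb
  refine hb.trans ?_
  -- arithmetic
  have hs1 : 1 ≤ s := by
    have := D.out.2
    omega
  have hs0 : (1 : ℝ) ≤ s := by exact_mod_cast hs1
  set y := (n : ℝ) ^ (2 - ε) with hy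
  set z := (n : ℝ) ^ (2 - ε') with hz
  have hy0 : 0 < y := Real.rpow_pos_of_pos hn0 _
  have hz0 : 0 < z := Real.rpow_pos_of_pos hn0 _
  have hyz : (R : ℝ) * (18 + 6 * y) + 12 + 4 * y ≤ z := by
    have hRR : (R : ℝ) = 96 * (m : ℝ) ^ 2 := by
      rw [hR]
      push_cast
      ring
    have hmm : (1 : ℝ) ≤ (m : ℝ) ^ 2 := by
      have : 1 ≤ m ^ 2 := Nat.one_le_pow _ _ (by omega)
      exact_mod_cast this
    have k1 : 3492 * (m : ℝ) ^ 2 * y ≤ z := by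
      calc 3492 * (m : ℝ) ^ 2 * y ≤ (n : ℝ) ^ η * y := mul_le_mul_of_nonneg_right hm3 hy0.le
        _ = (n : ℝ) ^ (η + (2 - ε)) := by rw [hy, ← Real.rpow_add hn0]
        _ ≤ z := Real.rpow_le_rpow_of_exponent_le hn11 (by linarith)
    have k2 : 3492 * (m : ℝ) ^ 2 ≤ z :=
      hm3.trans (Real.rpow_le_rpow_of_exponent_le hn11 (by linarith))
    have k3 : y ≤ (m : ℝ) ^ 2 * y := le_mul_of_one_le_left hy0.le hmm
    rw [hRR]
    nlinarith
  have hpow : (((s * (s + 1) + 1) ^ R * (16 * s) ^ (4 * R + 3) : ℕ) : ℝ) ≤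
      (2 : ℝ) ^ ((R : ℝ) * (18 + 6 * y) + 12 + 3 * y) := by
    have q1 : ((s * (s + 1) + 1 : ℕ) : ℝ) ≤ (2 : ℝ) ^ (2 + 2 * y) := by
      have : (s : ℝ) * (s + 1) + 1 ≤ 4 * ((s : ℝ) * s) := by nlinarith
      calc ((s * (s + 1) + 1 : ℕ) : ℝ) = (s : ℝ) * (s + 1) + 1 := by push_cast; ring
        _ ≤ 4 * ((s : ℝ) * s) := this
        _ ≤ 4 * ((2 : ℝ) ^ y * (2 : ℝ) ^ y) := by gcongr
        _ = (2 : ℝ) ^ (2 + 2 * y) := by
            rw [← Real.rpow_add (by norm_num), show (4 : ℝ) = (2 : ℝ) ^ (2 : ℝ) by norm_num,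
              ← Real.rpow_add (by norm_num)]
            congr 1
            ring
    have q2 : ((16 * s : ℕ) : ℝ) ≤ (2 : ℝ) ^ (4 + y) := by
      calc ((16 * s : ℕ) : ℝ) = 16 * s := by push_cast; ring
        _ ≤ 16 * (2 : ℝ) ^ y := by gcongr
        _ = (2 : ℝ) ^ (4 + y) := by
            rw [Real.rpow_add (by norm_num)]
            norm_num
    calc (((s * (s + 1) + 1) ^ R * (16 * s) ^ (4 * R + 3) : ℕ) : ℝ)
        = ((s * (s + 1) + 1 : ℕ) : ℝ) ^ R * ((16 * s : ℕ) : ℝ) ^ (4 * R + 3) := by push_cast; ring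
      _ ≤ ((2 : ℝ) ^ (2 + 2 * y)) ^ R * ((2 : ℝ) ^ (4 + y)) ^ (4 * R + 3) := by gcongr
      _ = (2 : ℝ) ^ ((R : ℝ) * (18 + 6 * y) + 12 + 3 * y) := by
          rw [← Real.rpow_mul_natCast (by norm_num), ← Real.rpow_mul_natCast (by norm_num),
            ← Real.rpow_add (by norm_num)]
          congr 1
          push_cast
          ring
  calc (((s * (s + 1) + 1) ^ R * (16 * s) ^ (4 * R + 3) : ℕ) : ℝ) * (N * (2 : ℝ) ^ (-z))
      ≤ (2 : ℝ) ^ ((R : ℝ) * (18 + 6 * y) + 12 + 3 * y) * (N * (2 : ℝ) ^ (-z)) :=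
        mul_le_mul_of_nonneg_right hpow (by positivity)
    _ = N * (2 : ℝ) ^ ((R : ℝ) * (18 + 6 * y) + 12 + 3 * y + -z) := by
        rw [Real.rpow_add (by norm_num : (0 : ℝ) < 2) ((R : ℝ) * (18 + 6 * y) + 12 + 3 * y) (-z)]
        ring
    _ ≤ N * (2 : ℝ) ^ (-y) := by
        apply mul_le_mul_of_nonneg_left _ (Nat.cast_nonneg _)
        apply Real.rpow_le_rpow_of_exponent_le (by norm_num)
        linarith

end Pool.Agent.RT
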