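import Mathlib
import Pool.Agent.Lib.MP_0a1b52_lc_RS.Uniq

/-!
# How often a circuit reads its variables, module RandA: random pairs of control edges
-/

set_option autoImplicit false

namespace Pool.Agent.RT

open Finset

open Classical in
theorem randA (M G : ℕ) (hM : 1 ≤ M) (b : ℝ) (hb0 : 0 < b) (hb : 2 * (G : ℝ) ^ 2 / M ≤ b) :
    ∃ (Φ : Type) (_ : Fintype Φ) (Λ : Φ → Finset (Fin G)) (q : Φ → Fin G → Fin 2 → Fin M),
      0 < Fintype.card Φ ∧
      (∀ φ t, ∀ i ∈ Λ φ, ∀ i' ∈ Λ φ, q φ i t = q φ i' t → i = i') ∧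
      ∀ (A : Fin 2 → Finset (Fin M)) (ρ : ℝ), 0 ≤ ρ → ρ ≤ 1 →
        ρ * (M : ℝ) ^ 2 ≤ ((A 0).card : ℝ) * (A 1).card →
        ((univ.filter fun φ : Φ => (((Λ φ).filter fun i => ∀ t, q φ i t ∈ A t).card : ℝ) <
          ρ * G / 4 - 2 * b).card : ℝ) ≤
        Fintype.card Φ * (2 * (2 : ℝ) ^ (-(ρ * G / 4))) := by
  obtain ⟨R, hR1, hR2⟩ := Pool.Agent.RS.uniq_sum M G hM
  have hMpos : (0 : ℝ) < (M : ℝ) := by exact_mod_cast hM
  set U : ℝ := (M : ℝ) ^ (2 * G) with hU
  have hUpos : 0 < U := pow_pos hMpos _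
  have hA : Fintype.card (Fin 2 → Fin M) = M ^ 2 := by simp
  have hUcard : ((univ : Finset (Fin G → Fin 2 → Fin M)).card : ℝ) = U := by
    rw [card_univ, Fintype.card_fun, hA, Fintype.card_fin, hU, pow_mul]
    push_cast
    ring
  set S1 : Finset (Fin G → Fin 2 → Fin M) :=
    univ.filter fun φ => 2 * b < ((R φ).card : ℝ) with hS1
  have h1 : (S1.card : ℝ) ≤ U / 2 := by
    have e1 : (S1.card : ℝ) * (2 * b) ≤ ∑ φ, ((R φ).card : ℝ) := by
      calc (S1.card : ℝ) * (2 * b) = ∑ _φ ∈ S1, (2 * b) := by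
            rw [sum_const, nsmul_eq_mul]
        _ ≤ ∑ φ ∈ S1, ((R φ).card : ℝ) := by
            apply sum_le_sum
            intro φ hφ
            exact (mem_filter.mp hφ).2.le
        _ ≤ ∑ φ, ((R φ).card : ℝ) := by
            apply sum_le_sum_of_subset_of_nonneg (subset_univ _)
            intro φ _ _
            exact Nat.cast_nonneg _
    have e2 : U * (2 * (G : ℝ) ^ 2 / M) ≤ U * b := mul_le_mul_of_nonneg_left hb hUpos.le
    have e3 : (S1.card : ℝ) * (2 * b) ≤ U / 2 * (2 * b) := by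
      calc (S1.card : ℝ) * (2 * b) ≤ U * b := (e1.trans hR2).trans e2
        _ = U / 2 * (2 * b) := by ring
    exact le_of_mul_le_mul_right e3 (by linarith)
  have hΦ : U ≤ 2 * (Fintype.card {φ : Fin G → Fin 2 → Fin M //
      ((R φ).card : ℝ) ≤ 2 * b} : ℝ) := by
    have hsub : (univ : Finset (Fin G → Fin 2 → Fin M)) ⊆
        S1 ∪ univ.filter fun φ => ((R φ).card : ℝ) ≤ 2 * b := by
      intro φ _
      rcases lt_or_ge (2 * b) ((R φ).card : ℝ) with hlt | hge
      · exact mem_union_left _ (mem_filter.mpr ⟨mem_univ _, hlt⟩)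
      · exact mem_union_right _ (mem_filter.mpr ⟨mem_univ _, hge⟩)
    have hle := (card_le_card hsub).trans (card_union_le _ _)
    rw [← Fintype.card_subtype (fun φ : Fin G → Fin 2 → Fin M =>
      ((R φ).card : ℝ) ≤ 2 * b)] at hle
    have hle' : U ≤ (S1.card : ℝ) + (Fintype.card {φ : Fin G → Fin 2 → Fin M //
        ((R φ).card : ℝ) ≤ 2 * b} : ℝ) := by
      rw [← hUcard]
      exact_mod_cast hle
    linarith
  refine ⟨{φ : Fin G → Fin 2 → Fin M // ((R φ).card : ℝ) ≤ 2 * b}, inferInstance,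
    fun φ => univ.filter fun i => i ∉ R φ.1, fun φ i => φ.1 i, ?_, ?_, ?_⟩
  · have h2 : (0 : ℝ) < (Fintype.card {φ : Fin G → Fin 2 → Fin M //
        ((R φ).card : ℝ) ≤ 2 * b} : ℝ) := by linarith
    exact_mod_cast h2
  · intro φ t i hi i' _ he
    by_contra hne
    exact hR1 φ.1 t i i' (mem_filter.1 hi).2 hne he
  · intro A ρ hρ0 hρ1 hρ
    set B : Finset {φ : Fin G → Fin 2 → Fin M // ((R φ).card : ℝ) ≤ 2 * b} :=
      univ.filter fun φ => (((univ.filter fun i => i ∉ R φ.1).filter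
        fun i => ∀ t, φ.1 i t ∈ A t).card : ℝ) < ρ * G / 4 - 2 * b with hBdef
    set S : Finset (Fin 2 → Fin M) := univ.filter fun χ => ∀ t, χ t ∈ A t with hS
    have hScard : S.card = (A 0).card * (A 1).card := by
      have h2 : S = Fintype.piFinset A := by
        ext χ
        simp [hS, Fintype.mem_piFinset]
      rw [h2, Fintype.card_piFinset, Fin.prod_univ_two]
    have hch := Pool.Agent.RS.chernoff S G ρ hρ0 hρ1 (by
      rw [hA, hScard]
      push_cast
      exact hρ)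
    have hB : ((B.image Subtype.val).card : ℝ) ≤ U * (2 : ℝ) ^ (-(ρ * G / 4)) := by
      have hU2 : (Fintype.card (Fin 2 → Fin M) : ℝ) ^ G = U := by
        rw [hA, hU, pow_mul]
        push_cast
        ring
      rw [hU2] at hch
      refine le_trans ?_ hch
      refine Nat.cast_le.2 (card_le_card ?_)
      intro φ hφ
      obtain ⟨ψ, hψ, rfl⟩ := mem_image.mp hφ
      have hψ2 := (mem_filter.mp hψ).2
      refine mem_filter.2 ⟨mem_univ _, ?_⟩
      have hsub : (univ.filter fun i => ψ.1 i ∈ S) ⊆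
          ((univ.filter fun i => i ∉ R ψ.1).filter fun i => ∀ t, ψ.1 i t ∈ A t) ∪ R ψ.1 := by
        intro i hi
        by_cases hiR : i ∈ R ψ.1
        · exact mem_union_right _ hiR
        · refine mem_union_left _ (mem_filter.2 ⟨mem_filter.2 ⟨mem_univ _, hiR⟩, ?_⟩)
          exact (mem_filter.1 (mem_filter.1 hi).2).2
      have hle := (card_le_card hsub).trans (card_union_le _ _)
      have hle3 : ((univ.filter fun i => ψ.1 i ∈ S).card : ℝ) ≤
          (((univ.filter fun i => i ∉ R ψ.1).filter fun i => ∀ t, ψ.1 i t ∈ A t).card : ℝ) +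
            ((R ψ.1).card : ℝ) := by exact_mod_cast hle
      have hle4 := ψ.2
      linarith
    rw [card_image_of_injective _ Subtype.val_injective] at hB
    have hpow : (0 : ℝ) ≤ (2 : ℝ) ^ (-(ρ * G / 4)) := Real.rpow_nonneg (by norm_num) _
    calc (B.card : ℝ) ≤ U * (2 : ℝ) ^ (-(ρ * G / 4)) := hB
      _ ≤ (2 * (Fintype.card {φ : Fin G → Fin 2 → Fin M //
          ((R φ).card : ℝ) ≤ 2 * b} : ℝ)) * (2 : ℝ) ^ (-(ρ * G / 4)) :=
        mul_le_mul_of_nonneg_right hΦ hpow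
      _ = _ := by ring

end Pool.Agent.RT
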