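import Mathlib
import Pool.Agent.Lib.MP_0a1b52_lc_RT.CellG

/-!
# How often a circuit reads its variables, module Shape: a matching or a star in a set of variables
-/

set_option autoImplicit false

namespace Pool.Agent.RT

open Finset Pool.Agent.FP

private theorem rest {n : ℕ} (W : Finset (Fin n)) (r : ℕ) (h : W.card + r ≤ n) :
    ∃ R : Finset (Fin n), R.card = r ∧ ∀ x ∈ W, x ∉ R := by
  classical
  obtain ⟨R, hR, hr⟩ := exists_subset_card_eq (s := Wᶜ) (n := r) (by
    rw [card_compl, Fintype.card_fin]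
    omega)
  exact ⟨R, hr, fun x hx hxR => mem_compl.1 (hR hxR) hx⟩

private theorem lam_card {M G : ℕ} (Λ : Finset (Fin G)) (q : Fin G → Fin 2 → Fin M)
    (h : ∀ t, ∀ i ∈ Λ, ∀ i' ∈ Λ, q i t = q i' t → i = i') : Λ.card ≤ M := by
  have h1 := card_le_card_of_injOn (s := Λ) (t := univ) (fun i => q i 0)
    (fun i _ => mem_univ _) (fun i hi i' hi' he => h 0 i hi i' hi' he)
  rwa [card_univ, Fintype.card_fin] at h1

/-- the `b`-th vertex of an edge -/
private def vx {n : ℕ} (e : EdgeVar n) (b : Bool) : Fin n := if b then e.1.2 else e.1.1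

private theorem shape_mat (n M : ℕ) (hn : 4 * M + Nat.sqrt n + 1 ≤ n) (hM2 : 2 * M ≤ Nat.sqrt n)
    (e : Fin 2 × Fin M → EdgeVar n)
    (he : ∀ p p' b b', vx (e p) b = vx (e p') b' → p = p' ∧ b = b') (G : ℕ)
    (Λ : Finset (Fin G)) (q : Fin G → Fin 2 → Fin M)
    (hq : ∀ t, ∀ i ∈ Λ, ∀ i' ∈ Λ, q i t = q i' t → i = i') :
    ∃ (𝒦 : Type) (_ : Fintype 𝒦) (C : Cells n {i : Fin G // i ∈ Λ} 𝒦),
      ∀ (i : {i : Fin G // i ∈ Λ}) (t : Fin 2),
        (e (t, q i.1 t)).1 = (C.u (C.f i) t, C.u (C.g i) t) ∨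
        (e (t, q i.1 t)).1 = (C.u (C.g i) t, C.u (C.f i) t) := by
  classical
  have hL := lam_card Λ q hq
  have hcard : Fintype.card ({i : Fin G // i ∈ Λ} × Bool) = 2 * Λ.card := by
    rw [Fintype.card_prod, Fintype.card_bool, Fintype.card_coe, mul_comm]
  obtain ⟨R, hR1, hR2⟩ := rest
    ((univ : Finset ((Fin 2 × Fin M) × Bool)).image fun p => vx (e p.1) p.2)
    (Nat.sqrt n + 1 - 2 * Λ.card) (by
      have h1 := card_image_le (s := (univ : Finset ((Fin 2 × Fin M) × Bool)))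
        (f := fun p => vx (e p.1) p.2)
      rw [card_univ, Fintype.card_prod, Fintype.card_prod, Fintype.card_bool, Fintype.card_fin,
        Fintype.card_fin] at h1
      omega)
  refine ⟨{i : Fin G // i ∈ Λ} × Bool, inferInstance,
    { u := fun κ t => vx (e (t, q κ.1.1 t)) κ.2
      f := fun i => (i, false)
      g := fun i => (i, true)
      disj := ?_
      fg := ?_
      uniq := ?_
      choice := ?_
      R := R
      hR := ?_
      card := ?_ }, ?_⟩
  · rintro ⟨i, b⟩ ⟨i', b'⟩ t t' h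
    obtain ⟨h1, h2⟩ := he _ _ _ _ h
    obtain ⟨h3, h4⟩ := Prod.mk.injEq _ _ _ _ ▸ h1
    subst h3
    have h5 := hq t i.1 i.2 i'.1 i'.2 h4
    exact Prod.ext (Subtype.ext h5) h2
  · intro i h
    exact Bool.noConfusion (congrArg Prod.snd h)
  · rintro i i' (⟨h1, -⟩ | ⟨h1, -⟩)
    · exact congrArg Prod.fst h1
    · exact (Bool.noConfusion (congrArg Prod.snd h1))
  · intro c
    exact ⟨fun κ => c κ.1, fun i => ⟨rfl, rfl⟩⟩
  · intro κ t
    exact hR2 _ (mem_image.2 ⟨((t, q κ.1.1 t), κ.2), mem_univ _, rfl⟩)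
  · rw [hR1, hcard]
    omega
  · intro i t
    left
    simp [vx]

private theorem shape_star (n M : ℕ) (hn : 4 * M + Nat.sqrt n + 1 ≤ n)
    (hM2 : 2 * M ≤ Nat.sqrt n) (e : Fin 2 × Fin M → EdgeVar n) (v : Fin n)
    (l : Fin 2 × Fin M → Fin n) (hl : Function.Injective l) (hlv : ∀ p, l p ≠ v)
    (he : ∀ p, (e p).1 = (v, l p) ∨ (e p).1 = (l p, v)) (G : ℕ)
    (Λ : Finset (Fin G)) (q : Fin G → Fin 2 → Fin M)
    (hq : ∀ t, ∀ i ∈ Λ, ∀ i' ∈ Λ, q i t = q i' t → i = i') :
    ∃ (𝒦 : Type) (_ : Fintype 𝒦) (C : Cells n {i : Fin G // i ∈ Λ} 𝒦),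
      ∀ (i : {i : Fin G // i ∈ Λ}) (t : Fin 2),
        (e (t, q i.1 t)).1 = (C.u (C.f i) t, C.u (C.g i) t) ∨
        (e (t, q i.1 t)).1 = (C.u (C.g i) t, C.u (C.f i) t) := by
  classical
  have hL := lam_card Λ q hq
  have hcard : Fintype.card (Option {i : Fin G // i ∈ Λ}) = Λ.card + 1 := by
    rw [Fintype.card_option, Fintype.card_coe]
  obtain ⟨R, hR1, hR2⟩ := rest (insert v ((univ : Finset (Fin 2 × Fin M)).image l))
    (Nat.sqrt n + 1 - (Λ.card + 1)) (by
      have h1 := card_image_le (s := (univ : Finset (Fin 2 × Fin M))) (f := l)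
      have h2 := card_insert_le v ((univ : Finset (Fin 2 × Fin M)).image l)
      rw [card_univ, Fintype.card_prod, Fintype.card_fin, Fintype.card_fin] at h1
      omega)
  refine ⟨Option {i : Fin G // i ∈ Λ}, inferInstance,
    { u := fun κ t => κ.elim v fun i => l (t, q i.1 t)
      f := fun i => none
      g := fun i => some i
      disj := ?_
      fg := ?_
      uniq := ?_
      choice := ?_
      R := R
      hR := ?_
      card := ?_ }, ?_⟩
  · rintro (_ | i) (_ | i') t t' h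
    · rfl
    · exact (hlv _ h.symm).elim
    · exact (hlv _ h).elim
    · have h1 : l (t, q i.1 t) = l (t', q i'.1 t') := h
      have h2 := hl h1
      obtain ⟨h3, h4⟩ := Prod.mk.injEq _ _ _ _ ▸ h2
      subst h3
      have h5 := hq t i.1 i.2 i'.1 i'.2 h4
      exact congrArg some (Subtype.ext h5)
  · intro i h
    exact Option.noConfusion rfl (heq_of_eq h)
  · rintro i i' (⟨-, h1⟩ | ⟨h1, -⟩)
    · exact Option.some.inj h1
    · exact Option.noConfusion rfl (heq_of_eq h1)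
  · intro c
    exact ⟨fun κ => κ.elim 0 c, fun i => ⟨rfl, rfl⟩⟩
  · rintro (_ | i) t
    · exact hR2 _ (mem_insert_self _ _)
    · exact hR2 _ (mem_insert_of_mem (mem_image.2 ⟨(t, q i.1 t), mem_univ _, rfl⟩))
  · rw [hR1, hcard]
    omega
  · intro i t
    exact he (t, q i.1 t)

private theorem pick {A : Type} (S : Finset A) (M : ℕ) (h : 2 * M ≤ S.card) :
    ∃ e : Fin 2 × Fin M → A, Function.Injective e ∧ ∀ p, e p ∈ S := by
  obtain ⟨e⟩ := Function.Embedding.nonempty_of_card_le (α := Fin 2 × Fin M) (β := ↥S) (by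
    rw [Fintype.card_prod, Fintype.card_fin, Fintype.card_fin, Fintype.card_coe]
    exact h)
  exact ⟨fun p => (e p).1, fun p p' h => e.injective (Subtype.ext h), fun p => (e p).2⟩

/-- `w` is a vertex of `e` -/
private def Tc {n : ℕ} (w : Fin n) (e : EdgeVar n) : Prop := w = e.1.1 ∨ w = e.1.2

open Classical in
private theorem big_deg {n M : ℕ} (hM : 1 ≤ M) (E : Finset (EdgeVar n)) (hE : 8 * M ^ 2 ≤ E.card)
    (F : Finset (EdgeVar n)) (hF : F.card < 2 * M)
    (hmax : ∀ e ∈ E, ∃ f ∈ F, ∃ w, Tc w e ∧ Tc w f) :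
    ∃ w, 2 * M ≤ (E.filter fun e => Tc w e).card := by
  by_contra hc
  have hc2 : ∀ w, (E.filter fun e => Tc w e).card ≤ 2 * M - 1 := by
    intro w
    by_contra h
    exact hc ⟨w, by omega⟩
  have h1 : E ⊆ (F.image (fun f => f.1.1) ∪ F.image fun f => f.1.2).biUnion
      fun w => E.filter fun e => Tc w e := by
    intro e he
    obtain ⟨f, hf, w, h2, h3⟩ := hmax e he
    refine mem_biUnion.2 ⟨w, ?_, mem_filter.2 ⟨he, h2⟩⟩
    rcases h3 with rfl | rfl
    · exact mem_union_left _ (mem_image.2 ⟨f, hf, rfl⟩)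
    · exact mem_union_right _ (mem_image.2 ⟨f, hf, rfl⟩)
  have h2 : (F.image (fun f => f.1.1) ∪ F.image fun f => f.1.2).card ≤ 2 * (2 * M - 1) := by
    have h3 := card_union_le (F.image fun f => f.1.1) (F.image fun f => f.1.2)
    have h4 := card_image_le (s := F) (f := fun f => f.1.1)
    have h5 := card_image_le (s := F) (f := fun f => f.1.2)
    omega
  have h3 : E.card ≤ 2 * (2 * M - 1) * (2 * M - 1) := by
    refine (card_le_card h1).trans (card_biUnion_le.trans ?_)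
    calc ∑ w ∈ F.image (fun f => f.1.1) ∪ F.image fun f => f.1.2, (E.filter fun e => Tc w e).card
        ≤ ∑ _w ∈ F.image (fun f => f.1.1) ∪ F.image fun f => f.1.2, (2 * M - 1) :=
          sum_le_sum fun w _ => hc2 w
      _ = (F.image (fun f => f.1.1) ∪ F.image fun f => f.1.2).card * (2 * M - 1) := by
          rw [sum_const, smul_eq_mul]
      _ ≤ _ := Nat.mul_le_mul_right _ h2
  obtain ⟨k, rfl⟩ : ∃ k, M = k + 1 := ⟨M - 1, by omega⟩
  have h4 : 2 * (k + 1) - 1 = 2 * k + 1 := by omega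
  rw [h4] at h3
  nlinarith

theorem shape (n M : ℕ) (hM : 1 ≤ M) (hn : 4 * M + Nat.sqrt n + 1 ≤ n)
    (hM2 : 2 * M ≤ Nat.sqrt n) (E : Finset (EdgeVar n)) (hE : 8 * M ^ 2 ≤ E.card) :
    ∃ e : Fin 2 × Fin M → EdgeVar n, (∀ p, e p ∈ E) ∧ Function.Injective e ∧
      ∀ (G : ℕ) (Λ : Finset (Fin G)) (q : Fin G → Fin 2 → Fin M),
        (∀ t, ∀ i ∈ Λ, ∀ i' ∈ Λ, q i t = q i' t → i = i') →
        ∃ (𝒦 : Type) (_ : Fintype 𝒦) (C : Cells n {i : Fin G // i ∈ Λ} 𝒦),
          ∀ (i : {i : Fin G // i ∈ Λ}) (t : Fin 2),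
            (e (t, q i.1 t)).1 = (C.u (C.f i) t, C.u (C.g i) t) ∨
            (e (t, q i.1 t)).1 = (C.u (C.g i) t, C.u (C.f i) t) := by
  classical
  let 𝓕 : Finset (Finset (EdgeVar n)) := E.powerset.filter fun F =>
    ∀ e ∈ F, ∀ f ∈ F, e ≠ f → ∀ w, Tc w e → Tc w f → False
  have h𝓕 : 𝓕.Nonempty := ⟨∅, mem_filter.2 ⟨mem_powerset.2 (empty_subset _), by simp⟩⟩
  obtain ⟨F, hF, hFmax⟩ := exists_max_image 𝓕 card h𝓕
  obtain ⟨hF1, hF2⟩ := mem_filter.1 hF
  have hF1 := mem_powerset.1 hF1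
  by_cases hc : 2 * M ≤ F.card
  · obtain ⟨e, he1, he2⟩ := pick F M hc
    refine ⟨e, fun p => hF1 (he2 p), he1, fun G Λ q hq => shape_mat n M hn hM2 e ?_ G Λ q hq⟩
    intro p p' b b' h
    have hT : ∀ p b, Tc (vx (e p) b) (e p) := by
      intro p b
      cases b
      · exact Or.inl rfl
      · exact Or.inr rfl
    have hp : p = p' := by
      by_contra hne
      exact hF2 (e p) (he2 p) (e p') (he2 p') (fun h1 => hne (he1 h1)) _ (hT p b)
        (h ▸ hT p' b')
    subst hp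
    refine ⟨rfl, ?_⟩
    have h1 := (e p).2
    rcases b with _ | _ <;> rcases b' with _ | _
    · rfl
    · exact (h1.ne h).elim
    · exact (h1.ne h.symm).elim
    · rfl
  · obtain ⟨v, hv⟩ := big_deg hM E hE F (by omega) (by
      intro e he
      by_contra hno
      have hno2 : ∀ f ∈ F, ∀ w, Tc w e → Tc w f → False := fun f hf w h1 h2 =>
        hno ⟨f, hf, w, h1, h2⟩
      have heF : e ∉ F := fun h => hno2 e h e.1.1 (Or.inl rfl) (Or.inl rfl)
      have h1 : insert e F ∈ 𝓕 := by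
        refine mem_filter.2 ⟨mem_powerset.2 (insert_subset he hF1), ?_⟩
        intro a ha b hb hab w h2 h3
        rcases mem_insert.1 ha with ha2 | ha2
        · rcases mem_insert.1 hb with hb2 | hb2
          · exact hab (ha2.trans hb2.symm)
          · exact hno2 b hb2 w (ha2 ▸ h2) h3
        · rcases mem_insert.1 hb with hb2 | hb2
          · exact hno2 a ha2 w (hb2 ▸ h3) h2
          · exact hF2 a ha2 b hb2 hab w h2 h3
      have h2 := hFmax _ h1
      rw [card_insert_of_notMem heF] at h2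
      omega)
    obtain ⟨e, he1, he2⟩ := pick _ M hv
    have he3 : ∀ p, e p ∈ E := fun p => (mem_filter.1 (he2 p)).1
    have he4 : ∀ p, Tc v (e p) := fun p => (mem_filter.1 (he2 p)).2
    have hoth : ∀ p, ∃ w, w ≠ v ∧ ((e p).1 = (v, w) ∨ (e p).1 = (w, v)) := by
      intro p
      have h1 := (e p).2
      rcases he4 p with h2 | h2
      · exact ⟨(e p).1.2, fun h => h1.ne' (h.trans h2), Or.inl (by rw [h2])⟩
      · exact ⟨(e p).1.1, fun h => h1.ne (h.trans h2), Or.inr (by rw [h2])⟩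
    choose l hl1 hl2 using hoth
    refine ⟨e, he3, he1, fun G Λ q hq => shape_star n M hn hM2 e v l ?_ hl1 hl2 G Λ q hq⟩
    intro p p' h
    apply he1
    apply Subtype.ext
    have h1 := (e p).2
    have h2 := (e p').2
    rcases hl2 p with h3 | h3 <;> rcases hl2 p' with h4 | h4
    · rw [h3, h4, h]
    · rw [h3] at h1
      rw [h4, ← h] at h2
      exact (lt_asymm h1 h2).elim
    · rw [h3] at h1
      rw [h4, ← h] at h2
      exact (lt_asymm h1 h2).elim
    · rw [h3, h4, h]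

end Pool.Agent.RT
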