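import Mathlib
import Pool.Agent.Lib.MP_0a1b52_lc_RT.Fool
import Pool.Agent.Lib.MP_0a1b52_lc_RT.Shape
import Pool.Agent.Lib.MP_0a1b52_lc_RT.RandA

/-!
# How often a circuit reads its variables, module RelA: accepted graphs with control edges in `E`
-/

set_option autoImplicit false

namespace Pool.Agent.RT

open Finset Pool.Agent.FP Pool.Agent.RK

/-- the parameters: `y = n ^ γ`, `x = n ^ (α / 16)` -/
private theorem relA_par (x y : ℝ) (hx : 256 ≤ x) (hy : 1 ≤ y) (M G : ℕ)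
    (hM1 : (M : ℝ) ≤ y * x ^ 8 / 4) (hM2 : y * x ^ 8 / 4 < M + 1)
    (hG1 : (G : ℝ) ≤ M / x ^ 2) (hG2 : (M : ℝ) / x ^ 2 < G + 1) :
    1 ≤ M ∧ x ^ 2 ≤ M ∧ 2 * (G : ℝ) ^ 2 / M ≤ 2 * M / x ^ 4 ∧ 0 < 2 * (M : ℝ) / x ^ 4 ∧
      8 * (M : ℝ) ^ 2 ≤ y ^ 2 * x ^ 16 ∧ 2 * (M : ℝ) ≤ y * x ^ 8 / 2 ∧
      y * x ^ 2 + 1 ≤ x⁻¹ * G / 4 - 2 * (2 * M / x ^ 4) ∧
      y * x ^ 2 + 1 + 1 ≤ x⁻¹ * G / 4 := by
  have hx0 : 0 < x := by linarith
  have hx8 : (256 : ℝ) ^ 8 ≤ x ^ 8 := pow_le_pow_left₀ (by norm_num) hx 8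
  have h256 : (16 : ℝ) ≤ 256 ^ 8 := by norm_num
  have hx16 : (16 : ℝ) ≤ x ^ 8 := h256.trans hx8
  have hyx : 16 ≤ y * x ^ 8 := by nlinarith
  have hM3 : y * x ^ 8 / 8 ≤ M := by linarith
  have hM0 : (2 : ℝ) ≤ M := by linarith
  have hMpos : (0 : ℝ) < M := by linarith
  have hx6 : (256 : ℝ) ^ 6 ≤ x ^ 6 := pow_le_pow_left₀ (by norm_num) hx 6
  have hx66 : (16 : ℝ) ≤ x ^ 6 := le_trans (by norm_num) hx6
  have hx2 : 0 < x ^ 2 := by positivity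
  -- `2 ≤ M / x ^ 2`
  have hMx2 : 2 * x ^ 2 ≤ M := by
    have h1 : y * x ^ 8 = y * x ^ 6 * x ^ 2 := by ring
    have h2 : 16 ≤ y * x ^ 6 := by nlinarith
    have h3 : 16 * x ^ 2 ≤ y * x ^ 6 * x ^ 2 := mul_le_mul_of_nonneg_right h2 hx2.le
    linarith
  have hG3 : (M : ℝ) / x ^ 2 / 2 ≤ G := by
    have h1 : 2 ≤ (M : ℝ) / x ^ 2 := by
      rw [le_div_iff₀ hx2]
      exact hMx2
    linarith
  have hG0 : (0 : ℝ) ≤ G := Nat.cast_nonneg _
  -- lower bound for the number of good gadgets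
  have e1 : (M : ℝ) / x ^ 2 / 2 * x⁻¹ / 4 = M / x ^ 4 * (x / 8) := by
    field_simp
    ring
  have e2 : (M : ℝ) / x ^ 4 * (x / 8) ≤ x⁻¹ * G / 4 := by
    rw [← e1]
    have := mul_le_mul_of_nonneg_right hG3 (inv_nonneg.2 hx0.le)
    linarith
  have hq : 0 < (M : ℝ) / x ^ 4 := by positivity
  have e3 : y * x ^ 4 / 8 ≤ (M : ℝ) / x ^ 4 := by
    rw [le_div_iff₀ (by positivity)]
    have h1 : y * x ^ 4 / 8 * x ^ 4 = y * x ^ 8 / 8 := by ring
    rw [h1]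
    exact hM3
  have e4 : (M : ℝ) / x ^ 4 * 16 ≤ M / x ^ 4 * (x / 8) - 4 * (M / x ^ 4) := by nlinarith
  have e5 : y * x ^ 2 + 1 + 1 ≤ (M : ℝ) / x ^ 4 * 16 := by
    have h1 : (256 : ℝ) ^ 2 ≤ x ^ 2 := pow_le_pow_left₀ (by norm_num) hx 2
    have h2 : (4 : ℝ) ≤ x ^ 2 := le_trans (by norm_num) h1
    have h3 : 1 ≤ y * x ^ 2 := by nlinarith
    have h4 : y * x ^ 2 * 4 ≤ y * x ^ 2 * x ^ 2 :=
      mul_le_mul_of_nonneg_left h2 (by positivity)
    have h5 : y * x ^ 2 * x ^ 2 = y * x ^ 4 := by ring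
    linarith
  have e6 : 2 * (2 * (M : ℝ) / x ^ 4) = 4 * (M / x ^ 4) := by ring
  refine ⟨?_, ?_, ?_, by positivity, ?_, by linarith, by linarith, by linarith⟩
  · have : (1 : ℝ) ≤ M := by linarith
    exact_mod_cast this
  · linarith
  · rw [div_le_div_iff₀ hMpos (by positivity)]
    have h1 : (G : ℝ) * x ^ 2 ≤ M := by
      rw [le_div_iff₀ hx2] at hG1
      exact hG1
    have h2 : ((G : ℝ) * x ^ 2) ^ 2 ≤ (M : ℝ) ^ 2 := pow_le_pow_left₀ (by positivity) h1 2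
    calc 2 * (G : ℝ) ^ 2 * x ^ 4 = 2 * ((G : ℝ) * x ^ 2) ^ 2 := by ring
      _ ≤ 2 * (M : ℝ) ^ 2 := by linarith
      _ = 2 * M * M := by ring
  · have h2 : (M : ℝ) ^ 2 ≤ (y * x ^ 8 / 4) ^ 2 := pow_le_pow_left₀ (by positivity) hM1 2
    have h3 : (0 : ℝ) ≤ y ^ 2 * x ^ 16 := by positivity
    calc 8 * (M : ℝ) ^ 2 ≤ 8 * (y * x ^ 8 / 4) ^ 2 := by linarith
      _ = y ^ 2 * x ^ 16 / 2 := by ring
      _ ≤ _ := by linarith

open Classical in
theorem relA (γ ε : ℝ) (hγ : 0 ≤ γ) (hγ2 : γ < 1 / 2) (hε : 0 < ε) :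
    ∃ η δ : ℝ, 0 < η ∧ 0 < δ ∧ ∃ n₀ : ℕ, ∀ n ≥ n₀, ∀ E : Finset (EdgeVar n),
      (n : ℝ) ^ (2 * γ + ε) ≤ E.card →
      ∃ E1 E2 : Finset (EdgeVar n), E1 ⊆ E ∧ E2 ⊆ E ∧ Disjoint E1 E2 ∧ E1.card = E2.card ∧
        (n : ℝ) ^ η ≤ E1.card ∧
        ∃ (N : ℕ) (Q : Fin N → EdgeVar n → Bool), 0 < N ∧ (∀ i, Clq (Q i)) ∧
          ∀ X : Fin 2 → Finset (EdgeVar n), (n : ℝ) ^ (-δ) * (E1.card : ℝ) ^ 2 ≤
            ((E1 ∩ X 0).card : ℝ) * ((E2 ∩ X 1).card : ℝ) →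
          ∀ T : (EdgeVar n → Bool) → Prop, StarK X T → (∀ x, T x → Clq x) →
            ((univ.filter fun i => T (Q i)).card : ℝ) ≤
              N * (2 : ℝ) ^ (-((n : ℝ) ^ (γ + η))) := by
  obtain ⟨α, hα⟩ : ∃ α, α = min ε (1 / 2 - γ) := ⟨_, rfl⟩
  have hα0 : 0 < α := by
    rw [hα]
    exact lt_min hε (by linarith)
  have hα1 : α ≤ ε := by
    rw [hα]
    exact min_le_left _ _
  have hα2 : α ≤ 1 / 2 - γ := by
    rw [hα]
    exact min_le_right _ _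
  have hlim : Filter.Tendsto (fun n : ℕ => (n : ℝ) ^ (α / 16)) Filter.atTop Filter.atTop :=
    (tendsto_rpow_atTop (by positivity)).comp tendsto_natCast_atTop_atTop
  obtain ⟨n₁, h₁⟩ := Filter.eventually_atTop.1 (hlim.eventually_ge_atTop 256)
  refine ⟨α / 8, α / 16, by positivity, by positivity, max n₁ 100, fun n hn E hE => ?_⟩
  have hx := h₁ n (le_trans (le_max_left _ _) hn)
  have hn100 : 100 ≤ n := le_trans (le_max_right _ _) hn
  have hnr : (100 : ℝ) ≤ n := by exact_mod_cast hn100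
  have hn0 : (0 : ℝ) < n := by linarith
  have hn1 : (1 : ℝ) ≤ n := by linarith
  set x := (n : ℝ) ^ (α / 16) with hxdef
  set y := (n : ℝ) ^ γ with hydef
  have hx0 : 0 < x := by linarith
  have hy1 : 1 ≤ y := Real.one_le_rpow hn1 hγ
  have hpow : ∀ k : ℕ, (n : ℝ) ^ (α / 16 * k) = x ^ k := by
    intro k
    rw [hxdef, Real.rpow_mul hn0.le, Real.rpow_natCast]
  have hxη : (n : ℝ) ^ (α / 8) = x ^ 2 := by
    rw [← hpow 2]
    congr 1
    push_cast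
    ring
  have hγη : (n : ℝ) ^ (γ + α / 8) = y * x ^ 2 := by
    rw [Real.rpow_add hn0, hxη]
  have hδ : (n : ℝ) ^ (-(α / 16)) = x⁻¹ := by
    rw [Real.rpow_neg hn0.le]
  have hEx : y ^ 2 * x ^ 16 ≤ E.card := by
    refine le_trans ?_ hE
    calc y ^ 2 * x ^ 16 = (n : ℝ) ^ (2 * γ + α) := by
          rw [Real.rpow_add hn0, ← hpow 16, hydef, ← Real.rpow_natCast ((n : ℝ) ^ γ) 2,
            ← Real.rpow_mul hn0.le]
          congr 2 <;> push_cast <;> ring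
      _ ≤ (n : ℝ) ^ (2 * γ + ε) := Real.rpow_le_rpow_of_exponent_le hn1 (by linarith)
  have hsq : y * x ^ 8 ≤ Real.sqrt n := by
    calc y * x ^ 8 = (n : ℝ) ^ (γ + α / 2) := by
          rw [Real.rpow_add hn0, ← hpow 8]
          congr 2
          push_cast
          ring
      _ ≤ (n : ℝ) ^ (1 / 2 : ℝ) := Real.rpow_le_rpow_of_exponent_le hn1 (by linarith)
      _ = Real.sqrt n := (Real.sqrt_eq_rpow _).symm
  set M := ⌊y * x ^ 8 / 4⌋₊ with hM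
  set G := ⌊(M : ℝ) / x ^ 2⌋₊ with hG
  obtain ⟨hM1, hM2, hb, hb0, hM3, hM4, hr1, hr2⟩ := relA_par x y hx hy1 M G
    (Nat.floor_le (by positivity)) (Nat.lt_floor_add_one _)
    (Nat.floor_le (by positivity)) (Nat.lt_floor_add_one _)
  -- the size of `√n`
  have hs1 : Nat.sqrt n * Nat.sqrt n ≤ n := Nat.sqrt_le n
  have hs10 : 10 ≤ Nat.sqrt n := Nat.le_sqrt.2 (by omega)
  have hs2 : Real.sqrt n ≤ Nat.sqrt n + 1 := Real.real_sqrt_le_nat_sqrt_succ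
  have hMs : 2 * M ≤ Nat.sqrt n := by
    have h1 : (2 : ℝ) * M ≤ (Nat.sqrt n + 1) / 2 := by linarith
    have h2 : (10 : ℝ) ≤ (Nat.sqrt n : ℕ) := by exact_mod_cast hs10
    have h3 : (2 : ℝ) * M ≤ (Nat.sqrt n : ℕ) := by linarith
    exact_mod_cast h3
  have hMn : 4 * M + Nat.sqrt n + 1 ≤ n := by nlinarith
  have hM8 : 8 * M ^ 2 ≤ E.card := by
    have h1 : (8 : ℝ) * (M : ℝ) ^ 2 ≤ E.card := hM3.trans hEx
    exact_mod_cast h1
  obtain ⟨e, he1, he2, hshape⟩ := shape n M hM1 hMn hMs E hM8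
  obtain ⟨Φ, hΦ, Λ, q, hΦc, hq, hgood⟩ := randA M G hM1 _ hb0 hb
  have hcells := fun φ : Φ => hshape G (Λ φ) (q φ) (hq φ)
  choose 𝒦 inst C hC using hcells
  obtain ⟨N, Q, hN, hQ, hmain⟩ := fool_main hΦc
    (fun φ y' => (C φ).gr fun t i => !(y' t i.1)) (y * x ^ 2 + 1)
  have hinj : ∀ t : Fin 2, Function.Injective fun k : Fin M => e (t, k) := by
    intro t k k' h
    exact congrArg Prod.snd (he2 h)
  have hc : ∀ t : Fin 2, ((univ : Finset (Fin M)).image fun k => e (t, k)).card = M := by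
    intro t
    rw [card_image_of_injective _ (hinj t), card_univ, Fintype.card_fin]
  refine ⟨univ.image fun k => e (0, k), univ.image fun k => e (1, k), ?_, ?_, ?_, ?_, ?_,
    N, Q, hN, ?_, ?_⟩
  · intro f hf
    obtain ⟨k, -, rfl⟩ := mem_image.1 hf
    exact he1 _
  · intro f hf
    obtain ⟨k, -, rfl⟩ := mem_image.1 hf
    exact he1 _
  · rw [disjoint_left]
    intro f hf hf'
    obtain ⟨k, -, rfl⟩ := mem_image.1 hf
    obtain ⟨k', -, h⟩ := mem_image.1 hf'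
    have h1 := congrArg Prod.fst (he2 h)
    exact absurd h1 (by simp)
  · rw [hc, hc]
  · rw [hc, hxη]
    exact hM2
  · intro i
    obtain ⟨φ, b, hb⟩ := hQ i
    rw [hb]
    refine (C φ).clq_of _ fun j => ?_
    rcases hbj : b j.1 with _ | _
    · exact ⟨0, by simp [opp, hbj]⟩
    · exact ⟨1, by simp [opp, hbj]⟩
  intro X hX T hT hTC
  rw [hc, hδ] at hX
  let A : Fin 2 → Finset (Fin M) := fun t => univ.filter fun k => e (t, k) ∈ X t
  have hA : ∀ t, ((univ.image fun k => e (t, k)) ∩ X t).card ≤ (A t).card := by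
    intro t
    refine (card_le_card ?_).trans (card_image_le (s := A t) (f := fun k => e (t, k)))
    intro f hf
    obtain ⟨h1, h2⟩ := mem_inter.1 hf
    obtain ⟨k, -, rfl⟩ := mem_image.1 h1
    exact mem_image.2 ⟨k, mem_filter.2 ⟨mem_univ _, h2⟩, rfl⟩
  have hAA : x⁻¹ * (M : ℝ) ^ 2 ≤ ((A 0).card : ℝ) * (A 1).card := by
    refine hX.trans (mul_le_mul ?_ ?_ (Nat.cast_nonneg _) (Nat.cast_nonneg _))
    · exact_mod_cast hA 0
    · exact_mod_cast hA 1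
  have hbad := hgood A x⁻¹ (by positivity) (inv_le_one_of_one_le₀ (by linarith)) hAA
  have hmain2 := hmain X (fun φ => (Λ φ).filter fun i => ∀ t, q φ i t ∈ A t) ?_ ?_ T hT ?_
  · refine hmain2.trans (mul_le_mul_of_nonneg_left (le_of_eq ?_) (Nat.cast_nonneg _))
    rw [hγη]
    have h3 : (2 : ℝ) * (2 : ℝ) ^ (-(y * x ^ 2 + 1)) =
        (2 : ℝ) ^ (1 + -(y * x ^ 2 + 1)) := by
      rw [Real.rpow_add (by norm_num), Real.rpow_one]
    rw [h3]
    congr 1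
    ring
  · intro φ y₁ y₂ t hs ht f hf
    by_contra hne
    obtain ⟨t', i, h1, h2⟩ := (C φ).indep _ _ f hne
    have htt : t' = t := by
      by_contra hc
      exact h1 (by rw [hs t' hc])
    subst htt
    have hi : i.1 ∈ (Λ φ).filter fun i => ∀ t, q φ i t ∈ A t := by
      by_contra hc
      exact h1 (by rw [ht i.1 hc])
    have h3 := (mem_filter.1 ((mem_filter.1 hi).2 t')).2
    have h4 := hC φ i t'
    have h5 : f = e (t', q φ i.1 t') := by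
      apply Subtype.ext
      have a1 := f.2
      have a2 := (e (t', q φ i.1 t')).2
      rcases h2 with h2 | h2 <;> rcases h4 with h4 | h4
      · exact h2.trans h4.symm
      · rw [h2] at a1
        rw [h4] at a2
        exact (lt_asymm a1 a2).elim
      · rw [h2] at a1
        rw [h4] at a2
        exact (lt_asymm a1 a2).elim
      · exact h2.trans h4.symm
    rw [h5] at hf
    exact hf h3
  · refine le_trans ?_ (hbad.trans ?_)
    · refine Nat.cast_le.2 (card_le_card fun φ hφ => mem_filter.2 ⟨mem_univ _, ?_⟩)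
      exact lt_of_lt_of_le (mem_filter.1 hφ).2 hr1
    · refine mul_le_mul_of_nonneg_left ?_ (Nat.cast_nonneg _)
      have h3 : (2 : ℝ) * (2 : ℝ) ^ (-(x⁻¹ * G / 4)) = (2 : ℝ) ^ (1 + -(x⁻¹ * G / 4)) := by
        rw [Real.rpow_add (by norm_num), Real.rpow_one]
      rw [h3]
      exact Real.rpow_le_rpow_of_exponent_le (by norm_num) (by linarith)
  · rintro φ y₁ ⟨i, hi, hy⟩ hTy
    obtain ⟨t, ht⟩ := (C φ).on_of_clq _ (hTC _ hTy) ⟨i, (mem_filter.1 hi).1⟩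
    simp [hy t] at ht

end Pool.Agent.RT
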