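import Mathlib
import Pool.Agent.Lib.MP_0a1b52_lc_RT.MainR
import Pool.Agent.Lib.MP_0a1b52_lc_RT.RelA
import Pool.Agent.Lib.MP_0a1b52_lc_RT.Dual

/-!
# How often a circuit reads its variables, module PartA: the accepting side
-/

set_option autoImplicit false

namespace Pool.Agent.RT

open Finset Pool.Agent.FP Pool.Agent.RK

open Classical in
theorem partA (γ ε : ℝ) (hγ : 0 ≤ γ) (hγ2 : γ < 1 / 2) (hε : 0 < ε) : ∃ c : ℝ, 0 < c ∧
    ∃ n₀ : ℕ, ∀ n ≥ n₀, ∀ E : Finset (EdgeVar n), (n : ℝ) ^ (2 * γ + ε) ≤ E.card →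
      ∃ (N : ℕ) (Q : Fin N → EdgeVar n → Bool), 0 < N ∧ (∀ i, Clq (Q i)) ∧
        ∀ (s : ℕ) (D : Circuit (EdgeVar n) s), (∀ x, ¬ Clq x → ¬ D.Accepts x) →
          (s : ℝ) ≤ (2 : ℝ) ^ ((n : ℝ) ^ γ) →
          (∀ e ∈ E, ∀ L, ATree D D.out L → (L.count e : ℝ) ≤ c * Real.logb 2 n) →
          ((univ.filter fun i => D.Accepts (Q i)).card : ℝ) ≤
            N * (2 : ℝ) ^ (-((n : ℝ) ^ γ)) := by
  obtain ⟨η, δ, hη, hδ, n₁, h₁⟩ := relA γ ε hγ hγ2 hε
  obtain ⟨c, hc, n₂, h₂⟩ := mainR γ η δ hγ hη hδ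
  refine ⟨c, hc, max n₁ n₂, fun n hn E hE => ?_⟩
  obtain ⟨E1, E2, hE1, hE2, hd, hcard, hsz, N, Q, hN, hQ, hfam⟩ :=
    h₁ n (le_trans (le_max_left _ _) hn) E hE
  refine ⟨N, Q, hN, hQ, fun s D hD hs hcnt => ?_⟩
  have h3 := h₂ n (le_trans (le_max_right _ _) hn) E1 E2 hd hcard hsz N Q Clq hfam s (dual D)
    (fun x hx => by
      rw [dual_accepts, not_not] at hx
      by_contra hc
      exact hD x hc hx) hs (fun e he L hL => by
      refine hcnt e ?_ L (tree_dual hL)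
      rcases mem_union.1 he with he | he
      · exact hE1 he
      · exact hE2 he)
  have h4 : (univ.filter fun i => ¬ (dual D).Accepts (Q i)) =
      univ.filter fun i => D.Accepts (Q i) := by
    ext i
    rw [mem_filter, mem_filter, dual_accepts, not_not]
  rw [h4] at h3
  exact h3

end Pool.Agent.RT
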